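import Pool.Agent.H26.Lib.R_pool_sql_team_seeded_3997aac3.Q5.SO.Hyp

/-! Noncyclic groups whose order is a product of two primes. -/

set_option autoImplicit false
set_option linter.unusedSectionVars false

namespace Pool.Agent.Q5.RG

open Pool.Agent.Q5.SO
open scoped Classical

section
variable {G : Type} [Group G] [Fintype G] {p q : ℕ}

theorem order_cases (hp : p.Prime) (hq : q.Prime) (hc : Nat.card G = p * q) (hn : ¬ IsCyclic G)
    {g : G} (hg : g ≠ 1) : orderOf g = p ∨ orderOf g = q := by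
  have h1 : orderOf g ∣ p * q := by
    rw [← hc]
    exact orderOf_dvd_natCard g
  obtain ⟨a, b, ha, hb, hab⟩ := Nat.dvd_mul.1 h1
  have hne1 : orderOf g ≠ 1 := fun h => hg (orderOf_eq_one_iff.1 h)
  have hne : orderOf g ≠ Nat.card G := fun h => hn (isCyclic_of_orderOf_eq_card g h)
  rcases (Nat.dvd_prime hp).1 ha with rfl | rfl
  · rcases (Nat.dvd_prime hq).1 hb with rfl | rfl
    · exact absurd (by rw [← hab]) hne1
    · right
      rw [← hab, one_mul]
  · rcases (Nat.dvd_prime hq).1 hb with rfl | rfl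
    · left
      rw [← hab, mul_one]
    · exact absurd (by rw [hc, ← hab]) hne

theorem card_cases (hp : p.Prime) (hq : q.Prime) (hc : Nat.card G = p * q) {B : Subgroup G}
    (hB : B ≠ ⊥) (hB' : B ≠ ⊤) : Nat.card B = p ∨ Nat.card B = q := by
  have h1 : Nat.card B ∣ p * q := by
    rw [← hc]
    exact Subgroup.card_subgroup_dvd_card B
  obtain ⟨a, b, ha, hb, hab⟩ := Nat.dvd_mul.1 h1
  have hne1 : Nat.card B ≠ 1 := fun h => hB ((Subgroup.card_eq_one).1 h)
  have hne : Nat.card B ≠ Nat.card G := fun h => hB' ((Subgroup.card_eq_iff_eq_top B).1 h)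
  rcases (Nat.dvd_prime hp).1 ha with rfl | rfl
  · rcases (Nat.dvd_prime hq).1 hb with rfl | rfl
    · exact absurd (by rw [← hab]) hne1
    · right
      rw [← hab, one_mul]
  · rcases (Nat.dvd_prime hq).1 hb with rfl | rfl
    · left
      rw [← hab, mul_one]
    · exact absurd (by rw [hc, ← hab]) hne

theorem zpowers_ne_bot {g : G} (hg : g ≠ 1) : Subgroup.zpowers g ≠ ⊥ := fun h => hg (by
  have h1 : g ∈ (⊥ : Subgroup G) := h ▸ Subgroup.mem_zpowers g
  exact Subgroup.mem_bot.1 h1)

theorem zpowers_ne_top (hn : ¬ IsCyclic G) (g : G) : Subgroup.zpowers g ≠ ⊤ := fun h =>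
  hn ⟨g, fun x => by
    have h1 : x ∈ (⊤ : Subgroup G) := Subgroup.mem_top x
    rw [← h] at h1
    exact h1⟩

/-- the proper subgroup containing an element -/
theorem unique_sub (hp : p.Prime) (hq : q.Prime) (hc : Nat.card G = p * q) {g : G} (hg : g ≠ 1)
    {B : Subgroup G} (hgB : g ∈ B) (hB' : B ≠ ⊤) : B = Subgroup.zpowers g := by
  have hB : B ≠ ⊥ := fun h => hg (by rw [h] at hgB; exact Subgroup.mem_bot.1 hgB)
  have hle : Subgroup.zpowers g ≤ B := (Subgroup.zpowers_le).2 hgB
  have hpr : (Nat.card B).Prime := by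
    rcases card_cases hp hq hc hB hB' with h | h
    · rwa [h]
    · rwa [h]
  have h1 : Nat.card (Subgroup.zpowers g) ∣ Nat.card B := Subgroup.card_dvd_of_le hle
  rcases (Nat.dvd_prime hpr).1 h1 with h | h
  · exact absurd ((Subgroup.card_eq_one).1 h) (zpowers_ne_bot hg)
  · exact (Subgroup.eq_of_le_of_card_ge hle h.ge).symm

variable [Fintype (Subgroup G)]

/-- the proper nontrivial subgroups -/
noncomputable def mid (G : Type) [Group G] [Fintype (Subgroup G)] : Finset (Subgroup G) :=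
  Finset.univ.filter fun B => B ≠ ⊥ ∧ B ≠ ⊤

theorem count_mid (hp : p.Prime) (hq : q.Prime) (hc : Nat.card G = p * q) (hn : ¬ IsCyclic G)
    {g : G} (hg : g ≠ 1) : ((mid G).filter fun B => g ∈ B) = {Subgroup.zpowers g} := by
  ext B
  rw [Finset.mem_filter, mid, Finset.mem_filter, Finset.mem_singleton]
  constructor
  · rintro ⟨⟨-, -, h2⟩, h3⟩
    exact unique_sub hp hq hc hg h3 h2
  · rintro rfl
    exact ⟨⟨Finset.mem_univ _, zpowers_ne_bot hg, zpowers_ne_top hn g⟩, Subgroup.mem_zpowers g⟩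

theorem two_le_mid (hp : p.Prime) (hq : q.Prime) (hc : Nat.card G = p * q) (hn : ¬ IsCyclic G) :
    2 ≤ (mid G).card := by
  have h1 : 1 < Nat.card G := by
    rw [hc]
    exact Nat.one_lt_mul_iff.2 ⟨hp.pos, hq.pos, Or.inl hp.one_lt⟩
  have hnt : Nontrivial G := (Finite.one_lt_card_iff_nontrivial).1 h1
  obtain ⟨g, hg⟩ := exists_ne (1 : G)
  obtain ⟨h, hh⟩ : ∃ h : G, h ∉ Subgroup.zpowers g := by
    by_contra hcon
    have hcon := not_exists_not.1 hcon
    exact zpowers_ne_top hn g ((Subgroup.eq_top_iff' _).2 hcon)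
  have hh1 : h ≠ 1 := fun h' => hh (by rw [h']; exact Subgroup.one_mem _)
  have hne : Subgroup.zpowers g ≠ Subgroup.zpowers h := fun h' => hh (by
    rw [h']
    exact Subgroup.mem_zpowers h)
  have h2 : ({Subgroup.zpowers g, Subgroup.zpowers h} : Finset (Subgroup G)) ⊆ mid G := by
    intro B hB
    rw [Finset.mem_insert, Finset.mem_singleton] at hB
    rw [mid, Finset.mem_filter]
    rcases hB with rfl | rfl
    · exact ⟨Finset.mem_univ _, zpowers_ne_bot hg, zpowers_ne_top hn g⟩
    · exact ⟨Finset.mem_univ _, zpowers_ne_bot hh1, zpowers_ne_top hn h⟩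
  have h3 := Finset.card_le_card h2
  rwa [Finset.card_pair hne] at h3

/-- the function of the identity as a combination of the functions of nontrivial subgroups -/
def Spans (𝓗 : Subgroup G → Prop) : Prop :=
  ∃ c : Subgroup G → ℚ, (∀ B, c B ≠ 0 → 𝓗 B) ∧
    ∀ g : G, ∑ B, (if g ∈ B then c B else 0) = if g = 1 then 1 else 0

theorem spans_pq (hp : p.Prime) (hq : q.Prime) (hc : Nat.card G = p * q) (hn : ¬ IsCyclic G) :
    Spans (G := G) fun B => B ≠ ⊥ := by
  have hm := two_le_mid hp hq hc hn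
  set m := (mid G).card with hmd
  have hm0 : ((m : ℚ) - 1) ≠ 0 := by
    have : (2 : ℚ) ≤ m := by exact_mod_cast hm
    linarith
  have hnt : (⊥ : Subgroup G) ≠ ⊤ := fun h => by
    have h1 : 0 < (mid G).card := by omega
    obtain ⟨B, hB⟩ := Finset.card_pos.1 h1
    rw [mid, Finset.mem_filter] at hB
    exact hB.2.1 (le_antisymm (h ▸ le_top) bot_le)
  refine ⟨fun B => (if B ∈ mid G then ((m : ℚ) - 1)⁻¹ else 0) -
    (if B = ⊤ then ((m : ℚ) - 1)⁻¹ else 0), fun B hB h => ?_, fun g => ?_⟩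
  · subst h
    apply hB
    change (if (⊥ : Subgroup G) ∈ mid G then ((m : ℚ) - 1)⁻¹ else 0) -
      (if (⊥ : Subgroup G) = ⊤ then ((m : ℚ) - 1)⁻¹ else 0) = 0
    rw [if_neg hnt, if_neg, sub_zero]
    rw [mid, Finset.mem_filter]
    exact fun h => h.2.1 rfl
  · have h1 : ∀ B : Subgroup G, (if g ∈ B then ((if B ∈ mid G then ((m : ℚ) - 1)⁻¹ else 0) -
        (if B = ⊤ then ((m : ℚ) - 1)⁻¹ else 0)) else 0) =
        (if B ∈ (mid G).filter (fun B => g ∈ B) then ((m : ℚ) - 1)⁻¹ else 0) -
        (if B = ⊤ then ((m : ℚ) - 1)⁻¹ else 0) := by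
      intro B
      by_cases hgB : g ∈ B
      · rw [if_pos hgB]
        congr 1
        by_cases hB : B ∈ mid G
        · rw [if_pos hB, if_pos (Finset.mem_filter.2 ⟨hB, hgB⟩)]
        · rw [if_neg hB, if_neg fun h => hB (Finset.mem_filter.1 h).1]
      · have hBf : B ∉ (mid G).filter (fun B => g ∈ B) := fun h => hgB (Finset.mem_filter.1 h).2
        have hBt : B ≠ ⊤ := by
          rintro rfl
          exact hgB (Subgroup.mem_top g)
        rw [if_neg hgB, if_neg hBf, if_neg hBt, sub_zero]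
    rw [Finset.sum_congr rfl fun B _ => h1 B, Finset.sum_sub_distrib, Finset.sum_ite_mem,
      Finset.univ_inter, Finset.sum_const, Finset.sum_ite_eq' Finset.univ ⊤, if_pos (Finset.mem_univ _)]
    by_cases hg : g = 1
    · subst hg
      have h2 : (mid G).filter (fun B => (1 : G) ∈ B) = mid G :=
        Finset.filter_true_of_mem fun B _ => Subgroup.one_mem B
      rw [h2, if_pos rfl, ← hmd, nsmul_eq_mul]
      field_simp
    · rw [count_mid hp hq hc hn hg, Finset.card_singleton, if_neg hg, one_smul, sub_self]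

/-- the fixed points for a normal subgroup -/
theorem fq_normal (B : Subgroup G) [hB : B.Normal] (g : G) :
    fq B g = if g ∈ B then (B.index : ℤ) else 0 := by
  have h0 : ((Nat.card B : ℕ) : ℤ) ≠ 0 := by exact_mod_cast Nat.card_pos.ne'
  refine mul_left_cancel₀ h0 ?_
  rw [card_fq]
  have h1 : ∀ x : G, x⁻¹ * g * x ∈ B ↔ g ∈ B := by
    intro x
    constructor
    · intro h
      have h2 := hB.conj_mem _ h x
      have h3 : x * (x⁻¹ * g * x) * x⁻¹ = g := by group
      rwa [h3] at h2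
    · intro h
      have h2 := hB.conj_mem _ h x⁻¹
      rwa [inv_inv] at h2
  by_cases hg : g ∈ B
  · rw [if_pos hg, ← Nat.cast_mul, Subgroup.card_mul_index]
    congr 1
    exact Nat.card_congr ((Equiv.subtypeUnivEquiv fun x => (h1 x).2 hg))
  · rw [if_neg hg, mul_zero]
    have h2 : IsEmpty {x : G // x⁻¹ * g * x ∈ B} := ⟨fun x => hg ((h1 x.1).1 x.2)⟩
    rw [Nat.card_of_isEmpty, Nat.cast_zero]

theorem fq_top (g : G) : fq (⊤ : Subgroup G) g = 1 := by
  rw [fq_normal, if_pos (Subgroup.mem_top g), Subgroup.index_top, Nat.cast_one]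

theorem fq_bot (g : G) : fq (⊥ : Subgroup G) g = if g = 1 then (Nat.card G : ℤ) else 0 := by
  rw [fq_normal, Subgroup.index_bot]
  by_cases hg : g = 1
  · rw [if_pos hg, if_pos (Subgroup.mem_bot.2 hg)]
  · rw [if_neg hg, if_neg fun h => hg (Subgroup.mem_bot.1 h)]

/-- the sum of the numbers of fixed points -/
theorem sum_fq (B : Subgroup G) : ∑ g : G, fq B g = (Nat.card G : ℤ) := by
  have h0 : ((Nat.card B : ℕ) : ℤ) ≠ 0 := by exact_mod_cast Nat.card_pos.ne'
  refine mul_left_cancel₀ h0 ?_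
  rw [Finset.mul_sum, Finset.sum_congr rfl fun g _ => card_fq B g]
  have h1 : ∀ g : G, (Nat.card {x : G // x⁻¹ * g * x ∈ B} : ℤ) =
      ∑ x : G, if x⁻¹ * g * x ∈ B then 1 else 0 := by
    intro g
    rw [Nat.card_eq_fintype_card, Fintype.card_subtype, Finset.sum_boole]
  rw [Finset.sum_congr rfl fun g _ => h1 g, Finset.sum_comm]
  have h2 : ∀ x : G, ∑ g : G, (if x⁻¹ * g * x ∈ B then (1 : ℤ) else 0) = Nat.card B := by
    intro x
    rw [← Equiv.sum_comp (MulAut.conj x).toEquiv (fun g => if x⁻¹ * g * x ∈ B then (1 : ℤ) else 0)]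
    have h3 : ∀ g : G, x⁻¹ * ((MulAut.conj x).toEquiv g) * x = g := by
      intro g
      change x⁻¹ * (x * g * x⁻¹) * x = g
      group
    rw [Finset.sum_congr rfl fun g _ => by rw [h3 g], Finset.sum_boole, Nat.card_eq_fintype_card,
      Fintype.card_subtype]
  rw [Finset.sum_congr rfl fun x _ => h2 x, Finset.sum_const, Finset.card_univ, nsmul_eq_mul,
    ← Nat.card_eq_fintype_card, mul_comm]

theorem rel_pp (hp : p.Prime) (hc : Nat.card G = p * p) (hn : ¬ IsCyclic G) :
    Cmb (fun B : Subgroup G => B ≠ ⊥) (fq ⊥) := by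
  have hnt : (⊥ : Subgroup G) ≠ ⊤ := fun h => by
    have h1 : 0 < (mid G).card := by
      have := two_le_mid hp hp hc hn
      omega
    obtain ⟨B, hB⟩ := Finset.card_pos.1 h1
    rw [mid, Finset.mem_filter] at hB
    exact hB.2.1 (le_antisymm (h ▸ le_top) bot_le)
  have hcard : ∀ B ∈ mid G, Nat.card B = p := by
    intro B hB
    rw [mid, Finset.mem_filter] at hB
    rcases card_cases hp hp hc hB.2.1 hB.2.2 with h | h <;> exact h
  have hind : ∀ B ∈ mid G, B.index = p := by
    intro B hB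
    have h1 := Subgroup.card_mul_index B
    rw [hcard B hB, hc] at h1
    exact Nat.eq_of_mul_eq_mul_left hp.pos h1
  have hnor : ∀ B ∈ mid G, B.Normal := by
    intro B hB
    apply Subgroup.normal_of_index_eq_minFac_card
    rw [hind B hB, hc, ← pow_two, hp.pow_minFac (by norm_num)]
  have hfq : ∀ B ∈ mid G, ∀ g, fq B g = if g ∈ B then (p : ℤ) else 0 := by
    intro B hB g
    have := hnor B hB
    rw [fq_normal, hind B hB]
  -- the number of the subgroups
  have hm : ((mid G).card : ℤ) * (p - 1) = p * p - 1 := by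
    have h1 : ∑ B ∈ mid G, ∑ g : G, (if g ∈ B then (1 : ℤ) else 0) =
        ∑ g : G, ∑ B ∈ mid G, (if g ∈ B then (1 : ℤ) else 0) := Finset.sum_comm
    have h2 : ∀ B ∈ mid G, ∑ g : G, (if g ∈ B then (1 : ℤ) else 0) = p := by
      intro B hB
      rw [Finset.sum_boole, ← hcard B hB, Nat.card_eq_fintype_card, Fintype.card_subtype]
    have h3 : ∀ g : G, ∑ B ∈ mid G, (if g ∈ B then (1 : ℤ) else 0) =
        1 + (if g = 1 then ((mid G).card : ℤ) - 1 else 0) := by
      intro g
      rw [Finset.sum_boole]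
      by_cases hg : g = 1
      · subst hg
        rw [if_pos rfl, Finset.filter_true_of_mem fun B _ => Subgroup.one_mem B]
        ring
      · rw [if_neg hg, count_mid hp hp hc hn hg, Finset.card_singleton]
        rfl
    rw [Finset.sum_congr rfl h2, Finset.sum_congr rfl fun g _ => h3 g, Finset.sum_const,
      Finset.sum_add_distrib, Finset.sum_const, Finset.card_univ, Finset.sum_ite_eq',
      if_pos (Finset.mem_univ _), ← Nat.card_eq_fintype_card, hc] at h1
    simp only [nsmul_eq_mul, mul_one] at h1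
    push_cast at h1
    linarith
  have hm' : ((mid G).card : ℤ) = p + 1 := by
    have h1 : ((p : ℤ) - 1) ≠ 0 := by
      have := hp.two_le
      have : (2 : ℤ) ≤ p := by exact_mod_cast this
      linarith
    refine mul_right_cancel₀ h1 ?_
    rw [hm]
    ring
  have key : Cmb (fun B : Subgroup G => B ≠ ⊥) (fun g => (∑ B ∈ mid G, fq B g) +
      (-(p : ℤ)) * fq ⊤ g) := by
    refine Cmb.add (Cmb.sum _ fun B hB => Cmb.of (𝓗 := fun B : Subgroup G => B ≠ ⊥) ?_)
      ((Cmb.of (𝓗 := fun B : Subgroup G => B ≠ ⊥) (B := ⊤) hnt.symm).smul _)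
    rw [mid, Finset.mem_filter] at hB
    exact hB.2.1
  have h1 : (fun g => (∑ B ∈ mid G, fq B g) + (-(p : ℤ)) * fq (⊤ : Subgroup G) g) = fq ⊥ := by
    funext g
    rw [fq_top, fq_bot, Finset.sum_congr rfl fun B hB => hfq B hB g]
    have h2 : ∑ B ∈ mid G, (if g ∈ B then (p : ℤ) else 0) =
        p * ((mid G).filter fun B => g ∈ B).card := by
      rw [← Finset.sum_filter, Finset.sum_const, nsmul_eq_mul, mul_comm]
    rw [h2]
    by_cases hg : g = 1
    · subst hg
      rw [if_pos rfl, Finset.filter_true_of_mem fun B _ => Subgroup.one_mem B, hm', hc]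
      push_cast
      ring
    · rw [if_neg hg, count_mid hp hp hc hn hg, Finset.card_singleton]
      push_cast
      ring
  rwa [h1] at key

theorem rel_lt (hp : p.Prime) (hq : q.Prime) (hlt : q < p) (hc : Nat.card G = p * q)
    (hn : ¬ IsCyclic G) : Cmb (fun B : Subgroup G => B ≠ ⊥) (fq ⊥) := by
  have := Fact.mk hp
  have := Fact.mk hq
  obtain ⟨x, hx⟩ := exists_prime_orderOf_dvd_card' (G := G) p (by rw [hc]; exact dvd_mul_right _ _)
  obtain ⟨y, hy⟩ := exists_prime_orderOf_dvd_card' (G := G) q (by rw [hc]; exact dvd_mul_left _ _)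
  set P := Subgroup.zpowers x with hP
  set Q := Subgroup.zpowers y with hQ
  have hPc : Nat.card P = p := by rw [hP, Nat.card_zpowers, hx]
  have hQc : Nat.card Q = q := by rw [hQ, Nat.card_zpowers, hy]
  have hPi : P.index = q := by
    have h1 := Subgroup.card_mul_index P
    rw [hPc, hc] at h1
    exact Nat.eq_of_mul_eq_mul_left hp.pos h1
  have hQi : Q.index = p := by
    have h1 := Subgroup.card_mul_index Q
    rw [hQc, hc, mul_comm p] at h1
    exact Nat.eq_of_mul_eq_mul_left hq.pos h1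
  have hmin : (p * q).minFac = q := by
    apply le_antisymm (Nat.minFac_le_of_dvd hq.two_le (dvd_mul_left _ _))
    have h1 : (p * q).minFac ∣ p * q := Nat.minFac_dvd _
    have h2 : (p * q).minFac.Prime := Nat.minFac_prime (by
      intro h
      exact hp.one_lt.ne' (Nat.eq_one_of_mul_eq_one_right h))
    rcases (h2.dvd_mul).1 h1 with h | h
    · rw [(Nat.prime_dvd_prime_iff_eq h2 hp).1 h]
      exact hlt.le
    · exact ((Nat.prime_dvd_prime_iff_eq h2 hq).1 h).ge
  have hPn : P.Normal := by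
    apply Subgroup.normal_of_index_eq_minFac_card
    rw [hPi, hc, hmin]
  -- the elements outside P
  have hout : ∀ g : G, g ∉ P → orderOf g = q := by
    intro g hg
    have hg1 : g ≠ 1 := fun h => hg (by rw [h]; exact Subgroup.one_mem _)
    rcases order_cases hp hq hc hn hg1 with h | h
    · exfalso
      have h1 : ((g : G ⧸ P)) ^ p = 1 := by
        rw [← QuotientGroup.mk_pow, ← h, pow_orderOf_eq_one]
        rfl
      have h2 : ((g : G ⧸ P)) ^ q = 1 := by
        have h3 : Nat.card (G ⧸ P) = q := hPi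
        rw [← h3]
        exact pow_card_eq_one'
      have h3 : orderOf (g : G ⧸ P) ∣ Nat.gcd p q :=
        Nat.dvd_gcd (orderOf_dvd_of_pow_eq_one h1) (orderOf_dvd_of_pow_eq_one h2)
      have h4 : Nat.gcd p q = 1 := (Nat.coprime_primes hp hq).2 hlt.ne'
      rw [h4, Nat.dvd_one, orderOf_eq_one_iff] at h3
      exact hg ((QuotientGroup.eq_one_iff g).1 h3)
    · exact h
  have hPbot : P ≠ ⊥ := fun h => hp.one_lt.ne' (by rw [← hPc, h]; exact Subgroup.card_bot)
  have hQbot : Q ≠ ⊥ := fun h => hq.one_lt.ne' (by rw [← hQc, h]; exact Subgroup.card_bot)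
  have htop : (⊤ : Subgroup G) ≠ ⊥ := fun h => hPbot (le_antisymm (h ▸ le_top) bot_le)
  -- the fixed points for Q
  have hQ1 : fq Q 1 = p := by
    have h0 : ((Nat.card Q : ℕ) : ℤ) ≠ 0 := by exact_mod_cast Nat.card_pos.ne'
    refine mul_left_cancel₀ h0 ?_
    rw [card_fq]
    have h1 : Nat.card {x : G // x⁻¹ * 1 * x ∈ Q} = Nat.card G :=
      Nat.card_congr (Equiv.subtypeUnivEquiv fun x => by
        have : x⁻¹ * 1 * x = 1 := by group
        rw [this]
        exact Subgroup.one_mem _)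
    rw [h1, hc, hQc]
    push_cast
    ring
  have hQP : ∀ g ∈ P, g ≠ 1 → fq Q g = 0 := by
    intro g hg hg1
    have h0 : ((Nat.card Q : ℕ) : ℤ) ≠ 0 := by exact_mod_cast Nat.card_pos.ne'
    refine mul_left_cancel₀ h0 ?_
    rw [card_fq, mul_zero]
    have h2 : IsEmpty {x : G // x⁻¹ * g * x ∈ Q} := by
      refine ⟨fun z => ?_⟩
      obtain ⟨z, hz⟩ := z
      have h3 : z⁻¹ * g * z ∈ P := by
        have h4 := hPn.conj_mem _ hg z⁻¹
        rwa [inv_inv] at h4
      have h4 : z⁻¹ * g * z ≠ 1 := by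
        intro h
        apply hg1
        have : g = z * (z⁻¹ * g * z) * z⁻¹ := by group
        rw [this, h]
        group
      have h5 : orderOf (z⁻¹ * g * z) ∣ p := by
        rw [← hPc]
        exact Subgroup.orderOf_dvd_natCard P h3
      have h6 : orderOf (z⁻¹ * g * z) ∣ q := by
        rw [← hQc]
        exact Subgroup.orderOf_dvd_natCard Q hz
      have h7 : orderOf (z⁻¹ * g * z) ∣ Nat.gcd p q := Nat.dvd_gcd h5 h6
      rw [(Nat.coprime_primes hp hq).2 hlt.ne', Nat.dvd_one, orderOf_eq_one_iff] at h7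
      exact h4 h7
    rw [Nat.card_of_isEmpty, Nat.cast_zero]
  have hQge : ∀ g, g ∉ P → 1 ≤ fq Q g := by
    intro g hg
    have hpg : IsPGroup q (Subgroup.zpowers g) := by
      refine IsPGroup.of_card (n := 1) ?_
      rw [Nat.card_zpowers, hout g hg, pow_one]
    have hnd : ¬ q ∣ Nat.card (G ⧸ Q) := by
      have h1 : Nat.card (G ⧸ Q) = p := hQi
      rw [h1]
      intro h
      exact hlt.ne ((Nat.prime_dvd_prime_iff_eq hq hp).1 h)
    obtain ⟨z, hz⟩ := hpg.nonempty_fixed_point_of_prime_not_dvd_card (G ⧸ Q) hnd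
    have h1 : g • z = z := hz ⟨g, Subgroup.mem_zpowers g⟩
    have h2 : Nonempty {x : G ⧸ Q // g • x = x} := ⟨⟨z, h1⟩⟩
    unfold fq
    have h3 : 0 < Nat.card {x : G ⧸ Q // g • x = x} := Nat.card_pos
    exact_mod_cast h3
  have hQout : ∀ g, g ∉ P → fq Q g = 1 := by
    have h1 := sum_fq Q
    have h2 : ∑ g : G, fq Q g = ∑ g ∈ Finset.univ.filter (fun g => g ∈ P), fq Q g +
        ∑ g ∈ Finset.univ.filter (fun g => ¬ g ∈ P), fq Q g :=
      (Finset.sum_filter_add_sum_filter_not _ _ _).symm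
    have h3 : ∑ g ∈ Finset.univ.filter (fun g => g ∈ P), fq Q g = p := by
      rw [Finset.sum_eq_single_of_mem 1 (by simp) (fun g hg hg1 =>
        hQP g (Finset.mem_filter.1 hg).2 hg1), hQ1]
    have hPcard : (Finset.univ.filter (fun g => g ∈ P)).card = p := by
      rw [← hPc, Nat.card_eq_fintype_card, Fintype.card_subtype]
    have h4 : ((Finset.univ.filter (fun g => ¬ g ∈ P)).card : ℤ) = p * q - p := by
      have h5 := Finset.card_filter_add_card_filter_not (s := (Finset.univ : Finset G))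
        (fun g => g ∈ P)
      rw [hPcard, Finset.card_univ, ← Nat.card_eq_fintype_card, hc] at h5
      have h6 : ((p : ℤ) + ((Finset.univ.filter (fun g => ¬ g ∈ P)).card : ℤ)) = p * q := by
        exact_mod_cast h5
      linarith
    have h5 : ∑ g ∈ Finset.univ.filter (fun g => ¬ g ∈ P), fq Q g =
        ∑ g ∈ Finset.univ.filter (fun g => ¬ g ∈ P), (1 : ℤ) := by
      rw [Finset.sum_const, nsmul_eq_mul, mul_one, h4]
      rw [h2, h3, hc] at h1
      push_cast at h1
      linarith
    have h6 := (Finset.sum_eq_sum_iff_of_le (s := Finset.univ.filter (fun g => ¬ g ∈ P))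
      (f := fun _ => (1 : ℤ)) (g := fun g => fq Q g) fun g hg => hQge g (Finset.mem_filter.1 hg).2).1
      h5.symm
    intro g hg
    exact (h6 g (Finset.mem_filter.2 ⟨Finset.mem_univ _, hg⟩)).symm
  have key : Cmb (fun B : Subgroup G => B ≠ ⊥) (fun g => (fq P g + (q : ℤ) * fq Q g) +
      (-(q : ℤ)) * fq ⊤ g) :=
    ((Cmb.of (𝓗 := fun B : Subgroup G => B ≠ ⊥) (B := P) hPbot).add
      ((Cmb.of (𝓗 := fun B : Subgroup G => B ≠ ⊥) (B := Q) hQbot).smul _)).add
      ((Cmb.of (𝓗 := fun B : Subgroup G => B ≠ ⊥) (B := ⊤) htop).smul _)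
  have h1 : (fun g => (fq P g + (q : ℤ) * fq Q g) + (-(q : ℤ)) * fq (⊤ : Subgroup G) g) = fq ⊥ := by
    funext g
    rw [fq_top, fq_bot, fq_normal P, hPi]
    by_cases hg : g ∈ P
    · rw [if_pos hg]
      by_cases hg1 : g = 1
      · subst hg1
        rw [if_pos rfl, hQ1, hc]
        push_cast
        ring
      · rw [if_neg hg1, hQP g hg hg1]
        ring
    · have hg1 : g ≠ 1 := fun h => hg (by rw [h]; exact Subgroup.one_mem _)
      rw [if_neg hg, if_neg hg1, hQout g hg]
      ring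
  rwa [h1] at key

/-- **The relation.** -/
theorem rel_pq (hp : p.Prime) (hq : q.Prime) (hc : Nat.card G = p * q) (hn : ¬ IsCyclic G) :
    Cmb (fun B : Subgroup G => B ≠ ⊥) (fq ⊥) := by
  rcases lt_trichotomy p q with h | h | h
  · exact rel_lt hq hp h (by rw [hc, mul_comm]) hn
  · subst h
    exact rel_pp hp hc hn
  · exact rel_lt hp hq h hc hn

end

end Pool.Agent.Q5.RG
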