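import Pool.Agent.H26.Lib.R_pool_sql_team_seeded_3997aac3.Q5.RG.Asc

/-! The ascent over a finite quotient group. -/

set_option autoImplicit false
set_option linter.unusedSectionVars false

namespace Pool.Agent.Q5.RG

open Module
open Pool.Agent.Q5.SO (fq Cmb)
open scoped Classical

section
variable {Γ G : Type} [Group Γ] [Group G] {t : Γ →* G} (ht : Function.Surjective t)
include ht

theorem fxc_comap (B : Subgroup G) (g : Γ) : (fxc (B.comap t) g : ℤ) = fq B (t g) := by
  unfold fq fxc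
  congr 1
  let f : Γ ⧸ B.comap t → G ⧸ B :=
    Quotient.lift (fun a : Γ => ((t a : G) : G ⧸ B)) (by
      intro a b hab
      have h1 : a⁻¹ * b ∈ B.comap t := QuotientGroup.leftRel_apply.1 hab
      rw [QuotientGroup.eq]
      have h2 : t (a⁻¹ * b) ∈ B := h1
      rwa [map_mul, map_inv] at h2)
  have hf : ∀ a : Γ, f (a : Γ ⧸ B.comap t) = ((t a : G) : G ⧸ B) := fun a => rfl
  have hinj : Function.Injective f := by
    intro x y h
    obtain ⟨a, rfl⟩ := QuotientGroup.mk_surjective x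
    obtain ⟨b, rfl⟩ := QuotientGroup.mk_surjective y
    rw [hf, hf, QuotientGroup.eq] at h
    rw [QuotientGroup.eq]
    change t (a⁻¹ * b) ∈ B
    rwa [map_mul, map_inv]
  have hsurj : Function.Surjective f := by
    intro x
    obtain ⟨y, rfl⟩ := QuotientGroup.mk_surjective x
    obtain ⟨a, rfl⟩ := ht y
    exact ⟨a, rfl⟩
  have hsm : ∀ x, f (g • x) = t g • f x := by
    intro x
    obtain ⟨a, rfl⟩ := QuotientGroup.mk_surjective x
    change ((t (g * a) : G) : G ⧸ B) = ((t g * t a : G) : G ⧸ B)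
    rw [map_mul]
  refine Nat.card_congr (Equiv.subtypeEquiv (Equiv.ofBijective f ⟨hinj, hsurj⟩) ?_)
  intro x
  change _ ↔ t g • f x = f x
  rw [← hsm]
  exact hinj.eq_iff.symm

variable {k V : Type} [Field k] [CharZero k] [AddCommGroup V] [Module k V]
  (ρ : Representation k Γ V) [Fintype G] [Fintype (Subgroup G)]

theorem inv_spans {𝓗 : Subgroup G → Prop} (h : Spans 𝓗) :
    inv ρ ((⊥ : Subgroup G).comap t) ≤ ⨆ B : {B // 𝓗 B}, inv ρ (B.1.comap t) := by
  obtain ⟨c, hc, hsum⟩ := h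
  choose s hs using ht
  intro v hv
  have hmv : ∀ γ γ' : Γ, t γ = t γ' → ρ γ v = ρ γ' v := by
    intro γ γ' h
    have h1 : γ'⁻¹ * γ ∈ (⊥ : Subgroup G).comap t := by
      change t (γ'⁻¹ * γ) ∈ (⊥ : Subgroup G)
      rw [Subgroup.mem_bot, map_mul, map_inv, h, inv_mul_cancel]
    have h2 := hv _ h1
    have h3 : ρ γ v = ρ γ' (ρ (γ'⁻¹ * γ) v) := by
      rw [← Module.End.mul_apply, ← map_mul, mul_inv_cancel_left]
    rw [h3, h2]
  have hinvB : ∀ B : Subgroup G, (∑ g : G, if g ∈ B then ρ (s g) v else 0) ∈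
      inv ρ (B.comap t) := by
    intro B γ hγ
    have hγ' : t γ ∈ B := hγ
    rw [map_sum]
    refine Fintype.sum_equiv (Equiv.mulLeft (t γ)) _ _ fun g => ?_
    change ρ γ (if g ∈ B then ρ (s g) v else 0) = if t γ * g ∈ B then ρ (s (t γ * g)) v else 0
    by_cases hg : g ∈ B
    · rw [if_pos hg, if_pos (B.mul_mem hγ' hg), ← Module.End.mul_apply, ← map_mul]
      refine hmv _ _ ?_
      rw [map_mul, hs, hs]
    · have h1 : t γ * g ∉ B := fun h => hg ((Subgroup.mul_mem_cancel_left B hγ').1 h)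
      rw [if_neg hg, if_neg h1, map_zero]
  have key : v = ∑ B : Subgroup G, (c B : k) • ∑ g : G, if g ∈ B then ρ (s g) v else 0 := by
    simp only [Finset.smul_sum]
    rw [Finset.sum_comm]
    have h1 : ∀ g : G, ∑ B : Subgroup G, (c B : k) • (if g ∈ B then ρ (s g) v else 0) =
        if g = 1 then v else 0 := by
      intro g
      have h2 : ∀ B : Subgroup G, (c B : k) • (if g ∈ B then ρ (s g) v else 0) =
          ((if g ∈ B then c B else 0 : ℚ) : k) • ρ (s g) v := by
        intro B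
        by_cases hg : g ∈ B
        · rw [if_pos hg, if_pos hg]
        · rw [if_neg hg, if_neg hg, Rat.cast_zero, zero_smul, smul_zero]
      rw [Finset.sum_congr rfl fun B _ => h2 B, ← Finset.sum_smul, ← Rat.cast_sum, hsum g]
      by_cases hg : g = 1
      · rw [if_pos hg, if_pos hg, Rat.cast_one, one_smul]
        have h3 := hmv (s g) 1 (by rw [hs, hg, map_one])
        rw [h3, map_one]
        rfl
      · rw [if_neg hg, if_neg hg, Rat.cast_zero, zero_smul]
    rw [Finset.sum_congr rfl fun g _ => h1 g, Finset.sum_ite_eq' Finset.univ 1,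
      if_pos (Finset.mem_univ _)]
  rw [key]
  refine Submodule.sum_mem _ fun B _ => ?_
  by_cases hB : c B = 0
  · rw [hB, Rat.cast_zero, zero_smul]
    exact Submodule.zero_mem _
  · exact Submodule.smul_mem _ _ (Submodule.mem_iSup_of_mem ⟨B, hc B hB⟩ (hinvB B))

end

section
variable {k R Γ G : Type} [Field k] [CharZero k] [Field R] [Algebra k R] [Group Γ] [Group G]
  [Fintype G] [Fintype (Subgroup G)] {t : Γ →* G} (ht : Function.Surjective t) {M : Datum k R Γ}
include ht

theorem ker_finiteIndex : ((⊥ : Subgroup G).comap t).FiniteIndex := by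
  have h1 : ((⊥ : Subgroup G).comap t) = t.ker := rfl
  rw [h1]
  refine ⟨?_⟩
  rw [Subgroup.index_ker]
  have h2 : t.range = ⊤ := MonoidHom.range_eq_top.2 ht
  rw [h2, Subgroup.card_top]
  exact Nat.card_pos.ne'

/-- the dimensions in a relation -/
theorem asc_dim {V : Type} [AddCommGroup V] [Module k V] (ρ : Representation k Γ V)
    [FiniteDimensional k (inv ρ ((⊥ : Subgroup G).comap t))] {ι : Type} [Fintype ι]
    {B : ι → Subgroup G} {n : ι → ℤ}
    (hn : ∀ g, fq (⊥ : Subgroup G) g = ∑ j, n j * fq (B j) g) :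
    (finrank k (inv ρ ((⊥ : Subgroup G).comap t)) : ℤ) =
      ∑ j, n j * (finrank k (inv ρ ((B j).comap t)) : ℤ) := by
  have hfi := ker_finiteIndex ht
  have hnor : ((⊥ : Subgroup G).comap t).Normal := Subgroup.normal_bot.comap t
  have h1 := dim_relN ρ (N := (⊥ : Subgroup G).comap t) (ι := Option ι)
    (Δ := fun o => (o.elim ⊥ B).comap t) (fun o => Subgroup.comap_mono bot_le)
    (n := fun o => o.elim (-1) n) (fun g => by
      rw [Fintype.sum_option]
      change (-1) * (fxc ((⊥ : Subgroup G).comap t) g : ℤ) +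
        ∑ j, n j * (fxc ((B j).comap t) g : ℤ) = 0
      rw [fxc_comap ht, hn (t g)]
      have h2 : ∑ j, n j * (fxc ((B j).comap t) g : ℤ) = ∑ j, n j * fq (B j) (t g) :=
        Finset.sum_congr rfl fun j _ => by rw [fxc_comap ht]
      rw [h2]
      ring)
  rw [Fintype.sum_option] at h1
  change (-1) * (finrank k (inv ρ ((⊥ : Subgroup G).comap t)) : ℤ) +
    ∑ j, n j * (finrank k (inv ρ ((B j).comap t)) : ℤ) = 0 at h1
  linarith

/-- **The ascent over a finite quotient.** -/
theorem asc_group (hB : IndepB M) (hg : ∀ B : Subgroup G, GoodAt M (B.comap t))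
    {𝓗 : Subgroup G → Prop} (hsp : Spans 𝓗) {ι : Type} [Fintype ι] {B : ι → Subgroup G} {n : ι → ℤ}
    (hn : ∀ g, fq (⊥ : Subgroup G) g = ∑ j, n j * fq (B j) g) (hBj : ∀ j, 𝓗 (B j))
    (hreg : ∀ B, 𝓗 B → ∃ c, IsReg M (B.comap t) c) :
    ∃ c, IsReg M ((⊥ : Subgroup G).comap t) c := by
  have hR : CharZero R := charZero_of_injective_algebraMap (algebraMap k R).injective
  refine reg_asc hB (hg ⊥) (ι := {B // 𝓗 B}) (Δ := fun B => B.1.comap t)
    (fun B => Subgroup.comap_mono bot_le) (fun B => hg B.1) (fun B => hreg B.1 B.2)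
    (inv_spans ht M.ρV hsp) (inv_spans ht M.ρΦ hsp) (inv_spans ht M.ρU hsp) ?_
  intro h1 h2
  have h3 := (hg ⊥).fin
  have hV := asc_dim ht M.ρV hn
  have hΦ := asc_dim ht M.ρΦ hn
  have hBB := asc_dim ht M.ρB hn
  have h4 : ∀ j, n j * (finrank k (inv M.ρV ((B j).comap t)) : ℤ) +
      n j * (finrank k (inv M.ρΦ ((B j).comap t)) : ℤ) =
      n j * (finrank k (inv M.ρB ((B j).comap t)) : ℤ) := by
    intro j
    obtain ⟨c, -, p, q, a, f, b, -⟩ := hreg (B j) (hBj j)
    rw [finrank_eq_card_basis a, finrank_eq_card_basis f, finrank_eq_card_basis b,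
      Fintype.card_sum]
    push_cast
    ring
  have h5 : (finrank k (inv M.ρV ((⊥ : Subgroup G).comap t)) : ℤ) +
      finrank k (inv M.ρΦ ((⊥ : Subgroup G).comap t)) =
      finrank k (inv M.ρB ((⊥ : Subgroup G).comap t)) := by
    rw [hV, hΦ, hBB, ← Finset.sum_add_distrib]
    exact Finset.sum_congr rfl fun j _ => h4 j
  exact_mod_cast h5

/-- the regulators -/
theorem asc_reg (hB : IndepB M) (hg : ∀ B : Subgroup G, GoodAt M (B.comap t))
    {ι : Type} [Fintype ι] {B : ι → Subgroup G} {n : ι → ℤ}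
    (hn : ∀ g, fq (⊥ : Subgroup G) g = ∑ j, n j * fq (B j) g) {c₀ : R}
    (h0 : IsReg M ((⊥ : Subgroup G).comap t) c₀) {c : ι → R}
    (hc : ∀ j, IsReg M ((B j).comap t) (c j)) :
    ∃ q : k, q ≠ 0 ∧ c₀⁻¹ * ∏ j, (c j) ^ (n j) = algebraMap k R q := by
  have hfi := ker_finiteIndex ht
  have hnor : ((⊥ : Subgroup G).comap t).Normal := Subgroup.normal_bot.comap t
  obtain ⟨q, hq, h1⟩ := datum_rel hB h0 (hg ⊥).deR (ι := Option ι)
    (Δ := fun o => (o.elim ⊥ B).comap t) (fun o => Subgroup.comap_mono bot_le)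
    (fun o => (hg (o.elim ⊥ B)).deR) (n := fun o => o.elim (-1) n) (fun g => by
      rw [Fintype.sum_option]
      change (-1) * (fxc ((⊥ : Subgroup G).comap t) g : ℤ) +
        ∑ j, n j * (fxc ((B j).comap t) g : ℤ) = 0
      rw [fxc_comap ht, hn (t g)]
      have h2 : ∑ j, n j * (fxc ((B j).comap t) g : ℤ) = ∑ j, n j * fq (B j) (t g) :=
        Finset.sum_congr rfl fun j _ => by rw [fxc_comap ht]
      rw [h2]
      ring) (c := fun o => o.elim c₀ c) (by
      rintro (_ | j)
      · exact h0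
      · exact hc j)
  refine ⟨q, hq, ?_⟩
  rw [Fintype.prod_option] at h1
  change c₀ ^ (-1 : ℤ) * ∏ j, (c j) ^ (n j) = _ at h1
  rwa [zpow_neg_one] at h1

end

end Pool.Agent.Q5.RG
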