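import Pool.Agent.H26.Lib.R_pool_sql_team_seeded_3997aac3.Q5.RG.LV

/-! The laws for regulators, orders and leading coefficients, with the continuation. -/

set_option autoImplicit false
set_option linter.unusedSectionVars false

namespace Pool.Agent.Q5.RG

open Module NumberField IsDedekindDomain Filter Topology Polynomial Pool.Agent.W353.NF
  Pool.Agent.W401.Cheb Pool.Agent.Q5.BR Pool.Agent.Q5.VL
open Pool.Agent.W353.EF (IsFrobenius LFun cone)
open scoped Classical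

section
variable {K : Type} [Field K] [NumberField K] {V : Type} [AddCommGroup V] [Module ℚ V]
  (ρ : Representation ℚ (GK K) V)

/-- the dimensions in a relation inside a normal extension -/
theorem rank_in {ι : Type} [Fintype ι] {X : ι → Ext K} {n : ι → ℤ}
    (h : ∀ σ : GK K, ∑ j, n j * (fixn K (X j).F σ : ℤ) = 0)
    (N : IntermediateField K (AlgebraicClosure K)) [hfd : FiniteDimensional K N] [hnor : Normal K N]
    [hVN : FiniteDimensional ℚ (fixV ρ N.val)]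
    (hle : ∀ j, ∀ i : (X j).F →ₐ[K] AlgebraicClosure K, i.fieldRange ≤ N) :
    ∑ j, n j * (rk ρ (X j).F : ℤ) = 0 := by
  classical
  have hcard : ∀ j, Nat.card ((X j).F →ₐ[K] N) = Module.finrank K (X j).F := by
    intro j
    rw [Nat.card_congr (embEquiv (X j).F N (hle j)), Nat.card_eq_fintype_card, AlgHom.card]
  have hr := fun j => rank_sum ρ (N := N) (F := (X j).F) (hcard j)
  have hfix : ∀ g : N ≃ₐ[K] N, ∑ j, (n j : ℚ) *
      (Nat.card {i : (X j).F →ₐ[K] N // (g : N →ₐ[K] N).comp i = i} : ℚ) = 0 := by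
    intro g
    obtain ⟨σ, rfl⟩ := AlgEquiv.restrictNormalHom_surjective (AlgebraicClosure K) (K₁ := N) g
    have h1 := congrArg (fun z : ℤ => (z : ℚ)) (h σ)
    push_cast at h1
    rw [← h1]
    refine Finset.sum_congr rfl fun j _ => ?_
    rw [← card_fixed (X j).F N (hle j) σ]
    rfl
  have hG : (Nat.card (N ≃ₐ[K] N) : ℚ) ≠ 0 := by exact_mod_cast Nat.card_pos.ne'
  have key : (Nat.card (N ≃ₐ[K] N) : ℚ) * ∑ j, (n j : ℚ) * (rk ρ (X j).F : ℚ) = 0 := by
    have h1 : ∀ j, (Nat.card (N ≃ₐ[K] N) : ℚ) * ((n j : ℚ) * (rk ρ (X j).F : ℚ)) =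
        ∑ g : N ≃ₐ[K] N, (n j : ℚ) * ((repN ρ N).character g *
          (Nat.card {i : (X j).F →ₐ[K] N // (g : N →ₐ[K] N).comp i = i} : ℚ)) := by
      intro j
      rw [mul_left_comm, hr j, Finset.mul_sum]
    rw [Finset.mul_sum, Finset.sum_congr rfl fun j _ => h1 j, Finset.sum_comm]
    refine Finset.sum_eq_zero fun g _ => ?_
    have h2 : ∑ j, (n j : ℚ) * ((repN ρ N).character g *
        (Nat.card {i : (X j).F →ₐ[K] N // (g : N →ₐ[K] N).comp i = i} : ℚ)) =
        (repN ρ N).character g * ∑ j, (n j : ℚ) *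
          (Nat.card {i : (X j).F →ₐ[K] N // (g : N →ₐ[K] N).comp i = i} : ℚ) := by
      rw [Finset.mul_sum]
      exact Finset.sum_congr rfl fun j _ => by ring
    rw [h2, hfix g, mul_zero]
  have h2 := (mul_eq_zero.1 key).resolve_left hG
  exact_mod_cast h2

theorem fixV_eq {F : Type} [Field F] [Algebra K F] (i : F →ₐ[K] AlgebraicClosure K) :
    fixV ρ i = inv ρ (stabE i) := by
  ext v
  constructor
  · intro h σ hσ
    exact h σ (AlgHom.ext hσ)
  · intro h σ hσ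
    exact h σ fun x => DFunLike.congr_fun hσ x

end

section
variable {K : Type} [Field K] [NumberField K] (M : Datum ℚ ℝ (GK K))

/-- the dimension of motivic cohomology over `F` -/
noncomputable def rkV (F : Type) [Field F] [NumberField F] [Algebra K F] : ℕ := rk M.ρV F

variable {M}

theorem isReg_fin {Δ : Subgroup (GK K)} {c : ℝ} (h : IsReg M Δ c) :
    FiniteDimensional ℚ (inv M.ρV Δ) := by
  obtain ⟨-, p, q, a, -⟩ := h
  exact Module.Finite.of_basis a

theorem reg_fin {N : IntermediateField K (AlgebraicClosure K)} [Normal K N] {c₀ : ℝ}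
    (hN : Reg M N c₀) : FiniteDimensional ℚ (fixV M.ρV N.val) := by
  obtain ⟨i, hi⟩ := hN
  have h1 := isReg_fin hi
  rwa [fixV_eq, ← stabE_eq i]

end

section
variable {K : Type} [Field K] [NumberField K] {n : ℕ} (X : Set (MvPolynomial (Fin n) (𝓞 K)))
  (d i N : ℕ) (m : ℤ)

/-- `B` is a system of Euler polynomials of `H^i(X_F)` with rational coefficients, no factor of which
has a pole at `m`; at finitely many places the polynomials are arbitrary -/
def Sys (F : Type) [Field F] [NumberField F] [Algebra K F]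
    (B : HeightOneSpectrum (𝓞 F) → ℚ[X]) : Prop :=
  IsSys X d i N (mp B) ∧ ∀ v, (B v).eval ((Ideal.absNorm v.asIdeal : ℚ) ^ (-m)) ≠ 0

variable {X d i N m}

/-- the finite part is rational -/
theorem RF_rat' {ι : Type} [Fintype ι] {F : Type} [Field F] [NumberField F] {Y : ι → Ext F}
    (a : ι → ℤ) (e : ℤ) {B₀ : HeightOneSpectrum (𝓞 F) → ℚ[X]}
    {B : ∀ j, HeightOneSpectrum (𝓞 (Y j).F) → ℚ[X]}
    (hB₀ : ∀ v, (B₀ v).eval ((Ideal.absNorm v.asIdeal : ℚ) ^ (-m)) ≠ 0)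
    (hB : ∀ j v, (B j v).eval ((Ideal.absNorm v.asIdeal : ℚ) ^ (-m)) ≠ 0)
    (S : Finset (HeightOneSpectrum (𝓞 F))) :
    ∃ q : ℚ, q ≠ 0 ∧ RF a e (mp B₀) (fun j => mp (B j)) S (m : ℂ) = q := by
  refine ⟨∏ v ∈ S, ((∏ w ∈ above F v,
    ((B₀ w).eval ((Ideal.absNorm w.asIdeal : ℚ) ^ (-m)))⁻¹) ^ e * ∏ j, (∏ w ∈ above (Y j).F v,
    ((B j w).eval ((Ideal.absNorm w.asIdeal : ℚ) ^ (-m)))⁻¹) ^ (-a j)), ?_, ?_⟩
  · refine Finset.prod_ne_zero_iff.2 fun v _ => mul_ne_zero (zpow_ne_zero _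
      (Finset.prod_ne_zero_iff.2 fun w _ => inv_ne_zero (hB₀ w)))
      (Finset.prod_ne_zero_iff.2 fun j _ => zpow_ne_zero _
        (Finset.prod_ne_zero_iff.2 fun w _ => inv_ne_zero (hB j w)))
  · unfold RF
    push_cast
    refine Finset.prod_congr rfl fun v _ => ?_
    congr 1
    · congr 1
      refine Finset.prod_congr rfl fun w _ => ?_
      rw [ev_mp]
    · refine Finset.prod_congr rfl fun j _ => ?_
      congr 1
      refine Finset.prod_congr rfl fun w _ => ?_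
      rw [ev_mp]

variable (X d i N m) (M : Datum ℚ ℝ (GK K)) (Ω : Set ℂ)

/-- the `t`-th power of the L-function over `F` has a continuation, the order of which at `m` is
`t` times the dimension of motivic cohomology, and whose leading coefficient is a rational multiple
of the `t`-th power of the regulator -/
def PowL (F : Type) [Field F] [NumberField F] [Algebra K F] (B : HeightOneSpectrum (𝓞 F) → ℚ[X])
    (t : ℤ) : Prop :=
  ∃ f : ℂ → ℂ, MeromorphicOn f Ω ∧ (∃ c : ℝ, ∀ s : ℂ, c < s.re → f s = (LFun (mp B) s) ^ t) ∧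
    meromorphicOrderAt f m = ((t * rkV M F : ℤ) : WithTop ℤ) ∧
    ∀ c, Reg M F c → ∃ q : ℚ, q ≠ 0 ∧ meromorphicTrailingCoeffAt f m = q * (c : ℂ) ^ t

/-- the law -/
def LawQ (F : Type) [Field F] [NumberField F] [Algebra K F] (t : ℤ) : Prop :=
  (t ≠ 0 → ∀ (F' : Type) [Field F'] [NumberField F'] [Algebra F F'] [Algebra K F']
    [IsScalarTower K F F'], ∃ c, Reg M F' c) ∧
  ∀ B : HeightOneSpectrum (𝓞 F) → ℚ[X], Sys X d i N m F B → PowL m M Ω F B t

variable {X d i N m M Ω}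

/-- **The step.** -/
theorem powL_step (hi : i ≤ 2 * d) (hΩ : IsDom Ω (m : ℂ)) (hM : GoodM M)
    (hsys : ∀ (F : Type) [Field F] [NumberField F] [Algebra K F], ∃ B, Sys X d i N m F B)
    (F : Type) [Field F] [NumberField F] [Algebra K F] {ι : Type}
    [Fintype ι] {Y : ι → Ext F} [∀ j, Algebra K (Y j).F] [∀ j, IsScalarTower K F (Y j).F] {n : ι → ℤ}
    {e : ℤ} (hrel : ∀ σ : GK F, ∑ j, n j * (fixn F (Y j).F σ : ℤ) = e) {t : ℤ}
    {N' : IntermediateField K (AlgebraicClosure K)} [FiniteDimensional K N'] [Normal K N']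
    (hF : ∀ i : F →ₐ[K] AlgebraicClosure K, i.fieldRange ≤ N')
    (hY : ∀ j, ∀ i : (Y j).F →ₐ[K] AlgebraicClosure K, i.fieldRange ≤ N') {c₀ : ℝ}
    (hN : Reg M N' c₀)
    (h : ∀ j, ∀ B : HeightOneSpectrum (𝓞 (Y j).F) → ℚ[X], Sys X d i N m (Y j).F B →
      PowL m M Ω (Y j).F B t) (B₀ : HeightOneSpectrum (𝓞 F) → ℚ[X]) (hB₀ : Sys X d i N m F B₀) :
    PowL m M Ω F B₀ (e * t) := by
  have hcj : ∀ j, ∃ c, Reg M (Y j).F c := fun j => by
    obtain ⟨c, hc⟩ := reg_sub hM hN (F := (Y j).F) IsAlgClosed.lift (hY j _)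
    exact ⟨c, _, hc⟩
  choose c' hc' using hcj
  choose B hB using fun j => hsys (Y j).F
  choose f hf hf' hf'' hq using fun j => h j (B j) (hB j)
  choose b hf' using hf'
  choose q hq0 hq using fun j => hq j (c' j) (hc' j)
  obtain ⟨S, c, hS⟩ := sys_pow hrel hi hB₀.1 fun j => (hB j).1
  have hRF := RF_analytic n e S (ev_mp_ne hB₀.2) (fun j w => ev_mp_ne (hB j).2 w)
  obtain ⟨q₀, hq₀, hRFq⟩ := RF_rat' (m := m) n e hB₀.2 (fun j => (hB j).2) S
  have hR : MeromorphicAt (RF n e (mp B₀) (fun j => mp (B j)) S) (m : ℂ) := hRF.1.meromorphicAt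
  have hR0 : meromorphicOrderAt (RF n e (mp B₀) (fun j => mp (B j)) S) (m : ℂ) =
      ((0 : ℤ) : WithTop ℤ) := by
    rw [hRF.1.meromorphicOrderAt_eq, hRF.1.analyticOrderAt_eq_zero.2 hRF.2]
    rfl
  let Z : Option ι → Ext K := fun o => match o with
    | none => Ext.mk F
    | some j => Ext.mk (Y j).F
  let n' : Option ι → ℤ := fun o => o.elim (-e) n
  have hZ : ∀ o, ∀ i : (Z o).F →ₐ[K] AlgebraicClosure K, i.fieldRange ≤ N' := by
    rintro (_ | j)
    · exact hF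
    · exact hY j
  have hrel' : Rel Z n' := by
    intro σ
    rw [Fintype.sum_option]
    change (-e) * (fixn K F σ : ℤ) + ∑ j, n j * (fixn K (Y j).F σ : ℤ) = 0
    rw [VL.rel_up hrel σ]
    ring
  have hfin := reg_fin hN
  have h2 : ∑ j, n j * (rkV M (Y j).F : ℤ) = e * (rkV M F : ℤ) := by
    have h1 := rank_in M.ρV (X := Z) (n := n') hrel' N' hZ
    rw [Fintype.sum_option] at h1
    change (-e) * (rk M.ρV F : ℤ) + ∑ j, n j * (rk M.ρV (Y j).F : ℤ) = 0 at h1
    change ∑ j, n j * (rk M.ρV (Y j).F : ℤ) = e * (rk M.ρV F : ℤ)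
    linarith
  have h3 : ∑ j, n j * (t * (rkV M (Y j).F : ℤ)) = e * t * (rkV M F : ℤ) := by
    have h4 : e * t * (rkV M F : ℤ) = t * (e * (rkV M F : ℤ)) := by ring
    rw [h4, ← h2, Finset.mul_sum]
    exact Finset.sum_congr rfl fun j _ => by ring
  refine ⟨fun s => (RF n e (mp B₀) (fun j => mp (B j)) S s) ^ t * ∏ j, (f j s) ^ (n j),
    fun s hs => ?_, ⟨max c (∑ j, |b j|), fun s hs => ?_⟩, ?_, fun c₁ hc₁ => ?_⟩
  · refine MeromorphicAt.fun_mul ?_ (MeromorphicAt.fun_prod fun j _ => ?_)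
    · exact MeromorphicAt.fun_zpow (RF_meromorphic n e _ _ S s) t
    · exact MeromorphicAt.fun_zpow (hf j s hs) (n j)
  · have hsj : ∀ j, b j < s.re := by
      intro j
      refine ((le_abs_self _).trans ?_).trans_lt ((le_max_right _ _).trans_lt hs)
      exact Finset.single_le_sum (f := fun j => |b j|) (fun _ _ => abs_nonneg _)
        (Finset.mem_univ j)
    change (RF n e (mp B₀) (fun j => mp (B j)) S s) ^ t * (∏ j, (f j s) ^ (n j)) = _
    rw [zpow_mul, hS s ((le_max_left _ _).trans_lt hs), mul_zpow]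
    congr 1
    rw [← Finset.prod_zpow]
    refine Finset.prod_congr rfl fun j _ => ?_
    rw [hf' j s (hsj j), ← zpow_mul, ← zpow_mul, mul_comm]
  · rw [fun_meromorphicOrderAt_mul (hR.fun_zpow t)
      (MeromorphicAt.fun_prod fun j _ => (hf j _ hΩ.2.1).fun_zpow (n j)), order_zpow hR hR0,
      mul_zero]
    have h4 : meromorphicOrderAt (fun s => ∏ j, (f j s) ^ (n j)) (m : ℂ) =
        ∑ j, meromorphicOrderAt (fun s => (f j s) ^ (n j)) (m : ℂ) := by
      rw [← meromorphicOrderAt_prod fun j _ => (hf j _ hΩ.2.1).fun_zpow (n j)]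
      congr 1
      ext s
      rw [Finset.prod_apply]
    rw [h4, Finset.sum_congr rfl fun j _ => order_zpow (hf j _ hΩ.2.1) (hf'' j) (n j),
      ← WithTop.coe_sum, h3]
    change ((0 + _ : ℤ) : WithTop ℤ) = _
    rw [zero_add]
  · obtain ⟨q₁, hq₁, h4⟩ := reg_relK hM hN hZ hrel' (c := fun o => o.elim c₁ c') (by
      rintro (_ | j)
      · exact hc₁
      · exact hc' j)
    rw [Fintype.prod_option] at h4
    change c₁ ^ (-e) * ∏ j, (c' j) ^ (n j) = (q₁ : ℝ) at h4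
    have h5 : ∏ j, ((c' j : ℝ) : ℂ) ^ (n j) = q₁ * (c₁ : ℂ) ^ e := by
      have h6 : ∏ j, (c' j) ^ (n j) = (q₁ : ℝ) * c₁ ^ e := by
        rw [← h4, mul_comm (c₁ ^ (-e)), mul_assoc, ← zpow_add₀ hc₁.ne, neg_add_cancel, zpow_zero,
          mul_one]
      have h7 := congrArg (fun x : ℝ => (x : ℂ)) h6
      push_cast at h7
      exact h7
    refine ⟨q₀ ^ t * ((∏ j, (q j) ^ (n j)) * q₁ ^ t), mul_ne_zero (zpow_ne_zero _ hq₀)
      (mul_ne_zero (Finset.prod_ne_zero_iff.2 fun j _ => zpow_ne_zero _ (hq0 j))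
        (zpow_ne_zero _ hq₁)), ?_⟩
    rw [MeromorphicAt.meromorphicTrailingCoeffAt_fun_mul (hR.fun_zpow t)
      (MeromorphicAt.fun_prod fun j _ => (hf j _ hΩ.2.1).fun_zpow (n j)),
      hR.meromorphicTrailingCoeffAt_fun_zpow,
      AnalyticAt.meromorphicTrailingCoeffAt_of_ne_zero hRF.1 hRF.2, hRFq,
      meromorphicTrailingCoeffAt_fun_prod (fun j _ => (hf j _ hΩ.2.1).fun_zpow _),
      Finset.prod_congr rfl fun j _ =>
        (hf j _ hΩ.2.1).meromorphicTrailingCoeffAt_fun_zpow (n := n j)]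
    have h8 : ∏ j, (meromorphicTrailingCoeffAt (f j) (m : ℂ)) ^ (n j) =
        (∏ j, ((q j : ℚ) : ℂ) ^ (n j)) * (∏ j, ((c' j : ℝ) : ℂ) ^ (n j)) ^ t := by
      rw [← Finset.prod_zpow, ← Finset.prod_mul_distrib]
      refine Finset.prod_congr rfl fun j _ => ?_
      rw [hq j, mul_zpow, ← zpow_mul, ← zpow_mul, mul_comm t]
    rw [h8, h5, mul_zpow, ← zpow_mul]
    push_cast
    ring

theorem PowL.zero {F : Type} [Field F] [NumberField F] [Algebra K F]
    {B : HeightOneSpectrum (𝓞 F) → ℚ[X]} : PowL m M Ω F B 0 := by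
  refine ⟨fun _ => 1, fun _ _ => MeromorphicAt.const _ _, ⟨0, fun s _ => (zpow_zero _).symm⟩, ?_,
    fun c _ => ⟨1, one_ne_zero, ?_⟩⟩
  · have h1 : AnalyticAt ℂ (fun _ : ℂ => (1 : ℂ)) (m : ℂ) := analyticAt_const
    rw [h1.meromorphicOrderAt_eq, h1.analyticOrderAt_eq_zero.2 one_ne_zero, zero_mul]
    rfl
  · rw [meromorphicTrailingCoeffAt_const, zpow_zero]
    simp

theorem PowL.add {F : Type} [Field F] [NumberField F] [Algebra K F] (hΩ : IsDom Ω (m : ℂ))
    {B : HeightOneSpectrum (𝓞 F) → ℚ[X]} (hB : IsSys X d i N (mp B)) {t u : ℤ}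
    (h : PowL m M Ω F B t) (h' : PowL m M Ω F B u) : PowL m M Ω F B (t + u) := by
  obtain ⟨f, h1, ⟨c, h2⟩, h3, h4⟩ := h
  obtain ⟨f', h1', ⟨c', h2'⟩, h3', h4'⟩ := h'
  obtain ⟨c₀, u, -, hu, hu2, hev⟩ := tame hB
  refine ⟨fun s => f s * f' s, fun s hs => (h1 s hs).fun_mul (h1' s hs),
    ⟨max c₀ (max c c'), fun s hs => ?_⟩, ?_, fun c hc => ?_⟩
  · have hne : LFun (mp B) s ≠ 0 := by
      rw [LFun_exp hu hu2 (hev s ((le_max_left _ _).trans_lt hs))]
      exact Complex.exp_ne_zero _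
    change f s * f' s = _
    rw [h2 s (((le_max_left _ _).trans (le_max_right _ _)).trans_lt hs),
      h2' s (((le_max_right _ _).trans (le_max_right _ _)).trans_lt hs), zpow_add₀ hne]
  · rw [fun_meromorphicOrderAt_mul (h1 _ hΩ.2.1) (h1' _ hΩ.2.1), h3, h3', add_mul]
    rfl
  · obtain ⟨q, hq, h5⟩ := h4 c hc
    obtain ⟨q', hq', h5'⟩ := h4' c hc
    have hc0 : (c : ℂ) ≠ 0 := by exact_mod_cast hc.ne
    refine ⟨q * q', mul_ne_zero hq hq', ?_⟩
    rw [(h1 _ hΩ.2.1).meromorphicTrailingCoeffAt_fun_mul (h1' _ hΩ.2.1), h5, h5',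
      zpow_add₀ hc0]
    push_cast
    ring

theorem PowL.neg {F : Type} [Field F] [NumberField F] [Algebra K F] (hΩ : IsDom Ω (m : ℂ))
    {B : HeightOneSpectrum (𝓞 F) → ℚ[X]} {t : ℤ}
    (h : PowL m M Ω F B t) : PowL m M Ω F B (-t) := by
  obtain ⟨f, h1, ⟨c, h2⟩, h3, h4⟩ := h
  refine ⟨fun s => (f s) ^ (-1 : ℤ), fun s hs => (h1 s hs).fun_zpow _, ⟨c, fun s hs => ?_⟩, ?_,
    fun c hc => ?_⟩
  · change (f s) ^ (-1 : ℤ) = _
    rw [h2 s hs, ← zpow_mul, mul_neg_one]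
  · rw [order_zpow (h1 _ hΩ.2.1) h3, neg_one_mul, neg_mul]
  · obtain ⟨q, hq, h5⟩ := h4 c hc
    refine ⟨q⁻¹, inv_ne_zero hq, ?_⟩
    rw [(h1 _ hΩ.2.1).meromorphicTrailingCoeffAt_fun_zpow, h5, mul_zpow, ← zpow_mul, zpow_neg_one,
      mul_neg_one]
    push_cast
    rfl

/-- **The law.** -/
theorem lawQ_isLaw (hi : i ≤ 2 * d) (hΩ : IsDom Ω (m : ℂ)) (hM : GoodM M)
    (hsys : ∀ (F : Type) [Field F] [NumberField F] [Algebra K F], ∃ B, Sys X d i N m F B) :
    VL.IsLaw (K := K) (fun F _ _ _ t => LawQ X d i N m M Ω F t) where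
  zero := fun F _ _ _ => ⟨fun h => absurd rfl h, fun B _ => PowL.zero⟩
  add := by
    intro F _ _ _ t u ht hu
    refine ⟨fun htu => ?_, fun B hB => PowL.add hΩ hB.1 (ht.2 B hB) (hu.2 B hB)⟩
    by_cases h0 : t = 0
    · refine hu.1 fun h1 => htu ?_
      rw [h0, h1, add_zero]
    · exact ht.1 h0
  neg := by
    intro F _ _ _ t ht
    exact ⟨fun h => ht.1 fun h0 => h (by rw [h0, neg_zero]), fun B hB => PowL.neg hΩ (ht.2 B hB)⟩
  step := by
    intro F _ _ _ ι _ Y _ _ n e hrel t h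
    have key : e * t ≠ 0 → ∀ (F' : Type) [Field F'] [NumberField F'] [Algebra F F'] [Algebra K F']
        [IsScalarTower K F F'], ∃ N : IntermediateField K (AlgebraicClosure K),
        FiniteDimensional K N ∧ Normal K N ∧ (∀ i : F' →ₐ[K] AlgebraicClosure K, i.fieldRange ≤ N) ∧
        (∀ j, ∀ i : (Y j).F →ₐ[K] AlgebraicClosure K, i.fieldRange ≤ N) ∧ ∃ c, Reg M N c := by
      intro hmt F' _ _ _ _ _
      let Z : Option ι → Ext K := fun o => match o with
        | none => Ext.mk F'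
        | some j => Ext.mk (Y j).F
      obtain ⟨N, hfd, hnor, hZ⟩ := exists_N Z
      refine ⟨N, hfd, hnor, hZ none, fun j => hZ (some j), ?_⟩
      have hne : Nonempty ι := by
        by_contra hcon
        rw [not_nonempty_iff] at hcon
        have h1 := hrel 1
        rw [Finset.univ_eq_empty, Finset.sum_empty] at h1
        exact hmt (by rw [← h1, zero_mul])
      obtain ⟨j⟩ := hne
      have hnf : NumberField N := NumberField.of_module_finite K N
      let i : (Y j).F →ₐ[K] AlgebraicClosure K := IsAlgClosed.lift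
      let i' : (Y j).F →ₐ[K] N := i.codRestrict N.toSubalgebra fun x => hZ (some j) i ⟨x, rfl⟩
      let _ : Algebra (Y j).F N := i'.toRingHom.toAlgebra
      have : IsScalarTower K (Y j).F N := IsScalarTower.of_algebraMap_eq fun x =>
        (i'.commutes x).symm
      exact (h j).1 (right_ne_zero_of_mul hmt) N
    refine ⟨fun hmt F' _ _ _ _ _ => ?_, fun B hB => ?_⟩
    · obtain ⟨N, hfd, hnor, hF', -, c₀, hN⟩ := key hmt F'
      obtain ⟨c, hc⟩ := reg_sub hM hN (F := F') IsAlgClosed.lift (hF' _)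
      exact ⟨c, _, hc⟩
    · by_cases hmt : e * t = 0
      · rw [hmt]
        exact PowL.zero
      · obtain ⟨N, hfd, hnor, hF', hY, c₀, hN⟩ := key hmt F
        exact powL_step hi hΩ hM hsys F hrel hF' hY hN (fun j => (h j).2) B hB

/-- the conjecture over `F` -/
def ConjQ (X : Set (MvPolynomial (Fin n) (𝓞 K))) (d i N : ℕ) (m : ℤ) (M : Datum ℚ ℝ (GK K))
    (Ω : Set ℂ) (F : Type) [Field F] [NumberField F] [Algebra K F] : Prop :=
  (∃ c, Reg M F c) ∧ ∀ B : HeightOneSpectrum (𝓞 F) → ℚ[X], Sys X d i N m F B → PowL m M Ω F B 1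

theorem conjQ_of_law {F : Type} [Field F] [NumberField F] [Algebra K F]
    (h : LawQ X d i N m M Ω F 1) : ConjQ X d i N m M Ω F := ⟨h.1 one_ne_zero F, h.2⟩

theorem law_of_conjQ {F : Type} [Field F] [NumberField F] [Algebra K F]
    (h : ConjQ X d i N m M Ω F)
    (h1 : ∀ (F' : Type) [Field F'] [NumberField F'] [Algebra F F'] [Algebra K F']
      [IsScalarTower K F F'], ∃ c, Reg M F' c) : LawQ X d i N m M Ω F 1 := ⟨fun _ => h1, h.2⟩

/-- **The degrees.** -/
theorem conjQ_sparse (hi : i ≤ 2 * d) (hΩ : IsDom Ω (m : ℂ)) (hM : GoodM M)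
    (hsys : ∀ (F : Type) [Field F] [NumberField F] [Algebra K F], ∃ B, Sys X d i N m F B)
    {D : Set ℕ} (hD : ∀ d ∈ D, ∀ n : ℕ, 0 < n → d * n ∈ D)
    (hD' : ∀ g : ℕ, (∀ d ∈ D, g ∣ d) → g = 1)
    (h : ∀ (F : Type) [Field F] [NumberField F] [Algebra K F], finrank K F ∈ D →
      ConjQ X d i N m M Ω F)
    (F : Type) [Field F] [NumberField F] [Algebra K F] : ConjQ X d i N m M Ω F := by
  refine conjQ_of_law (VL.gen_sparse_law (K := K) (lawQ_isLaw hi hΩ hM hsys) hD hD' ?_ F)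
  intro F' _ _ _ hF'
  refine law_of_conjQ (h F' hF') fun F'' _ _ _ _ _ => ?_
  refine (h F'' ?_).1
  rw [← finrank_mul_finrank K F' F'']
  have : FiniteDimensional F' F'' := by
    have : IsScalarTower ℚ F' F'' := inferInstance
    exact FiniteDimensional.right ℚ F' F''
  exact hD _ hF' _ finrank_pos

/-- **The power law.** -/
theorem conjQ_degree (hi : i ≤ 2 * d) (hΩ : IsDom Ω (m : ℂ)) (hM : GoodM M)
    (hsys : ∀ (F : Type) [Field F] [NumberField F] [Algebra K F], ∃ B, Sys X d i N m F B) {D : ℕ}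
    (h : ∀ (F : Type) [Field F] [NumberField F] [Algebra K F], D ∣ finrank K F →
      ConjQ X d i N m M Ω F)
    (F : Type) [Field F] [NumberField F] [Algebra K F] (hD : D ≠ 0) :
    (∃ c, Reg M F c) ∧ ∀ B : HeightOneSpectrum (𝓞 F) → ℚ[X], Sys X d i N m F B →
      PowL m M Ω F B ((D / D.gcd (finrank K F) : ℕ) : ℤ) := by
  have h2 := VL.gen_power_law' (K := K) (M := D) (lawQ_isLaw hi hΩ hM hsys) (by
    intro F' _ _ _ hF'
    refine law_of_conjQ (h F' hF') fun F'' _ _ _ _ _ => ?_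
    refine (h F'' ?_).1
    rw [← finrank_mul_finrank K F' F'']
    exact hF'.mul_right _) F
  refine ⟨h2.1 ?_ F, h2.2⟩
  have h3 : 0 < D / D.gcd (finrank K F) :=
    Nat.div_pos (Nat.gcd_le_left _ (Nat.pos_of_ne_zero hD))
      (Nat.gcd_pos_of_pos_left _ (Nat.pos_of_ne_zero hD))
  exact_mod_cast h3.ne'

/-- **Wide families.** -/
theorem conjQ_wide' {𝓕 : Set (IntermediateField K (AlgebraicClosure K))} (hF : HR.Wide 𝓕) :
    ∃ e : ℕ, 0 < e ∧ ∀ {n : ℕ} {X : Set (MvPolynomial (Fin n) (𝓞 K))} {d i N : ℕ} {m : ℤ}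
      {M : Datum ℚ ℝ (GK K)} {Ω : Set ℂ} (_ : i ≤ 2 * d) (_ : IsDom Ω (m : ℂ)) (_ : GoodM M)
      (_ : ∀ (F : Type) [Field F] [NumberField F] [Algebra K F], ∃ B, Sys X d i N m F B)
      (_ : ∀ F ∈ 𝓕, ∀ [NumberField F], ConjQ X d i N m M Ω F), (∃ c, Reg M K c) ∧
      ∀ B : HeightOneSpectrum (𝓞 K) → ℚ[X], Sys X d i N m K B → PowL m M Ω K B (e : ℤ) := by
  obtain ⟨e, he, hlaw⟩ := VL.wide_law hF
  refine ⟨e, he, fun {n X d i N m M Ω} hi hΩ hM hsys h => ?_⟩
  have h2 := hlaw _ (lawQ_isLaw hi hΩ hM hsys) 1 (by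
    intro F hFF hnf
    refine law_of_conjQ (h F hFF) fun F' _ _ _ _ _ => ?_
    have hfd' : FiniteDimensional F F' := by
      have : IsScalarTower ℚ F F' := inferInstance
      exact FiniteDimensional.right ℚ F F'
    let i : F' →ₐ[F] AlgebraicClosure K := IsAlgClosed.lift
    let i' : F' →ₐ[K] AlgebraicClosure K := i.restrictScalars K
    have hle : F ≤ i'.fieldRange := by
      intro x hx
      refine ⟨algebraMap F F' ⟨x, hx⟩, ?_⟩
      exact i.commutes ⟨x, hx⟩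
    let e : F' ≃ₐ[K] i'.fieldRange := AlgEquiv.ofInjectiveField i'
    have hfd2 : FiniteDimensional K i'.fieldRange :=
      LinearEquiv.finiteDimensional e.toLinearEquiv
    have hnf' : NumberField i'.fieldRange := NumberField.of_module_finite K _
    obtain ⟨c, hc⟩ := (h _ (hF.2.1 F hFF i'.fieldRange hfd2 hle)).1
    exact ⟨c, Reg.congr e.symm hc⟩)
  rw [mul_one] at h2
  exact ⟨h2.1 (by exact_mod_cast he.ne') K, h2.2⟩

end

end Pool.Agent.Q5.RG
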