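import Pool.Agent.H26.Lib.R_pool_sql_team_seeded_3997aac3.Q5.RG.Asc2
import Pool.Agent.H26.Lib.R_pool_sql_team_seeded_3997aac3.Q5.RG.Law2

/-! The ascent over number fields. -/

set_option autoImplicit false
set_option linter.unusedSectionVars false

namespace Pool.Agent.Q5.RG

open Module NumberField Pool.Agent.W353.NF Pool.Agent.W401.Cheb Pool.Agent.Q5.BR
open Pool.Agent.Q5.SO (fq Cmb)
open scoped Classical

section
variable {Γ : Type} [Group Γ] {Γ' : Subgroup Γ}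

theorem fixed_mem {g : Γ} {x : Γ ⧸ Γ'} (h : g • x = x) : x.out⁻¹ * g * x.out ∈ Γ' := by
  have h1 : ((g * x.out : Γ) : Γ ⧸ Γ') = (x.out : Γ ⧸ Γ') := by
    have h2 : g • ((x.out : Γ) : Γ ⧸ Γ') = ((x.out : Γ) : Γ ⧸ Γ') := by
      rw [QuotientGroup.out_eq']
      exact h
    exact h2
  have h2 := QuotientGroup.eq.1 h1.symm
  rwa [← mul_assoc] at h2

/-- the fixed points on the cosets of a smaller subgroup -/
theorem fxc_tower {Δ : Subgroup Γ} (hle : Δ ≤ Γ') (hfi : Γ'.FiniteIndex) (hfi' : Δ.FiniteIndex)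
    (g : Γ) [Fintype {x : Γ ⧸ Γ' // g • x = x}] :
    fxc Δ g = ∑ x : {x : Γ ⧸ Γ' // g • x = x},
      fxc (Δ.subgroupOf Γ') (⟨x.1.out⁻¹ * g * x.1.out, fixed_mem x.2⟩ : Γ') := by
  let F : Γ ⧸ Γ' → Γ' ⧸ Δ.subgroupOf Γ' → Γ ⧸ Δ := fun x =>
    Quotient.lift (fun a : Γ' => ((x.out * (a : Γ) : Γ) : Γ ⧸ Δ)) (by
      intro a b hab
      have h1 : a⁻¹ * b ∈ Δ.subgroupOf Γ' := QuotientGroup.leftRel_apply.1 hab
      have h2 : ((a⁻¹ * b : Γ') : Γ) ∈ Δ := h1
      rw [QuotientGroup.eq, mul_inv_rev, mul_assoc, inv_mul_cancel_left]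
      exact h2)
  have hF : ∀ (x : Γ ⧸ Γ') (a : Γ'), F x (a : Γ' ⧸ Δ.subgroupOf Γ') =
      ((x.out * (a : Γ) : Γ) : Γ ⧸ Δ) := fun x a => rfl
  have hFg : ∀ (x : Γ ⧸ Γ') (hx : g • x = x) (z : Γ' ⧸ Δ.subgroupOf Γ'),
      g • F x z = F x ((⟨x.out⁻¹ * g * x.out, fixed_mem hx⟩ : Γ') • z) := by
    intro x hx z
    obtain ⟨a, rfl⟩ := QuotientGroup.mk_surjective z
    change ((g * (x.out * (a : Γ)) : Γ) : Γ ⧸ Δ) =
      ((x.out * (x.out⁻¹ * g * x.out * (a : Γ)) : Γ) : Γ ⧸ Δ)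
    congr 1
    group
  have hinj : ∀ (x x' : Γ ⧸ Γ') (z z' : Γ' ⧸ Δ.subgroupOf Γ'), F x z = F x' z' → x = x' ∧ z = z' := by
    intro x x' z z' h
    obtain ⟨a, rfl⟩ := QuotientGroup.mk_surjective z
    obtain ⟨b, rfl⟩ := QuotientGroup.mk_surjective z'
    rw [hF, hF, QuotientGroup.eq, mul_inv_rev] at h
    have h1 : x = x' := by
      have h2 : x.out⁻¹ * x'.out ∈ Γ' := by
        have h3 : (a : Γ) * ((a : Γ)⁻¹ * x.out⁻¹ * (x'.out * (b : Γ))) * (b : Γ)⁻¹ ∈ Γ' :=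
          Γ'.mul_mem (Γ'.mul_mem a.2 (hle h)) (Γ'.inv_mem b.2)
        have h4 : (a : Γ) * ((a : Γ)⁻¹ * x.out⁻¹ * (x'.out * (b : Γ))) * (b : Γ)⁻¹ =
            x.out⁻¹ * x'.out := by group
        rwa [h4] at h3
      have h3 := QuotientGroup.eq.2 h2
      rwa [QuotientGroup.out_eq', QuotientGroup.out_eq'] at h3
    subst h1
    refine ⟨rfl, ?_⟩
    rw [QuotientGroup.eq]
    change (a : Γ)⁻¹ * (b : Γ) ∈ Δ
    have h4 : (a : Γ)⁻¹ * x.out⁻¹ * (x.out * (b : Γ)) = (a : Γ)⁻¹ * (b : Γ) := by group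
    rwa [h4] at h
  have hsurj : ∀ y : Γ ⧸ Δ, ∃ x z, F x z = y := by
    intro y
    obtain ⟨a, rfl⟩ := QuotientGroup.mk_surjective y
    let x : Γ ⧸ Γ' := (a : Γ ⧸ Γ')
    have h1 : x.out⁻¹ * a ∈ Γ' := by
      rw [← QuotientGroup.eq, QuotientGroup.out_eq']
    refine ⟨x, ((⟨x.out⁻¹ * a, h1⟩ : Γ') : Γ' ⧸ Δ.subgroupOf Γ'), ?_⟩
    rw [hF]
    change ((x.out * (x.out⁻¹ * a) : Γ) : Γ ⧸ Δ) = _
    rw [mul_inv_cancel_left]
  have hgx : ∀ (x : Γ ⧸ Γ') (z : Γ' ⧸ Δ.subgroupOf Γ'), g • F x z = F x z → g • x = x := by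
    intro x z h
    obtain ⟨a, rfl⟩ := QuotientGroup.mk_surjective z
    rw [hF] at h
    have h1 : ((g * (x.out * (a : Γ)) : Γ) : Γ ⧸ Δ) = ((x.out * (a : Γ) : Γ) : Γ ⧸ Δ) := h
    have h2 := hle (QuotientGroup.eq.1 h1)
    have h3 : ((g * x.out : Γ) : Γ ⧸ Γ') = (x.out : Γ ⧸ Γ') := by
      rw [QuotientGroup.eq]
      have h4 : (a : Γ) * ((g * (x.out * (a : Γ)))⁻¹ * (x.out * (a : Γ))) * (a : Γ)⁻¹ ∈ Γ' :=
        Γ'.mul_mem (Γ'.mul_mem a.2 h2) (Γ'.inv_mem a.2)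
      have h5 : (a : Γ) * ((g * (x.out * (a : Γ)))⁻¹ * (x.out * (a : Γ))) * (a : Γ)⁻¹ =
          (g * x.out)⁻¹ * x.out := by group
      rwa [h5] at h4
    have h4 : g • ((x.out : Γ) : Γ ⧸ Γ') = ((x.out : Γ) : Γ ⧸ Γ') := h3
    rwa [QuotientGroup.out_eq'] at h4
  have hfin : Finite (Γ ⧸ Γ') := inferInstance
  have hfin' : Finite (Γ ⧸ Δ) := inferInstance
  have hfz : ∀ x : {x : Γ ⧸ Γ' // g • x = x}, Finite {z : Γ' ⧸ Δ.subgroupOf Γ' //
      (⟨x.1.out⁻¹ * g * x.1.out, fixed_mem x.2⟩ : Γ') • z = z} := by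
    intro x
    have : Finite (Γ' ⧸ Δ.subgroupOf Γ') :=
      Finite.of_injective (F x.1) fun z z' h => (hinj _ _ _ _ h).2
    infer_instance
  let f : ((x : {x : Γ ⧸ Γ' // g • x = x}) × {z : Γ' ⧸ Δ.subgroupOf Γ' //
      (⟨x.1.out⁻¹ * g * x.1.out, fixed_mem x.2⟩ : Γ') • z = z}) → {y : Γ ⧸ Δ // g • y = y} :=
    fun p => ⟨F p.1.1 p.2.1, by rw [hFg _ p.1.2, p.2.2]⟩
  have hf : Function.Bijective f := by
    constructor
    · rintro ⟨⟨x, hx⟩, ⟨z, hz⟩⟩ ⟨⟨x', hx'⟩, ⟨z', hz'⟩⟩ h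
      obtain ⟨h1, h2⟩ := hinj _ _ _ _ (congrArg Subtype.val h)
      subst h1
      subst h2
      rfl
    · rintro ⟨y, hy⟩
      obtain ⟨x, z, rfl⟩ := hsurj y
      have hx := hgx x z hy
      refine ⟨⟨⟨x, hx⟩, ⟨z, ?_⟩⟩, rfl⟩
      rw [hFg x hx] at hy
      exact (hinj _ _ _ _ hy).2
  unfold fxc
  rw [← Nat.card_congr (Equiv.ofBijective f hf), Nat.card_sigma]

/-- the relations of a subgroup are relations of the group -/
theorem rel_tower (hfi : Γ'.FiniteIndex) {ι : Type} [Fintype ι] {Δ : ι → Subgroup Γ}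
    (hle : ∀ j, Δ j ≤ Γ') (hfi' : ∀ j, (Δ j).FiniteIndex) {n : ι → ℤ}
    (h : ∀ g : Γ', ∑ j, n j * (fxc ((Δ j).subgroupOf Γ') g : ℤ) = 0) (g : Γ) :
    ∑ j, n j * (fxc (Δ j) g : ℤ) = 0 := by
  have hfin : Finite (Γ ⧸ Γ') := inferInstance
  have := Fintype.ofFinite {x : Γ ⧸ Γ' // g • x = x}
  have h1 : ∀ j, n j * (fxc (Δ j) g : ℤ) = ∑ x : {x : Γ ⧸ Γ' // g • x = x},
      n j * (fxc ((Δ j).subgroupOf Γ') (⟨x.1.out⁻¹ * g * x.1.out, fixed_mem x.2⟩ : Γ') : ℤ) := by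
    intro j
    rw [fxc_tower (hle j) hfi (hfi' j) g, Nat.cast_sum, Finset.mul_sum]
  rw [Finset.sum_congr rfl fun j _ => h1 j, Finset.sum_comm]
  exact Finset.sum_eq_zero fun x _ => h _

end

section
variable {K : Type} [Field K] [NumberField K] {F : Type} [Field F] [NumberField F] [Algebra K F]

theorem fd_of_nf : FiniteDimensional K F := by
  have : IsScalarTower ℚ K F := inferInstance
  exact FiniteDimensional.right ℚ K F

theorem galois_fixed (B : Subgroup (F ≃ₐ[K] F)) :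
    IsGalois (IntermediateField.fixedField B) F := by
  have hfd : FiniteDimensional K F := fd_of_nf
  have hfd' : FiniteDimensional (IntermediateField.fixedField B) F := inferInstance
  refine IsGalois.of_card_aut_eq_finrank _ _ ?_
  rw [IntermediateField.finrank_fixedField_eq_card]
  exact (Nat.card_congr (IntermediateField.subgroupEquivAlgEquiv B).toEquiv).symm

variable (i : F →ₐ[K] AlgebraicClosure K)

theorem exists_aut (B : Subgroup (F ≃ₐ[K] F)) {σ : GK K}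
    (h : ∀ x : IntermediateField.fixedField B, σ (i x) = i x) :
    ∃ b ∈ B, ∀ x, σ (i x) = i (b x) := by
  have hfd : FiniteDimensional K F := fd_of_nf
  have hgal := galois_fixed B
  let _ : Algebra F (AlgebraicClosure K) := i.toRingHom.toAlgebra
  let σ' : AlgebraicClosure K ≃ₐ[IntermediateField.fixedField B] AlgebraicClosure K :=
    AlgEquiv.ofRingEquiv (f := (σ : AlgebraicClosure K ≃+* AlgebraicClosure K)) fun x => h x
  let τ : F ≃ₐ[IntermediateField.fixedField B] F := σ'.restrictNormal F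
  have hτ : ∀ x, i (τ x) = σ (i x) := fun x => AlgEquiv.restrictNormal_commutes σ' F x
  let b : F ≃ₐ[K] F := AlgEquiv.restrictScalars K τ
  refine ⟨b, ?_, fun x => (hτ x).symm⟩
  have hb : b ∈ (IntermediateField.fixedField B).fixingSubgroup := by
    intro x
    exact τ.commutes x
  rwa [IntermediateField.fixingSubgroup_fixedField] at hb

/-- the stabilizer of a subfield -/
noncomputable def stF (B : Subgroup (F ≃ₐ[K] F)) : Subgroup (GK K) :=
  stabE (i.comp (IntermediateField.fixedField B).val)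

variable {i}

theorem mem_stF {B : Subgroup (F ≃ₐ[K] F)} {σ : GK K} :
    σ ∈ stF i B ↔ ∃ b ∈ B, ∀ x, σ (i x) = i (b x) := by
  constructor
  · intro h
    exact exists_aut i B h
  · rintro ⟨b, hb, h⟩ x
    change σ (i x) = i x
    rw [h, (IntermediateField.mem_fixedField_iff B _).1 x.2 b hb]

theorem stF_mono {A B : Subgroup (F ≃ₐ[K] F)} (h : B ≤ A) : stF i B ≤ stF i A := by
  intro σ hσ
  obtain ⟨b, hb, hb'⟩ := mem_stF.1 hσ
  exact mem_stF.2 ⟨b, h hb, hb'⟩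

theorem stF_bot : stF i (⊥ : Subgroup (F ≃ₐ[K] F)) = stabE i := by
  ext σ
  rw [mem_stF, mem_stabE]
  constructor
  · rintro ⟨b, hb, h⟩ x
    rw [Subgroup.mem_bot] at hb
    rw [h, hb]
    rfl
  · intro h
    exact ⟨1, Subgroup.one_mem _, h⟩

variable (i)

/-- the automorphism given by an element of the stabilizer -/
noncomputable def tF (A : Subgroup (F ≃ₐ[K] F)) : stF i A →* A where
  toFun σ := ⟨(mem_stF.1 σ.2).choose, (mem_stF.1 σ.2).choose_spec.1⟩
  map_one' := by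
    apply Subtype.ext
    apply AlgEquiv.ext
    intro x
    apply i.injective
    have h := (mem_stF.1 (1 : stF i A).2).choose_spec.2 x
    exact h.symm
  map_mul' σ τ := by
    apply Subtype.ext
    apply AlgEquiv.ext
    intro x
    apply i.injective
    have h := (mem_stF.1 (σ * τ).2).choose_spec.2 x
    have h1 := (mem_stF.1 τ.2).choose_spec.2 x
    have h2 := (mem_stF.1 σ.2).choose_spec.2 ((mem_stF.1 τ.2).choose x)
    refine h.symm.trans ?_
    change (σ : GK K) ((τ : GK K) (i x)) = _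
    rw [h1, h2]
    rfl

theorem tF_spec {A : Subgroup (F ≃ₐ[K] F)} (σ : stF i A) (x : F) :
    (σ : GK K) (i x) = i ((tF i A σ : F ≃ₐ[K] F) x) := (mem_stF.1 σ.2).choose_spec.2 x

theorem tF_surj (A : Subgroup (F ≃ₐ[K] F)) : Function.Surjective (tF i A) := by
  rintro ⟨a, ha⟩
  obtain ⟨τ, hτ⟩ := VL.exists_conj i (i.comp (a : F →ₐ[K] F))
  have h1 : ∀ x, τ (i x) = i (a x) := fun x => DFunLike.congr_fun hτ x
  have h2 : τ ∈ stF i A := mem_stF.2 ⟨a, ha, h1⟩
  refine ⟨⟨τ, h2⟩, ?_⟩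
  apply Subtype.ext
  apply AlgEquiv.ext
  intro x
  exact i.injective ((tF_spec i ⟨τ, h2⟩ x).symm.trans (h1 x))

theorem stF_sub (A : Subgroup (F ≃ₐ[K] F)) (B : Subgroup A) :
    (stF i (B.map A.subtype)).subgroupOf (stF i A) = B.comap (tF i A) := by
  ext σ
  rw [Subgroup.mem_subgroupOf, Subgroup.mem_comap, mem_stF]
  constructor
  · rintro ⟨b, hb, h⟩
    obtain ⟨b, hb, rfl⟩ := hb
    have h1 : tF i A σ = b := by
      apply Subtype.ext
      apply AlgEquiv.ext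
      intro x
      exact i.injective ((tF_spec i σ x).symm.trans (h x))
    rwa [h1]
  · intro h
    exact ⟨_, ⟨_, h, rfl⟩, tF_spec i σ⟩

theorem map_sub_le (A : Subgroup (F ≃ₐ[K] F)) (B : Subgroup A) : B.map A.subtype ≤ A := by
  rintro _ ⟨b, -, rfl⟩
  exact b.2

theorem stF_finiteIndex (A : Subgroup (F ≃ₐ[K] F)) : (stF i A).FiniteIndex := by
  have hfd : FiniteDimensional K F := fd_of_nf
  exact finiteIndex _

/-- **The relation over `K`.** -/
theorem rel_field (A : Subgroup (F ≃ₐ[K] F)) {ι : Type} [Fintype ι]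
    {B : ι → Subgroup A} {n : ι → ℤ} (hn : ∀ g : A, fq (⊥ : Subgroup A) g = ∑ j, n j * fq (B j) g)
    (σ : GK K) :
    ∑ j, n j * (fixn K (IntermediateField.fixedField ((B j).map A.subtype)) σ : ℤ) =
      fixn K F σ := by
  let i : F →ₐ[K] AlgebraicClosure K := IsAlgClosed.lift
  have h1 := rel_tower (stF_finiteIndex i A) (ι := Option ι)
    (Δ := fun o => stF i ((o.elim ⊥ B).map A.subtype))
    (fun o => stF_mono (map_sub_le A _)) (fun o => stF_finiteIndex i _)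
    (n := fun o => o.elim (-1) n) (fun g => by
      rw [Fintype.sum_option]
      change (-1) * (fxc ((stF i ((⊥ : Subgroup A).map A.subtype)).subgroupOf (stF i A)) g : ℤ) +
        ∑ j, n j * (fxc ((stF i ((B j).map A.subtype)).subgroupOf (stF i A)) g : ℤ) = 0
      rw [stF_sub, fxc_comap (tF_surj i A), hn]
      have h2 : ∑ j, n j * (fxc ((stF i ((B j).map A.subtype)).subgroupOf (stF i A)) g : ℤ) =
          ∑ j, n j * fq (B j) (tF i A g) :=
        Finset.sum_congr rfl fun j _ => by rw [stF_sub, fxc_comap (tF_surj i A)]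
      rw [h2]
      ring) σ
  rw [Fintype.sum_option] at h1
  change (-1) * (fxc (stF i ((⊥ : Subgroup A).map A.subtype)) σ : ℤ) +
    ∑ j, n j * (fxc (stF i ((B j).map A.subtype)) σ : ℤ) = 0 at h1
  rw [Subgroup.map_bot, stF_bot, fxc_eq] at h1
  have h3 : ∑ j, n j * (fxc (stF i ((B j).map A.subtype)) σ : ℤ) =
      ∑ j, n j * (fixn K (IntermediateField.fixedField ((B j).map A.subtype)) σ : ℤ) :=
    Finset.sum_congr rfl fun j _ => by
      unfold stF
      rw [fxc_eq]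
  rw [h3] at h1
  linarith

end

section
variable {K : Type} [Field K] [NumberField K] {M : Datum ℚ ℝ (GK K)}

theorem reg_any {F : Type} [Field F] [Algebra K F] {c : ℝ} (h : Reg M F c)
    (i : F →ₐ[K] AlgebraicClosure K) : IsReg M (stabE i) c := by
  obtain ⟨j, hj⟩ := h
  obtain ⟨τ, hτ⟩ := VL.exists_conj j i
  have h1 : ∀ x, τ (j x) = i x := fun x => DFunLike.congr_fun hτ x
  refine isReg_conj τ (fun σ => ?_) hj
  rw [mem_stabE, mem_stabE]
  constructor
  · intro h x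
    change τ (σ (τ.symm (i x))) = i x
    rw [← h1, AlgEquiv.symm_apply_apply, h]
  · intro h x
    have h2 := h x
    change τ (σ (τ.symm (i x))) = i x at h2
    rw [← h1, AlgEquiv.symm_apply_apply] at h2
    exact τ.injective h2

variable {F : Type} [Field F] [NumberField F] [Algebra K F] (A : Subgroup (F ≃ₐ[K] F))
  [Fintype A] [Fintype (Subgroup A)]

theorem good_res (hM : GoodM M) (i : F →ₐ[K] AlgebraicClosure K) (B : Subgroup A) :
    GoodAt (M.res (stF i A)) (B.comap (tF i A)) := by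
  rw [← stF_sub]
  have hfd : FiniteDimensional K F := fd_of_nf
  have hnf : NumberField (IntermediateField.fixedField (B.map A.subtype)) :=
    NumberField.of_module_finite K _
  exact goodAt_res (stF_mono (map_sub_le A B)) (hM.good _ _)

theorem reg_res {i : F →ₐ[K] AlgebraicClosure K} {B : Subgroup A} {c : ℝ} :
    IsReg (M.res (stF i A)) (B.comap (tF i A)) c ↔ IsReg M (stF i (B.map A.subtype)) c := by
  rw [← stF_sub]
  exact isReg_res M (stF_mono (map_sub_le A B)) c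

/-- **The ascent of the regulator.** -/
theorem field_asc (hM : GoodM M) {𝓗 : Subgroup A → Prop} (hsp : Spans 𝓗) {ι : Type} [Fintype ι]
    {B : ι → Subgroup A} {n : ι → ℤ} (hn : ∀ g : A, fq (⊥ : Subgroup A) g = ∑ j, n j * fq (B j) g)
    (hBj : ∀ j, 𝓗 (B j))
    (hreg : ∀ B : Subgroup A, 𝓗 B →
      ∃ c, Reg M (IntermediateField.fixedField (B.map A.subtype)) c) : ∃ c, Reg M F c := by
  let i : F →ₐ[K] AlgebraicClosure K := IsAlgClosed.lift
  obtain ⟨c, hc⟩ := asc_group (tF_surj i A) (M := M.res (stF i A)) (indepB_res hM.indep)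
    (good_res A hM i) hsp hn hBj (fun B hB => by
      obtain ⟨c, hc⟩ := hreg B hB
      exact ⟨c, (reg_res A).2 (reg_any hc _)⟩)
  rw [reg_res, Subgroup.map_bot, stF_bot] at hc
  exact ⟨c, i, hc⟩

/-- the dimensions -/
theorem field_dim {ι : Type} [Fintype ι]
    {B : ι → Subgroup A} {n : ι → ℤ} (hn : ∀ g : A, fq (⊥ : Subgroup A) g = ∑ j, n j * fq (B j) g)
    [hnf : ∀ j, NumberField (IntermediateField.fixedField ((B j).map A.subtype))]
    {c₀ : ℝ} (h0 : Reg M F c₀) :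
    ∑ j, n j * (rkV M (IntermediateField.fixedField ((B j).map A.subtype)) : ℤ) = rkV M F := by
  let i : F →ₐ[K] AlgebraicClosure K := IsAlgClosed.lift
  have h1 := reg_any h0 i
  have hfin : FiniteDimensional ℚ (inv (M.res (stF i A)).ρV ((⊥ : Subgroup A).comap (tF i A))) := by
    change FiniteDimensional ℚ (inv (M.ρV.comp (stF i A).subtype) _)
    rw [← stF_sub, inv_res M.ρV (stF_mono (map_sub_le A _)), Subgroup.map_bot, stF_bot]
    exact isReg_fin h1
  have h2 := asc_dim (tF_surj i A) (M.res (stF i A)).ρV hn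
  have h3 : ∀ B : Subgroup A, finrank ℚ (inv (M.res (stF i A)).ρV (B.comap (tF i A))) =
      finrank ℚ (inv M.ρV (stF i (B.map A.subtype))) := by
    intro B
    change finrank ℚ (inv (M.ρV.comp (stF i A).subtype) _) = _
    rw [← stF_sub, inv_res M.ρV (stF_mono (map_sub_le A _))]
  rw [h3, Subgroup.map_bot, stF_bot] at h2
  unfold rkV
  rw [VL.rk_eq _ i, fixV_eq, h2]
  refine Finset.sum_congr rfl fun j _ => ?_
  rw [h3, VL.rk_eq _ (i.comp (IntermediateField.fixedField ((B j).map A.subtype)).val), fixV_eq]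
  rfl

/-- the regulators -/
theorem field_reg (hM : GoodM M) {ι : Type} [Fintype ι]
    {B : ι → Subgroup A} {n : ι → ℤ} (hn : ∀ g : A, fq (⊥ : Subgroup A) g = ∑ j, n j * fq (B j) g)
    {c₀ : ℝ} (h0 : Reg M F c₀) {c : ι → ℝ}
    (hc : ∀ j, Reg M (IntermediateField.fixedField ((B j).map A.subtype)) (c j)) :
    ∃ q : ℚ, q ≠ 0 ∧ c₀⁻¹ * ∏ j, (c j) ^ (n j) = q := by
  let i : F →ₐ[K] AlgebraicClosure K := IsAlgClosed.lift
  exact asc_reg (tF_surj i A) (M := M.res (stF i A)) (indepB_res hM.indep) (good_res A hM i) hn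
    (by
      rw [reg_res, Subgroup.map_bot, stF_bot]
      exact reg_any h0 i) fun j => (reg_res A).2 (reg_any (hc j) _)

end

end Pool.Agent.Q5.RG
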