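import Pool.Agent.H26.Lib.R_pool_sql_team_seeded_3997aac3.Q5.RG.Asc3
import Pool.Agent.H26.Lib.R_pool_sql_team_seeded_3997aac3.Q5.RG.Pub

/-! **The ascent of Beilinson's conjecture.** -/

set_option autoImplicit false
set_option linter.unusedSectionVars false

namespace Pool.Agent.Q5.RG

open Module NumberField IsDedekindDomain Filter Topology Polynomial Pool.Agent.W353.NF
  Pool.Agent.W401.Cheb Pool.Agent.Q5.BR Pool.Agent.Q5.VL
open Pool.Agent.W353.EF (IsFrobenius LFun cone)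
open Pool.Agent.Q5.SO (fq Cmb)
open scoped Classical

section
variable {K : Type} [Field K] [NumberField K] {n : ℕ} {X : Set (MvPolynomial (Fin n) (𝓞 K))}
  {d i N : ℕ} {m : ℤ} {M : Datum ℚ ℝ (GK K)} {Ω : Set ℂ}

/-- **A relation over `K`**, with the dimensions and the regulators -/
theorem powL_core (hi : i ≤ 2 * d) (hΩ : IsDom Ω (m : ℂ))
    (hsys : ∀ (F : Type) [Field F] [NumberField F] [Algebra K F], ∃ B, Sys X d i N m F B)
    (F : Type) [Field F] [NumberField F] [Algebra K F] {ι : Type}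
    [Fintype ι] {Y : ι → Ext K} {a : ι → ℤ}
    (hrel : ∀ σ : GK K, ∑ j, a j * (fixn K (Y j).F σ : ℤ) = fixn K F σ) {t : ℤ}
    (hcj : ∀ j, ∃ c, Reg M (Y j).F c)
    (hrank : ∑ j, a j * (rkV M (Y j).F : ℤ) = rkV M F)
    (hreg : ∀ c₀, Reg M F c₀ → ∀ c : ι → ℝ, (∀ j, Reg M (Y j).F (c j)) →
      ∃ q : ℚ, q ≠ 0 ∧ c₀⁻¹ * ∏ j, (c j) ^ (a j) = q)
    (h : ∀ j, ∀ B : HeightOneSpectrum (𝓞 (Y j).F) → ℚ[X], Sys X d i N m (Y j).F B →
      PowL m M Ω (Y j).F B t) (B₁ : HeightOneSpectrum (𝓞 F) → ℚ[X]) (hB₁ : Sys X d i N m F B₁) :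
    PowL m M Ω F B₁ t := by
  choose c' hc' using hcj
  choose B hB using fun j => hsys (Y j).F
  choose f hf hf' hf'' hq using fun j => h j (B j) (hB j)
  choose b hf' using hf'
  choose q hq0 hq using fun j => hq j (c' j) (hc' j)
  obtain ⟨B₀, hB₀⟩ := hsys K
  let Z : Option ι → Ext K := fun o => match o with
    | none => Ext.mk F
    | some j => Y j
  let n' : Option ι → ℤ := fun o => o.elim (-1) a
  let B' : ∀ o, HeightOneSpectrum (𝓞 (Z o).F) → ℚ[X] := fun o => match o with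
    | none => B₁
    | some j => B j
  have hB' : ∀ o, Sys X d i N m (Z o).F (B' o) := by
    rintro (_ | j)
    · exact hB₁
    · exact hB j
  have hrel' : Rel Z n' := by
    intro σ
    rw [Fintype.sum_option]
    change (-1) * (fixn K F σ : ℤ) + ∑ j, a j * (fixn K (Y j).F σ : ℤ) = 0
    rw [hrel σ]
    ring
  obtain ⟨S, c, hS⟩ := sys_pow hrel' hi hB₀.1 fun o => (hB' o).1
  obtain ⟨c₂, u₂, -, hu₂, hu₂', hev₂⟩ := tame hB₁.1
  have hRF := RF_analytic n' 0 S (ev_mp_ne hB₀.2) (fun o w => ev_mp_ne (hB' o).2 w)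
  obtain ⟨q₀, hq₀, hRFq⟩ := RF_rat' (m := m) n' 0 hB₀.2 (fun o => (hB' o).2) S
  have hR : MeromorphicAt (RF n' 0 (mp B₀) (fun o => mp (B' o)) S) (m : ℂ) :=
    hRF.1.meromorphicAt
  have hR0 : meromorphicOrderAt (RF n' 0 (mp B₀) (fun o => mp (B' o)) S) (m : ℂ) =
      ((0 : ℤ) : WithTop ℤ) := by
    rw [hRF.1.meromorphicOrderAt_eq, hRF.1.analyticOrderAt_eq_zero.2 hRF.2]
    rfl
  have h3 : ∑ j, a j * (t * (rkV M (Y j).F : ℤ)) = t * (rkV M F : ℤ) := by
    rw [← hrank, Finset.mul_sum]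
    exact Finset.sum_congr rfl fun j _ => by ring
  refine ⟨fun s => (RF n' 0 (mp B₀) (fun o => mp (B' o)) S s) ^ t * ∏ j, (f j s) ^ (a j),
    fun s hs => ?_, ⟨max (max c c₂) (∑ j, |b j|), fun s hs => ?_⟩, ?_, fun c₁ hc₁ => ?_⟩
  · refine MeromorphicAt.fun_mul ?_ (MeromorphicAt.fun_prod fun j _ => ?_)
    · exact MeromorphicAt.fun_zpow (RF_meromorphic n' 0 _ _ S s) t
    · exact MeromorphicAt.fun_zpow (hf j s hs) (a j)
  · have hsj : ∀ j, b j < s.re := by
      intro j
      refine ((le_abs_self _).trans ?_).trans_lt ((le_max_right _ _).trans_lt hs)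
      exact Finset.single_le_sum (f := fun j => |b j|) (fun _ _ => abs_nonneg _)
        (Finset.mem_univ j)
    have hs' : max c c₂ < s.re := (le_max_left _ _).trans_lt hs
    have hne : LFun (mp B₁) s ≠ 0 := by
      rw [LFun_exp hu₂ hu₂' (hev₂ s ((le_max_right _ _).trans_lt hs'))]
      exact Complex.exp_ne_zero _
    have h5 := hS s ((le_max_left _ _).trans_lt hs')
    rw [zpow_zero, Fintype.prod_option] at h5
    change 1 = RF n' 0 (mp B₀) (fun o => mp (B' o)) S s * ((LFun (mp B₁) s) ^ (-1 : ℤ) *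
      ∏ j, (LFun (mp (B j)) s) ^ (a j)) at h5
    have h6 : LFun (mp B₁) s = RF n' 0 (mp B₀) (fun o => mp (B' o)) S s *
        ∏ j, (LFun (mp (B j)) s) ^ (a j) := by
      rw [zpow_neg_one] at h5
      calc LFun (mp B₁) s = LFun (mp B₁) s * 1 := (mul_one _).symm
        _ = LFun (mp B₁) s * (RF n' 0 (mp B₀) (fun o => mp (B' o)) S s * ((LFun (mp B₁) s)⁻¹ *
          ∏ j, (LFun (mp (B j)) s) ^ (a j))) := by rw [← h5]
        _ = (LFun (mp B₁) s * (LFun (mp B₁) s)⁻¹) * (RF n' 0 (mp B₀) (fun o => mp (B' o)) S s *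
          ∏ j, (LFun (mp (B j)) s) ^ (a j)) := by ring
        _ = _ := by rw [mul_inv_cancel₀ hne, one_mul]
    change (RF n' 0 (mp B₀) (fun o => mp (B' o)) S s) ^ t * (∏ j, (f j s) ^ (a j)) = _
    rw [h6, mul_zpow]
    congr 1
    rw [← Finset.prod_zpow]
    refine Finset.prod_congr rfl fun j _ => ?_
    rw [hf' j s (hsj j), ← zpow_mul, ← zpow_mul, mul_comm]
  · rw [fun_meromorphicOrderAt_mul (hR.fun_zpow t)
      (MeromorphicAt.fun_prod fun j _ => (hf j _ hΩ.2.1).fun_zpow (a j)), order_zpow hR hR0,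
      mul_zero]
    have h4 : meromorphicOrderAt (fun s => ∏ j, (f j s) ^ (a j)) (m : ℂ) =
        ∑ j, meromorphicOrderAt (fun s => (f j s) ^ (a j)) (m : ℂ) := by
      rw [← meromorphicOrderAt_prod fun j _ => (hf j _ hΩ.2.1).fun_zpow (a j)]
      congr 1
      ext s
      rw [Finset.prod_apply]
    rw [h4, Finset.sum_congr rfl fun j _ => order_zpow (hf j _ hΩ.2.1) (hf'' j) (a j),
      ← WithTop.coe_sum, h3]
    change ((0 + _ : ℤ) : WithTop ℤ) = _
    rw [zero_add]
  · obtain ⟨q₁, hq₁, h4⟩ := hreg c₁ hc₁ c' hc'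
    have h5 : ∏ j, ((c' j : ℝ) : ℂ) ^ (a j) = q₁ * (c₁ : ℂ) := by
      have h6 : ∏ j, (c' j) ^ (a j) = (q₁ : ℝ) * c₁ := by
        rw [← h4, mul_comm c₁⁻¹, mul_assoc, inv_mul_cancel₀ hc₁.ne, mul_one]
      have h7 := congrArg (fun x : ℝ => (x : ℂ)) h6
      push_cast at h7
      exact h7
    refine ⟨q₀ ^ t * ((∏ j, (q j) ^ (a j)) * q₁ ^ t), mul_ne_zero (zpow_ne_zero _ hq₀)
      (mul_ne_zero (Finset.prod_ne_zero_iff.2 fun j _ => zpow_ne_zero _ (hq0 j))
        (zpow_ne_zero _ hq₁)), ?_⟩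
    rw [MeromorphicAt.meromorphicTrailingCoeffAt_fun_mul (hR.fun_zpow t)
      (MeromorphicAt.fun_prod fun j _ => (hf j _ hΩ.2.1).fun_zpow (a j)),
      hR.meromorphicTrailingCoeffAt_fun_zpow,
      AnalyticAt.meromorphicTrailingCoeffAt_of_ne_zero hRF.1 hRF.2, hRFq,
      meromorphicTrailingCoeffAt_fun_prod (fun j _ => (hf j _ hΩ.2.1).fun_zpow _),
      Finset.prod_congr rfl fun j _ =>
        (hf j _ hΩ.2.1).meromorphicTrailingCoeffAt_fun_zpow (n := a j)]
    have h8 : ∏ j, (meromorphicTrailingCoeffAt (f j) (m : ℂ)) ^ (a j) =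
        (∏ j, ((q j : ℚ) : ℂ) ^ (a j)) * (∏ j, ((c' j : ℝ) : ℂ) ^ (a j)) ^ t := by
      rw [← Finset.prod_zpow, ← Finset.prod_mul_distrib]
      refine Finset.prod_congr rfl fun j _ => ?_
      rw [hq j, mul_zpow, ← zpow_mul, ← zpow_mul, mul_comm t]
    rw [h8, h5, mul_zpow]
    push_cast
    ring

/-- **The ascent of the regulator.** -/
theorem reg_asc_pq (hM : GoodM M) {F : Type} [Field F] [NumberField F] [Algebra K F]
    (A : Subgroup (F ≃ₐ[K] F)) {p q : ℕ}
    (hp : p.Prime) (hq : q.Prime) (hc : Nat.card A = p * q) (hn : ¬ IsCyclic A)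
    (h : ∀ B : Subgroup (F ≃ₐ[K] F), B ≤ A → B ≠ ⊥ →
      ∃ c, Reg M (IntermediateField.fixedField B) c) : ∃ c, Reg M F c := by
  have hfd : FiniteDimensional K F := fd_of_nf
  have hfG : Finite (F ≃ₐ[K] F) := inferInstance
  have hfA : Fintype A := Fintype.ofFinite A
  have hfS : Fintype (Subgroup A) := Fintype.ofFinite _
  obtain ⟨nn, hnn, hnn'⟩ := rel_pq hp hq hc hn
  let ι : Type := {B : Subgroup A // nn B ≠ 0}
  have hfι : Fintype ι := Fintype.ofFinite _
  have hrel : ∀ g : A, fq (⊥ : Subgroup A) g = ∑ j : ι, nn j.1 * fq j.1 g := by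
    intro g
    rw [hnn' g]
    have h2 : ∀ B : Subgroup A, B ∈ Finset.univ.filter (fun B => nn B ≠ 0) ↔ nn B ≠ 0 := by
      intro B
      simp
    rw [← Finset.sum_subtype (Finset.univ.filter (fun B => nn B ≠ 0)) h2
      (fun B => nn B * fq B g), Finset.sum_filter_of_ne]
    intro B _ hB h3
    apply hB
    rw [h3, zero_mul]
  refine field_asc A hM (spans_pq hp hq hc hn) hrel (fun j => hnn j.1 j.2)
    (fun B hB0 => h (B.map A.subtype) (map_sub_le A B) fun h0 => hB0 ?_)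
  rwa [Subgroup.map_eq_bot_iff_of_injective _ (Subgroup.subtype_injective A)] at h0

/-- **The ascent.** -/
theorem conjQ_asc (hi : i ≤ 2 * d) (hΩ : IsDom Ω (m : ℂ)) (hM : GoodM M)
    (hsys : ∀ (F : Type) [Field F] [NumberField F] [Algebra K F], ∃ B, Sys X d i N m F B)
    (F : Type) [Field F] [NumberField F] [Algebra K F] (A : Subgroup (F ≃ₐ[K] F)) {p q : ℕ}
    (hp : p.Prime) (hq : q.Prime) (hc : Nat.card A = p * q) (hn : ¬ IsCyclic A)
    (h : ∀ B : Subgroup (F ≃ₐ[K] F), B ≤ A → B ≠ ⊥ →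
      ∀ [NumberField (IntermediateField.fixedField B)],
        ConjQ X d i N m M Ω (IntermediateField.fixedField B)) : ConjQ X d i N m M Ω F := by
  have hfd : FiniteDimensional K F := fd_of_nf
  have hfG : Finite (F ≃ₐ[K] F) := inferInstance
  have hfA : Fintype A := Fintype.ofFinite A
  have hfS : Fintype (Subgroup A) := Fintype.ofFinite _
  obtain ⟨nn, hnn, hnn'⟩ := rel_pq hp hq hc hn
  let ι : Type := {B : Subgroup A // nn B ≠ 0}
  have hfι : Fintype ι := Fintype.ofFinite _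
  have hrel : ∀ g : A, fq (⊥ : Subgroup A) g = ∑ j : ι, nn j.1 * fq j.1 g := by
    intro g
    rw [hnn' g]
    have h2 : ∀ B : Subgroup A, B ∈ Finset.univ.filter (fun B => nn B ≠ 0) ↔ nn B ≠ 0 := by
      intro B
      simp
    rw [← Finset.sum_subtype (Finset.univ.filter (fun B => nn B ≠ 0)) h2
      (fun B => nn B * fq B g), Finset.sum_filter_of_ne]
    intro B _ hB h3
    apply hB
    rw [h3, zero_mul]
  have hnf : ∀ B : Subgroup A, NumberField (IntermediateField.fixedField (B.map A.subtype)) :=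
    fun B => NumberField.of_module_finite K _
  have hB : ∀ B : Subgroup A, B ≠ ⊥ →
      ConjQ X d i N m M Ω (IntermediateField.fixedField (B.map A.subtype)) := by
    intro B hB
    refine h (B.map A.subtype) (map_sub_le A B) fun h0 => hB ?_
    rwa [Subgroup.map_eq_bot_iff_of_injective _ (Subgroup.subtype_injective A)] at h0
  have hreg := field_asc A hM (spans_pq hp hq hc hn) hrel (fun j => hnn j.1 j.2)
    (fun B hB0 => (hB B hB0).1)
  refine ⟨hreg, fun B₁ hB₁ => ?_⟩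
  obtain ⟨c₀, hc₀⟩ := hreg
  exact powL_core hi hΩ hsys F
    (Y := fun j : ι => @Ext.mk K _ _ (IntermediateField.fixedField (j.1.map A.subtype)) _ (hnf j.1) _)
    (a := fun j => nn j.1) (rel_field A hrel)
    (fun j => (hB j.1 (hnn j.1 j.2)).1) (field_dim A hrel hc₀)
    (fun c₀ hc₀ c hc => field_reg A hM hrel hc₀ hc) (fun j => (hB j.1 (hnn j.1 j.2)).2) B₁ hB₁

/-- all subgroups of order `p q` are cyclic -/
def CycPQ (G : Type) [Group G] : Prop :=
  ∀ (A : Subgroup G) (p q : ℕ), p.Prime → q.Prime → Nat.card A = p * q → IsCyclic A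

/-- **The ascent**, from the proper subfields -/
theorem conjQ_asc' (hi : i ≤ 2 * d) (hΩ : IsDom Ω (m : ℂ)) (hM : GoodM M)
    (hsys : ∀ (F : Type) [Field F] [NumberField F] [Algebra K F], ∃ B, Sys X d i N m F B)
    (F : Type) [Field F] [NumberField F] [Algebra K F] (hF : ¬ CycPQ (F ≃ₐ[K] F))
    (h : ∀ (F' : Type) [Field F'] [NumberField F'] [Algebra K F'] [Algebra F' F]
      [IsScalarTower K F' F], finrank K F' < finrank K F → ConjQ X d i N m M Ω F') :
    ConjQ X d i N m M Ω F := by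
  have hfd : FiniteDimensional K F := fd_of_nf
  unfold CycPQ at hF
  push Not at hF
  obtain ⟨A, p, q, hp, hq, hc, hn⟩ := hF
  refine conjQ_asc hi hΩ hM hsys F A hp hq hc hn fun B hBA hB hnf => ?_
  refine h (IntermediateField.fixedField B) ?_
  have h1 := finrank_mul_finrank K (IntermediateField.fixedField B) F
  rw [IntermediateField.finrank_fixedField_eq_card] at h1
  have h2 : 1 < Nat.card B := by
    rw [Finite.one_lt_card_iff_nontrivial]
    exact (Subgroup.nontrivial_iff_ne_bot B).2 hB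
  have h3 : 0 < finrank K (IntermediateField.fixedField B) := finrank_pos
  nlinarith

/-- **The reduction.** -/
theorem conjQ_reduce (hi : i ≤ 2 * d) (hΩ : IsDom Ω (m : ℂ)) (hM : GoodM M)
    (hsys : ∀ (F : Type) [Field F] [NumberField F] [Algebra K F], ∃ B, Sys X d i N m F B) (D : ℕ) :
    ∀ (F : Type) [Field F] [NumberField F] [Algebra K F], finrank K F < D →
      (∀ (F' : Type) [Field F'] [NumberField F'] [Algebra K F'] [Algebra F' F]
        [IsScalarTower K F' F], CycPQ (F' ≃ₐ[K] F') → ConjQ X d i N m M Ω F') →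
      ConjQ X d i N m M Ω F := by
  induction D with
  | zero => intro F _ _ _ h; exact absurd h (Nat.not_lt_zero _)
  | succ D ih =>
    intro F _ _ _ hD h
    by_cases hF : CycPQ (F ≃ₐ[K] F)
    · exact h F hF
    · refine conjQ_asc' hi hΩ hM hsys F hF fun F' _ _ _ _ _ hlt => ?_
      refine ih F' (by omega) fun F'' _ _ _ _ _ hc => ?_
      let _ : Algebra F'' F := ((algebraMap F' F).comp (algebraMap F'' F')).toAlgebra
      have : IsScalarTower K F'' F := IsScalarTower.of_algebraMap_eq fun x => by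
        change _ = algebraMap F' F (algebraMap F'' F' (algebraMap K F'' x))
        rw [← IsScalarTower.algebraMap_apply K F'' F', ← IsScalarTower.algebraMap_apply K F' F]
      exact h F'' hc

end

end Pool.Agent.Q5.RG
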