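import Pool.Agent.H26.Lib.R_pool_sql_team_seeded_3997aac3.Q5.RG.Quo

/-! Regulators with values in a quotient by a de Rham part, and their relations. -/

set_option autoImplicit false
set_option linter.unusedSectionVars false

namespace Pool.Agent.Q5.RG

open Module
open Pool.Agent.Q5.SO (fq)
open scoped Classical

/-- The spaces of a variety over all finite extensions of a field with absolute Galois group `Γ`:
`V` motivic cohomology, `B` rational Betti cohomology, `Φ` the step of the Hodge filtration of de Rham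
cohomology, `U` real Betti cohomology, with the maps `η : B → U`, `φ : Φ → U`, the subspace `S` of
`U` and the regulator `r : V → U ⧸ S`. -/
structure Datum (k R : Type) [Field k] [Field R] [Algebra k R] (Γ : Type) [Group Γ] where
  V : Type
  B : Type
  Φ : Type
  U : Type
  [aV : AddCommGroup V] [mV : Module k V]
  [aB : AddCommGroup B] [mB : Module k B]
  [aΦ : AddCommGroup Φ] [mΦ : Module k Φ]
  [aU : AddCommGroup U] [mU : Module R U]
  ρV : Representation k Γ V
  ρB : Representation k Γ B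
  ρΦ : Representation k Γ Φ
  ρU : Representation R Γ U
  η : B →ₛₗ[algebraMap k R] U
  φ : Φ →ₛₗ[algebraMap k R] U
  S : Submodule R U
  r : V →ₛₗ[algebraMap k R] U ⧸ S
  hη : ∀ g x, η (ρB g x) = ρU g (η x)
  hφ : ∀ g x, φ (ρΦ g x) = ρU g (φ x)
  hr : ∀ g v u, S.mkQ u = r v → S.mkQ (ρU g u) = r (ρV g v)

attribute [instance] Datum.aV Datum.mV Datum.aB Datum.mB Datum.aΦ Datum.mΦ Datum.aU Datum.mU

section
variable {k R Γ : Type} [Field k] [Field R] [Algebra k R] [Group Γ] (M : Datum k R Γ)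

/-- `c` is the (nonzero) determinant of the regulator on the invariants of `Δ`, in rational bases: `a`
of motivic cohomology, with lifts `x` of the regulators of the `a l`, `f` of the de Rham part, and
`b` of Betti cohomology -/
def IsReg (Δ : Subgroup Γ) (c : R) : Prop :=
  c ≠ 0 ∧ ∃ (p q : ℕ) (a : Basis (Fin p) k (inv M.ρV Δ)) (f : Basis (Fin q) k (inv M.ρΦ Δ))
    (b : Basis (Fin p ⊕ Fin q) k (inv M.ρB Δ)) (x : Fin p → M.U)
    (C : Matrix (Fin p ⊕ Fin q) (Fin p ⊕ Fin q) R),
    (∀ l, x l ∈ inv M.ρU Δ ∧ M.S.mkQ (x l) = M.r (a l)) ∧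
    (∀ m, Sum.elim x (fun l => M.φ (f l)) m = ∑ l, C l m • M.η (b l)) ∧ C.det = c

/-- the comparison of the Betti and de Rham structures over the field of `Δ` -/
structure GoodAt (Δ : Subgroup Γ) : Prop where
  fin : FiniteDimensional k (inv M.ρB Δ)
  span : ∀ u ∈ inv M.ρU Δ, u ∈ Submodule.span R (M.η '' (inv M.ρB Δ : Set M.B))
  deR : ∀ u ∈ inv M.ρU Δ, u ∈ M.S → u ∈ Submodule.span R (M.φ '' (inv M.ρΦ Δ : Set M.Φ))

/-- rationally independent elements of Betti cohomology are independent -/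
def IndepB : Prop := ∀ (κ : Type) [Fintype κ] (w : κ → M.B), LinearIndependent k w →
  LinearIndependent R fun l => M.η (w l)

end

section
variable {k R : Type} [Field k] [Field R] [Algebra k R]

/-- a change of the lifts -/
theorem change_lift {U : Type} [AddCommGroup U] [Module R U] {p q : ℕ} {x y : Fin p → U}
    {z : Fin q → U} {b : Fin p ⊕ Fin q → U} {C : Matrix (Fin p ⊕ Fin q) (Fin p ⊕ Fin q) R}
    (h : ∀ m, Sum.elim x z m = ∑ l, C l m • b l)
    (hy : ∀ l, y l - x l ∈ Submodule.span R (Set.range z)) :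
    ∃ C' : Matrix (Fin p ⊕ Fin q) (Fin p ⊕ Fin q) R, C'.det = C.det ∧
      ∀ m, Sum.elim y z m = ∑ l, C' l m • b l := by
  have h1 : ∀ l, ∃ s : Fin q → R, ∑ m, s m • z m = y l - x l := fun l =>
    (Submodule.mem_span_range_iff_exists_fun R).1 (hy l)
  choose s hs using h1
  let E : Matrix (Fin p ⊕ Fin q) (Fin p ⊕ Fin q) R :=
    Matrix.fromBlocks 1 0 (Matrix.of fun m l => s l m) 1
  refine ⟨C * E, ?_, fun m => ?_⟩
  · rw [Matrix.det_mul, Matrix.det_fromBlocks_zero₁₂, Matrix.det_one, Matrix.det_one, mul_one,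
      mul_one]
  · have h2 : ∑ l, (C * E) l m • b l = ∑ i, E i m • Sum.elim x z i := by
      simp only [h, Finset.smul_sum, Matrix.mul_apply, Finset.sum_smul]
      rw [Finset.sum_comm]
      refine Finset.sum_congr rfl fun i _ => Finset.sum_congr rfl fun l _ => ?_
      rw [smul_smul, mul_comm]
    rw [h2, Fintype.sum_sum_type]
    rcases m with m | m
    · change y m = ∑ i, (1 : Matrix (Fin p) (Fin p) R) i m • x i + ∑ i, s m i • z i
      rw [hs m]
      have h3 : ∑ i, (1 : Matrix (Fin p) (Fin p) R) i m • x i = x m := by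
        rw [Finset.sum_eq_single m]
        · rw [Matrix.one_apply_eq, one_smul]
        · intro i _ hi
          rw [Matrix.one_apply_ne hi, zero_smul]
        · intro h
          exact absurd (Finset.mem_univ _) h
      rw [h3]
      abel
    · change z m = ∑ i, (0 : Matrix (Fin p) (Fin q) R) i m • x i +
        ∑ i, (1 : Matrix (Fin q) (Fin q) R) i m • z i
      have h3 : ∑ i, (1 : Matrix (Fin q) (Fin q) R) i m • z i = z m := by
        rw [Finset.sum_eq_single m]
        · rw [Matrix.one_apply_eq, one_smul]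
        · intro i _ hi
          rw [Matrix.one_apply_ne hi, zero_smul]
        · intro h
          exact absurd (Finset.mem_univ _) h
      rw [h3]
      simp

end

section
variable {k R Γ : Type} [Field k] [CharZero k] [Field R] [Algebra k R] [Group Γ] {M : Datum k R Γ}
  {N : Subgroup Γ} [N.Normal] [N.FiniteIndex]

/-- **An equivariant lift of the regulator.** -/
theorem exists_lift {c : R} (hN : IsReg M N c) :
    ∃ θ : inv M.ρV N →ₛₗ[algebraMap k R] inv M.ρU N,
      (∀ g v, θ (repQ M.ρV N g v) = repQ M.ρU N g (θ v)) ∧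
      ∀ v, M.S.mkQ (θ v : M.U) = M.r (v : M.V) := by
  obtain ⟨-, p, q, a, f, b, x, C, hx, -, -⟩ := hN
  have hfin : Finite (Γ ⧸ N) := inferInstance
  have := Fintype.ofFinite (Γ ⧸ N)
  let θ₀ : inv M.ρV N →ₛₗ[algebraMap k R] inv M.ρU N :=
    { toFun := fun v => ∑ l, algebraMap k R (a.repr v l) • (⟨x l, (hx l).1⟩ : inv M.ρU N)
      map_add' := fun v w => by
        rw [← Finset.sum_add_distrib]
        refine Finset.sum_congr rfl fun l _ => ?_
        rw [map_add, Finsupp.add_apply, map_add, add_smul]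
      map_smul' := fun t v => by
        rw [Finset.smul_sum]
        refine Finset.sum_congr rfl fun l _ => ?_
        rw [map_smul, Finsupp.smul_apply, smul_eq_mul, map_mul, mul_smul] }
  have h0 : ∀ v, M.S.mkQ (θ₀ v : M.U) = M.r (v : M.V) := by
    intro v
    have h1 : (θ₀ v : M.U) = ∑ l, algebraMap k R (a.repr v l) • x l := by
      change ((∑ l, algebraMap k R (a.repr v l) • (⟨x l, (hx l).1⟩ : inv M.ρU N) :
        inv M.ρU N) : M.U) = _
      rw [Submodule.coe_sum]
      rfl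
    have h2 : (v : M.V) = ∑ l, a.repr v l • (a l : M.V) := by
      conv_lhs => rw [← a.sum_repr v]
      rw [Submodule.coe_sum]
      rfl
    rw [h1, map_sum, h2, map_sum]
    refine Finset.sum_congr rfl fun l _ => ?_
    rw [map_smul, (hx l).2, LinearMap.map_smulₛₗ]
  have hR : CharZero R := charZero_of_injective_algebraMap (algebraMap k R).injective
  have hc : (Nat.card (Γ ⧸ N) : R) ≠ 0 := by exact_mod_cast Nat.card_pos.ne'
  let θ : inv M.ρV N →ₛₗ[algebraMap k R] inv M.ρU N :=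
    { toFun := fun v => (Nat.card (Γ ⧸ N) : R)⁻¹ • ∑ g : Γ ⧸ N,
        repQ M.ρU N g (θ₀ (repQ M.ρV N g⁻¹ v))
      map_add' := fun v w => by
        rw [← smul_add, ← Finset.sum_add_distrib]
        congr 1
        refine Finset.sum_congr rfl fun g _ => ?_
        rw [map_add, map_add, map_add]
      map_smul' := fun t v => by
        rw [smul_comm]
        congr 1
        rw [Finset.smul_sum]
        refine Finset.sum_congr rfl fun g _ => ?_
        rw [(repQ M.ρV N g⁻¹).map_smul, θ₀.map_smulₛₗ, (repQ M.ρU N g).map_smul] }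
  refine ⟨θ, fun h v => ?_, fun v => ?_⟩
  · change (Nat.card (Γ ⧸ N) : R)⁻¹ • ∑ g : Γ ⧸ N,
      repQ M.ρU N g (θ₀ (repQ M.ρV N g⁻¹ (repQ M.ρV N h v))) =
      repQ M.ρU N h ((Nat.card (Γ ⧸ N) : R)⁻¹ • ∑ g : Γ ⧸ N,
        repQ M.ρU N g (θ₀ (repQ M.ρV N g⁻¹ v)))
    rw [map_smul, map_sum, ← Equiv.sum_comp (Equiv.mulLeft h) (fun g : Γ ⧸ N =>
      repQ M.ρU N g (θ₀ (repQ M.ρV N g⁻¹ (repQ M.ρV N h v))))]
    congr 1
    refine Finset.sum_congr rfl fun g _ => ?_
    change repQ M.ρU N (h * g) (θ₀ (repQ M.ρV N (h * g)⁻¹ (repQ M.ρV N h v))) = _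
    have e1 : repQ M.ρV N (h * g)⁻¹ (repQ M.ρV N h v) = repQ M.ρV N g⁻¹ v := by
      change (repQ M.ρV N (h * g)⁻¹ * repQ M.ρV N h) v = _
      rw [← map_mul, mul_inv_rev, inv_mul_cancel_right]
    rw [e1, map_mul]
    rfl
  · have h1 : ((θ v : inv M.ρU N) : M.U) = (Nat.card (Γ ⧸ N) : R)⁻¹ • ∑ g : Γ ⧸ N,
        (repQ M.ρU N g (θ₀ (repQ M.ρV N g⁻¹ v)) : M.U) := by
      change (((Nat.card (Γ ⧸ N) : R)⁻¹ • ∑ g : Γ ⧸ N,
        repQ M.ρU N g (θ₀ (repQ M.ρV N g⁻¹ v)) : inv M.ρU N) : M.U) = _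
      rw [Submodule.coe_smul, Submodule.coe_sum]
    have h2 : ∀ g : Γ ⧸ N, M.S.mkQ (repQ M.ρU N g (θ₀ (repQ M.ρV N g⁻¹ v)) : M.U) =
        M.r (v : M.V) := by
      intro g
      obtain ⟨γ, rfl⟩ := QuotientGroup.mk_surjective g
      have h3 := M.hr γ _ _ (h0 (repQ M.ρV N ((γ : Γ ⧸ N)⁻¹) v))
      change M.S.mkQ (M.ρU γ (θ₀ (repQ M.ρV N ((γ : Γ ⧸ N)⁻¹) v) : M.U)) = _
      rw [h3]
      congr 1
      change (M.ρV γ * M.ρV γ⁻¹) (v : M.V) = v
      rw [← map_mul, mul_inv_cancel, map_one]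
      rfl
    rw [h1, map_smul, map_sum, Finset.sum_congr rfl fun g _ => h2 g, Finset.sum_const,
      Finset.card_univ, ← Nat.card_eq_fintype_card, ← Nat.cast_smul_eq_nsmul R, smul_smul,
      inv_mul_cancel₀ hc, one_smul]

end

end Pool.Agent.Q5.RG
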