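import Pool.Agent.H26.Lib.R_pool_sql_team_seeded_3997aac3.Q5.RG.DRel

/-! The descent of the isomorphism given by the regulator. -/

set_option autoImplicit false
set_option linter.unusedSectionVars false

namespace Pool.Agent.Q5.RG

open Module
open Pool.Agent.Q5.SO (fq)
open scoped Classical

section
variable {k R G κ κ' V U : Type} [Field k] [CharZero k] [Field R] [Algebra k R] [Group G] [Fintype G]
  [Fintype κ] [Fintype κ'] [AddCommGroup V] [Module k V] [AddCommGroup U] [Module R U]

/-- the invariants of a rational structure -/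
theorem basis_inv (ρV : Representation k G V) (ρU : Representation R G U)
    (θ : V →ₛₗ[algebraMap k R] U) (hθ : ∀ g v, θ (ρV g v) = ρU g (θ v)) (v : Basis κ k V)
    (hv : LinearIndependent R fun m => θ (v m)) (H : Subgroup G) (a : Basis κ' k (inv ρV H)) :
    (LinearIndependent R fun m => θ (a m : V)) ∧
      ∀ u ∈ inv ρU H, u ∈ Submodule.span R (Set.range fun m => θ (v m)) →
        u ∈ Submodule.span R (Set.range fun m => θ (a m : V)) := by
  have hI := isInv_cor ρV v H a
  have hE := hI.ext R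
  have hcor : ∀ y : κ' → R, ∑ m, y m • θ (a m : V) =
      ∑ l, (((cor v a).map (algebraMap k R)).mulVec y) l • θ (v l) := by
    intro y
    have h1 : ∀ m, θ (a m : V) = ∑ l, algebraMap k R (cor v a l m) • θ (v l) := by
      intro m
      conv_lhs => rw [← v.sum_repr (a m : V)]
      rw [map_sum]
      exact Finset.sum_congr rfl fun l _ => θ.map_smulₛₗ _ _
    simp only [h1, Finset.smul_sum]
    rw [Finset.sum_comm]
    refine Finset.sum_congr rfl fun l _ => ?_
    unfold Matrix.mulVec dotProduct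
    rw [Finset.sum_smul]
    refine Finset.sum_congr rfl fun m _ => ?_
    rw [smul_smul, mul_comm]
    rfl
  constructor
  · rw [Fintype.linearIndependent_iff]
    intro y hy
    rw [hcor] at hy
    have h1 := (Fintype.linearIndependent_iff.1 hv) _ hy
    have h2 : ((cor v a).map (algebraMap k R)).mulVec y =
        ((cor v a).map (algebraMap k R)).mulVec 0 := by
      rw [Matrix.mulVec_zero]
      exact funext h1
    exact fun m => congrFun (hE.1 h2) m
  · intro u hu hspan
    obtain ⟨x, hx⟩ := (Submodule.mem_span_range_iff_exists_fun R).1 hspan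
    have h1 : ∀ h ∈ H, (ext (S := R) (matR ρV v) h).mulVec x = x := by
      intro h hh
      have h2 : ρU h u = ∑ l, ((ext (S := R) (matR ρV v) h).mulVec x) l • θ (v l) := by
        rw [← hx, map_sum]
        have h3 : ∀ m, ρU h (x m • θ (v m)) =
            ∑ l, (x m * algebraMap k R (matR ρV v h l m)) • θ (v l) := by
          intro m
          rw [map_smul, ← hθ, matR_apply ρV v h m, map_sum, Finset.smul_sum]
          refine Finset.sum_congr rfl fun l _ => ?_
          rw [θ.map_smulₛₗ, smul_smul]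
        rw [Finset.sum_congr rfl fun m _ => h3 m, Finset.sum_comm]
        refine Finset.sum_congr rfl fun l _ => ?_
        unfold Matrix.mulVec dotProduct
        rw [Finset.sum_smul]
        refine Finset.sum_congr rfl fun m _ => ?_
        rw [mul_comm]
        rfl
      rw [hu h hh, ← hx] at h2
      exact (li_eq (η := θ) (w := fun m => v m) hv h2).symm
    obtain ⟨y, hy⟩ := (hE.2 x).1 h1
    rw [← hx, ← hy, ← hcor]
    exact Submodule.sum_mem _ fun m _ => Submodule.smul_mem _ _ (Submodule.subset_span ⟨m, rfl⟩)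

end

section
variable {k R Γ : Type} [Field k] [CharZero k] [Field R] [Algebra k R] [Group Γ] {M : Datum k R Γ}
  {N : Subgroup Γ} [N.Normal] [N.FiniteIndex]

theorem reg_descent (hB : IndepB M) {c₀ : R} (hN : IsReg M N c₀) (gN : GoodAt M N) {Δ : Subgroup Γ}
    (hle : N ≤ Δ) (gΔ : GoodAt M Δ) : ∃ c, IsReg M Δ c := by
  obtain ⟨θ, hθ, hθr⟩ := exists_lift hN
  have hfin : Finite (Γ ⧸ N) := inferInstance
  have := Fintype.ofFinite (Γ ⧸ N)
  obtain ⟨hc0, p₀, q₀, a₀, f₀, b₀, x₀, C₀, hx₀, hC₀, hd₀⟩ := hN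
  obtain ⟨D, hD, hDm⟩ := compare hθ hθr (le_refl N) gN.deR hx₀ hC₀
  have hD0 : D.det ≠ 0 := by
    rw [hD, hd₀]
    exact hc0
  -- the maps
  let θ' : (inv M.ρV N × inv M.ρΦ N) →ₛₗ[algebraMap k R] inv M.ρU N :=
    { toFun := fun u => θ u.1 + resI M.φ M.hφ N u.2
      map_add' := fun u v => by
        change θ (u.1 + v.1) + resI M.φ M.hφ N (u.2 + v.2) = _
        rw [map_add, map_add]
        abel
      map_smul' := fun t u => by
        change θ (t • u.1) + resI M.φ M.hφ N (t • u.2) = _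
        rw [θ.map_smulₛₗ, LinearMap.map_smulₛₗ, smul_add] }
  have hθ' : ∀ g u, θ' (prodRep (repQ M.ρV N) (repQ M.ρΦ N) g u) = repQ M.ρU N g (θ' u) := by
    intro g u
    change θ (repQ M.ρV N g u.1) + resI M.φ M.hφ N (repQ M.ρΦ N g u.2) =
        repQ M.ρU N g (θ u.1 + resI M.φ M.hφ N u.2)
    rw [hθ, resI_equiv, map_add]
  set v := a₀.prod f₀ with hv
  have hvD : ∀ m, ((θ' (v m) : inv M.ρU N) : M.U) = ∑ l, D l m • M.η (b₀ l) := by
    intro m
    rw [← hDm m]
    rcases m with m | m
    · rw [hv, Basis.prod_apply]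
      change ((θ (a₀ m) + resI M.φ M.hφ N 0 : inv M.ρU N) : M.U) = _
      rw [map_zero, add_zero]
      rfl
    · rw [hv, Basis.prod_apply]
      change ((θ 0 + resI M.φ M.hφ N (f₀ m) : inv M.ρU N) : M.U) = _
      rw [map_zero, zero_add]
      rfl
  have hLIb : LinearIndependent R fun l => M.η (b₀ l) :=
    hB (Fin p₀ ⊕ Fin q₀) (fun l => (b₀ l : M.B))
        (b₀.linearIndependent.map' (inv M.ρB N).subtype (Submodule.ker_subtype _))
  have hinv : D⁻¹ * D = 1 := Matrix.nonsing_inv_mul _ (isUnit_iff_ne_zero.2 hD0)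
  have hinv' : D * D⁻¹ = 1 := Matrix.mul_nonsing_inv _ (isUnit_iff_ne_zero.2 hD0)
  have hsum : ∀ y : Fin p₀ ⊕ Fin q₀ → R, ∑ m, y m • ((θ' (v m) : inv M.ρU N) : M.U) =
      ∑ l, (D.mulVec y) l • M.η (b₀ l) := by
    intro y
    simp only [hvD, Finset.smul_sum]
    rw [Finset.sum_comm]
    refine Finset.sum_congr rfl fun l _ => ?_
    unfold Matrix.mulVec dotProduct
    rw [Finset.sum_smul]
    refine Finset.sum_congr rfl fun m _ => ?_
    rw [smul_smul, mul_comm]
  have hLIv' : LinearIndependent R fun m => ((θ' (v m) : inv M.ρU N) : M.U) := by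
    rw [Fintype.linearIndependent_iff]
    intro y hy
    rw [hsum] at hy
    have h1 : D.mulVec y = 0 := funext ((Fintype.linearIndependent_iff.1 hLIb) _ hy)
    have h2 : (D⁻¹ * D).mulVec y = 0 := by
      rw [← Matrix.mulVec_mulVec, h1, Matrix.mulVec_zero]
    rw [hinv, Matrix.one_mulVec] at h2
    exact fun m => congrFun h2 m
  have hLIv : LinearIndependent R fun m => θ' (v m) :=
    LinearIndependent.of_comp (inv M.ρU N).subtype hLIv'
  have hspanv : ∀ u : inv M.ρU N, u ∈ Submodule.span R (Set.range fun m => θ' (v m)) := by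
    intro u
    have h1 := gN.span u.1 u.2
    have h2 : ∀ w ∈ inv M.ρB N, M.η w ∈ Submodule.span R
        (Set.range fun m => ((θ' (v m) : inv M.ρU N) : M.U)) := by
      intro w hw
      have h4 : w = ∑ m, b₀.repr ⟨w, hw⟩ m • (b₀ m : M.B) := by
        have h5 := congrArg Subtype.val (b₀.sum_repr ⟨w, hw⟩)
        rw [Submodule.coe_sum] at h5
        exact h5.symm
      have h6 : M.η w = ∑ m, algebraMap k R (b₀.repr ⟨w, hw⟩ m) • M.η (b₀ m) := by
        conv_lhs => rw [h4]
        rw [map_sum]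
        exact Finset.sum_congr rfl fun l _ => M.η.map_smulₛₗ _ _
      set t : Fin p₀ ⊕ Fin q₀ → R := fun m => algebraMap k R (b₀.repr ⟨w, hw⟩ m) with ht
      have h7 := hsum (D⁻¹.mulVec t)
      rw [Matrix.mulVec_mulVec, hinv', Matrix.one_mulVec] at h7
      rw [h6]
      change ∑ m, t m • M.η (b₀ m) ∈ _
      rw [← h7]
      exact Submodule.sum_mem _ fun m _ => Submodule.smul_mem _ _ (Submodule.subset_span ⟨m, rfl⟩)
    have h3 : (u : M.U) ∈ Submodule.span R
        (Set.range fun m => ((θ' (v m) : inv M.ρU N) : M.U)) := by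
      refine Submodule.span_le.2 ?_ h1
      rintro _ ⟨w, hw, rfl⟩
      exact h2 w hw
    obtain ⟨x, hx⟩ := (Submodule.mem_span_range_iff_exists_fun R).1 h3
    refine (Submodule.mem_span_range_iff_exists_fun R).2 ⟨x, Subtype.ext ?_⟩
    rw [Submodule.coe_sum]
    exact hx
  -- the finite dimensions
  have hfV : FiniteDimensional k (inv M.ρV N) := Module.Finite.of_basis a₀
  have hfΦ : FiniteDimensional k (inv M.ρΦ N) := Module.Finite.of_basis f₀
  have hfV' : FiniteDimensional k (inv M.ρV Δ) :=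
    Submodule.finiteDimensional_of_le (inv_mono M.ρV hle)
  have hfΦ' : FiniteDimensional k (inv M.ρΦ Δ) :=
    Submodule.finiteDimensional_of_le (inv_mono M.ρΦ hle)
  have hfB' : FiniteDimensional k (inv M.ρB Δ) := gΔ.fin
  let a := finBasis k (inv M.ρV Δ)
  let f := finBasis k (inv M.ρΦ Δ)
  let b' := finBasis k (inv M.ρB Δ)
  obtain ⟨hLI, hspan⟩ := basis_inv (prodRep (repQ M.ρV N) (repQ M.ρΦ N)) (repQ M.ρU N) θ' hθ' v hLIv
    (Δ.map (QuotientGroup.mk' N)) ((a.prod f).map (prodInv M.ρV M.ρΦ hle))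
  set w : Fin (finrank k (inv M.ρV Δ)) ⊕ Fin (finrank k (inv M.ρΦ Δ)) → M.U :=
    Sum.elim (fun l => (θ ⟨(a l : M.V), inv_mono M.ρV hle (a l).2⟩ : M.U))
      (fun l => M.φ (f l)) with hw
  have hwm : ∀ m, ((θ' (((a.prod f).map (prodInv M.ρV M.ρΦ hle)) m) : inv M.ρU N) : M.U) =
      w m := by
    intro m
    rcases m with m | m
    · rw [Basis.map_apply, Basis.prod_apply]
      change ((θ ⟨(a m : M.V), _⟩ + resI M.φ M.hφ N 0 : inv M.ρU N) : M.U) = _
      rw [map_zero, add_zero]
      rfl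
    · rw [Basis.map_apply, Basis.prod_apply]
      change ((θ 0 + resI M.φ M.hφ N ⟨(f m : M.Φ), _⟩ : inv M.ρU N) : M.U) = _
      rw [map_zero, zero_add]
      rfl
  have hwinv : ∀ m, w m ∈ inv M.ρU Δ := by
    intro m g hg
    rcases m with m | m
    · have h2 : repQ M.ρV N (g : Γ ⧸ N) ⟨(a m : M.V), inv_mono M.ρV hle (a m).2⟩ =
          ⟨(a m : M.V), inv_mono M.ρV hle (a m).2⟩ := Subtype.ext ((a m).2 g hg)
      have h3 := hθ (g : Γ ⧸ N) ⟨(a m : M.V), inv_mono M.ρV hle (a m).2⟩
      rw [h2] at h3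
      exact (congrArg Subtype.val h3).symm
    · change M.ρU g (M.φ (f m)) = M.φ (f m)
      rw [← M.hφ, (f m).2 g hg]
  have hwLI : LinearIndependent R w := by
    have h1 := hLI.map' (inv M.ρU N).subtype (Submodule.ker_subtype _)
    have h2 : w = fun m => ((θ' (((a.prod f).map (prodInv M.ρV M.ρΦ hle)) m) : inv M.ρU N) : M.U) :=
      funext fun m => (hwm m).symm
    rw [h2]
    exact h1
  have hwspan : ∀ u ∈ inv M.ρU Δ, u ∈ Submodule.span R (Set.range w) := by
    intro u hu
    have h1 := hspan ⟨u, inv_mono M.ρU hle hu⟩ (by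
      rintro _ ⟨g, hg, rfl⟩
      exact Subtype.ext (hu g hg)) (hspanv _)
    obtain ⟨x, hx⟩ := (Submodule.mem_span_range_iff_exists_fun R).1 h1
    refine (Submodule.mem_span_range_iff_exists_fun R).2 ⟨x, ?_⟩
    have h2 := congrArg Subtype.val hx
    rw [Submodule.coe_sum] at h2
    refine Eq.trans ?_ h2
    exact Finset.sum_congr rfl fun m _ => by
      rw [← hwm m]
      rfl
  -- the two bases of the invariants
  let w' : Fin (finrank k (inv M.ρV Δ)) ⊕ Fin (finrank k (inv M.ρΦ Δ)) → inv M.ρU Δ :=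
    fun m => ⟨w m, hwinv m⟩
  have hw'LI : LinearIndependent R w' := LinearIndependent.of_comp (inv M.ρU Δ).subtype hwLI
  have hlift : ∀ {κ : Type} [Fintype κ] (z : κ → inv M.ρU Δ) (u : inv M.ρU Δ),
      (u : M.U) ∈ Submodule.span R (Set.range fun m => (z m : M.U)) →
      u ∈ Submodule.span R (Set.range z) := by
    intro κ _ z u hu
    obtain ⟨x, hx⟩ := (Submodule.mem_span_range_iff_exists_fun R).1 hu
    refine (Submodule.mem_span_range_iff_exists_fun R).2 ⟨x, Subtype.ext ?_⟩
    rw [Submodule.coe_sum]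
    exact hx
  let bw : Basis _ R (inv M.ρU Δ) := Basis.mk hw'LI fun u _ => hlift w' u (hwspan u.1 u.2)
  let e' : Fin (finrank k (inv M.ρB Δ)) → inv M.ρU Δ := fun m => ⟨M.η (b' m), fun g hg => by
    rw [← M.hη, (b' m).2 g hg]⟩
  have he'LI : LinearIndependent R e' := by
    have h1 := hB (Fin (finrank k (inv M.ρB Δ))) (fun l => (b' l : M.B))
        (b'.linearIndependent.map' (inv M.ρB Δ).subtype (Submodule.ker_subtype _))
    exact LinearIndependent.of_comp (inv M.ρU Δ).subtype h1
  let be : Basis _ R (inv M.ρU Δ) := Basis.mk he'LI fun u _ => hlift e' u (by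
    refine Submodule.span_le.2 ?_ (gΔ.span u.1 u.2)
    rintro _ ⟨y, hy, rfl⟩
    have h4 : y = ∑ m, b'.repr ⟨y, hy⟩ m • (b' m : M.B) := by
      have h5 := congrArg Subtype.val (b'.sum_repr ⟨y, hy⟩)
      rw [Submodule.coe_sum] at h5
      exact h5.symm
    rw [h4, map_sum]
    refine Submodule.sum_mem _ fun m _ => ?_
    rw [LinearMap.map_smulₛₗ]
    exact Submodule.smul_mem _ _ (Submodule.subset_span ⟨m, rfl⟩))
  let ee := be.indexEquiv bw
  let b := b'.reindex ee
  let C : Matrix (Fin (finrank k (inv M.ρV Δ)) ⊕ Fin (finrank k (inv M.ρΦ Δ)))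
    (Fin (finrank k (inv M.ρV Δ)) ⊕ Fin (finrank k (inv M.ρΦ Δ))) R := (be.reindex ee).toMatrix bw
  have hC0 : C.det ≠ 0 := by
    intro h0
    have h1 := (be.reindex ee).toMatrix_mul_toMatrix_flip bw
    have h2 := congrArg Matrix.det h1
    rw [Matrix.det_mul, Matrix.det_one] at h2
    change C.det * _ = 1 at h2
    rw [h0, zero_mul] at h2
    exact zero_ne_one h2
  refine ⟨C.det, hC0, _, _, a, f, b, fun l => w (Sum.inl l), C, fun l => ⟨hwinv _, ?_⟩, fun m => ?_,
    rfl⟩
  · exact hθr _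
  · have h1 := congrArg Subtype.val ((be.reindex ee).sum_toMatrix_smul_self bw m)
    rw [Submodule.coe_sum] at h1
    have h2 : ((bw m : inv M.ρU Δ) : M.U) = w m := by
      change ((Basis.mk hw'LI _ m : inv M.ρU Δ) : M.U) = _
      rw [Basis.mk_apply]
    have h3 : Sum.elim (fun l => w (Sum.inl l)) (fun l => M.φ (f l)) m = w m := by
      rcases m with m | m <;> rfl
    rw [h3, ← h2, ← h1]
    refine Finset.sum_congr rfl fun l _ => ?_
    have h4 : (((be.reindex ee) l : inv M.ρU Δ) : M.U) = M.η (b l) := by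
      rw [Basis.reindex_apply, Basis.reindex_apply]
      change ((Basis.mk he'LI _ (ee.symm l) : inv M.ρU Δ) : M.U) = _
      rw [Basis.mk_apply]
    rw [← h4]
    rfl

end

end Pool.Agent.Q5.RG
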