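import Pool.Agent.H26.Lib.R_pool_sql_team_seeded_3997aac3.Q5.SO.Hyp

/-! The determinants of an equivariant map on the invariants of the subgroups in a relation. -/

set_option autoImplicit false
set_option linter.unusedSectionVars false

namespace Pool.Agent.Q5.RG

open Module
open Pool.Agent.Q5.SO (fq card_fq)
open scoped Classical

section
variable {R G U : Type} [Field R] [Group G] [AddCommGroup U] [Module R U]

theorem zprod {ι : Type} {x : R} (hx : x ≠ 0) (s : Finset ι) (a : ι → ℤ) :
    ∏ j ∈ s, x ^ (a j) = x ^ (∑ j ∈ s, a j) := by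
  induction s using Finset.induction_on with
  | empty => simp
  | insert j s hj ih => rw [Finset.prod_insert hj, Finset.sum_insert hj, ih, zpow_add₀ hx]

/-- the invariants of a subgroup -/
def inv (ρ : Representation R G U) (H : Subgroup G) : Submodule R U where
  carrier := {u | ∀ h ∈ H, ρ h u = u}
  zero_mem' := fun h _ => map_zero _
  add_mem' := fun {a b} ha hb h hh => by rw [map_add, ha h hh, hb h hh]
  smul_mem' := fun c x hx h hh => by rw [map_smul, hx h hh]

variable (ρ : Representation R G U) (H : Subgroup G)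

/-- the restriction to a subgroup -/
def res : Representation R H U := ρ.comp H.subtype

theorem inv_eq : inv ρ H = (res ρ H).invariants := by
  ext u
  constructor
  · intro h g
    exact h g.1 g.2
  · intro h g hg
    exact h ⟨g, hg⟩

variable [Fintype G] [CharZero R]

theorem card_fix [FiniteDimensional R U] :
    (Nat.card H : R) * (finrank R (inv ρ H) : R) = ∑ h : H, ρ.character h := by
  have hc0 : (Nat.card H : R) ≠ 0 := by exact_mod_cast Nat.card_pos.ne'
  let _ : Invertible (Nat.card H : R) := invertibleOfNonzero hc0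
  have h1 := Representation.card_inv_mul_sum_char_eq_finrank (res ρ H)
  rw [← inv_eq] at h1
  rw [← h1, ← mul_assoc, mul_inv_cancel₀ hc0, one_mul]
  rfl

/-- **The dimension of the invariants.** -/
theorem dim_sum [FiniteDimensional R U] :
    (Nat.card G : R) * (finrank R (inv ρ H) : R) = ∑ g : G, ρ.character g * (fq H g : R) := by
  have hc0 : (Nat.card H : R) ≠ 0 := by exact_mod_cast Nat.card_pos.ne'
  refine mul_left_cancel₀ hc0 ?_
  have h1 : ∀ g : G, (Nat.card H : R) * (fq H g : R) = ∑ a : G, if a⁻¹ * g * a ∈ H then 1 else 0 := by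
    intro g
    have h2 := card_fq H g
    have h3 : (((Nat.card H : ℤ) * fq H g : ℤ) : R) = (Nat.card {a : G // a⁻¹ * g * a ∈ H} : R) := by
      rw [h2]
      push_cast
      rfl
    push_cast at h3
    rw [h3, Finset.sum_boole, Nat.card_eq_fintype_card, Fintype.card_subtype]
  have h2 : ∀ a : G, ∑ g : G, (if a⁻¹ * g * a ∈ H then ρ.character g else 0) =
      ∑ h : H, ρ.character h := by
    intro a
    rw [← Equiv.sum_comp (MulAut.conj a).toEquiv]
    have h3 : ∀ g : G, (if a⁻¹ * (MulAut.conj a).toEquiv g * a ∈ H then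
        ρ.character ((MulAut.conj a).toEquiv g) else 0) = if g ∈ H then ρ.character g else 0 := by
      intro g
      change (if a⁻¹ * (a * g * a⁻¹) * a ∈ H then ρ.character (a * g * a⁻¹) else 0) = _
      have h4 : a⁻¹ * (a * g * a⁻¹) * a = g := by group
      rw [h4, Representation.char_conj]
    rw [Finset.sum_congr rfl fun g _ => h3 g, ← Finset.sum_filter]
    have h5 : ∀ g : G, g ∈ Finset.univ.filter (fun g : G => g ∈ H) ↔ g ∈ H := by
      intro g
      simp
    rw [Finset.sum_subtype _ h5 (fun g => ρ.character g)]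
  calc (Nat.card H : R) * ((Nat.card G : R) * (finrank R (inv ρ H) : R))
      = (Nat.card G : R) * ∑ h : H, ρ.character h := by rw [← card_fix]; ring
    _ = ∑ a : G, ∑ g : G, (if a⁻¹ * g * a ∈ H then ρ.character g else 0) := by
        rw [Finset.sum_congr rfl fun a _ => h2 a, Finset.sum_const, Finset.card_univ,
          nsmul_eq_mul, Nat.card_eq_fintype_card]
    _ = ∑ g : G, ∑ a : G, (if a⁻¹ * g * a ∈ H then ρ.character g else 0) := Finset.sum_comm
    _ = (Nat.card H : R) * ∑ g : G, ρ.character g * (fq H g : R) := by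
        rw [Finset.mul_sum]
        refine Finset.sum_congr rfl fun g _ => ?_
        rw [mul_left_comm, h1 g, Finset.mul_sum]
        refine Finset.sum_congr rfl fun a _ => ?_
        rw [mul_ite, mul_one, mul_zero]

/-- **The dimensions in a relation.** -/
theorem dim_rel [FiniteDimensional R U] {ι : Type} [Fintype ι] (H : ι → Subgroup G) (n : ι → ℤ)
    (h : ∀ g, ∑ j, n j * fq (H j) g = 0) : ∑ j, n j * (finrank R (inv ρ (H j)) : ℤ) = 0 := by
  have hG : (Nat.card G : R) ≠ 0 := by exact_mod_cast Nat.card_pos.ne'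
  have h1 : (Nat.card G : R) * ((∑ j, n j * (finrank R (inv ρ (H j)) : ℤ) : ℤ) : R) = 0 := by
    push_cast
    rw [Finset.mul_sum]
    have h2 : ∀ j, (Nat.card G : R) * ((n j : R) * (finrank R (inv ρ (H j)) : R)) =
        ∑ g : G, ρ.character g * ((n j : R) * (fq (H j) g : R)) := by
      intro j
      rw [mul_left_comm, dim_sum, Finset.mul_sum]
      exact Finset.sum_congr rfl fun g _ => by ring
    rw [Finset.sum_congr rfl fun j _ => h2 j, Finset.sum_comm]
    refine Finset.sum_eq_zero fun g _ => ?_
    rw [← Finset.mul_sum]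
    have h3 := congrArg (fun z : ℤ => (z : R)) (h g)
    push_cast at h3
    rw [h3, mul_zero]
  exact_mod_cast (mul_eq_zero.1 h1).resolve_left hG

/-- the restriction to the invariants -/
theorem maps_inv {T : U →ₗ[R] U} (hT : ∀ g u, T (ρ g u) = ρ g (T u)) (u : U) (hu : u ∈ inv ρ H) :
    T u ∈ inv ρ H := fun h hh => by rw [← hT, hu h hh]

/-- the restriction to the generalized eigenspaces -/
noncomputable def repE {T : U →ₗ[R] U} (hT : ∀ g u, T (ρ g u) = ρ g (T u)) (μ : R) :
    Representation R G (Module.End.maxGenEigenspace T μ) where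
  toFun g := (ρ g).restrict (Module.End.mapsTo_maxGenEigenspace_of_comm (f := T) (g := ρ g)
    (LinearMap.ext fun u => hT g u) μ)
  map_one' := by
    ext u
    change ρ 1 u.1 = u.1
    rw [map_one]
    rfl
  map_mul' g h := by
    ext u
    change ρ (g * h) u.1 = ρ g (ρ h u.1)
    rw [map_mul]
    rfl

theorem finrank_gen {T : U →ₗ[R] U} (hT : ∀ g u, T (ρ g u) = ρ g (T u)) (μ : R) :
    finrank R (Module.End.maxGenEigenspace (T.restrict (maps_inv ρ H hT)) μ) =
      finrank R (inv (repE ρ hT μ) H) := by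
  have hpow : ∀ (n : ℕ) (u : inv ρ H), (((T.restrict (maps_inv ρ H hT) - μ • 1) ^ n) u : inv ρ H) =
      (((T - μ • 1) ^ n) (u : U) : U) := by
    intro n
    induction n with
    | zero => intro u; rfl
    | succ n ih =>
      intro u
      rw [pow_succ, pow_succ]
      change ((((T.restrict (maps_inv ρ H hT) - μ • 1) ^ n)
        ((T.restrict (maps_inv ρ H hT) - μ • 1) u) : inv ρ H) : U) = _
      rw [ih]
      rfl
  have e : Module.End.maxGenEigenspace (T.restrict (maps_inv ρ H hT)) μ ≃ₗ[R]
      inv (repE ρ hT μ) H :=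
    { toFun := fun u => ⟨⟨u.1.1, by
          obtain ⟨n, hn⟩ := (Module.End.mem_maxGenEigenspace _ _ _).1 u.2
          exact (Module.End.mem_maxGenEigenspace _ _ _).2 ⟨n, by
            rw [← hpow n u.1, hn]
            rfl⟩⟩, fun h hh => Subtype.ext (u.1.2 h hh)⟩
      invFun := fun u => ⟨⟨u.1.1, fun h hh => congrArg Subtype.val (u.2 h hh)⟩, by
          obtain ⟨n, hn⟩ := (Module.End.mem_maxGenEigenspace _ _ _).1 u.1.2
          exact (Module.End.mem_maxGenEigenspace _ _ _).2 ⟨n, Subtype.ext (by
            rw [hpow]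
            exact hn)⟩⟩
      map_add' := fun u v => rfl
      map_smul' := fun c u => rfl
      left_inv := fun u => rfl
      right_inv := fun u => rfl }
  exact e.finrank_eq

/-- **The determinants in a relation.** -/
theorem det_rel [IsAlgClosed R] [FiniteDimensional R U] {T : U →ₗ[R] U}
    (hT : ∀ g u, T (ρ g u) = ρ g (T u)) (hT0 : LinearMap.det T ≠ 0) {ι : Type} [Fintype ι]
    (H : ι → Subgroup G) (n : ι → ℤ) (h : ∀ g, ∑ j, n j * fq (H j) g = 0) :
    ∏ j, (LinearMap.det (T.restrict (maps_inv ρ (H j) hT))) ^ (n j) = 1 := by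
  have hinj : Function.Injective T := by
    have h1 : LinearMap.ker T = ⊥ := by
      by_contra hcon
      exact hT0 (LinearMap.det_eq_zero_iff_ker_ne_bot.2 hcon)
    exact LinearMap.ker_eq_bot.1 h1
  set TT := fun j => T.restrict (maps_inv ρ (H j) hT) with hTT
  let Λ : Finset R := Finset.univ.biUnion fun j => (TT j).charpoly.roots.toFinset
  have h0 : ∀ μ ∈ Λ, μ ≠ 0 := by
    intro μ hμ h0
    obtain ⟨j, -, hj⟩ := Finset.mem_biUnion.1 hμ
    rw [Multiset.mem_toFinset, Polynomial.mem_roots'] at hj
    have h1 := hj.2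
    rw [h0, ← Module.End.hasEigenvalue_iff_isRoot_charpoly] at h1
    obtain ⟨u, hu⟩ := h1.exists_hasEigenvector
    have h2 := hu.apply_eq_smul
    rw [zero_smul] at h2
    refine hu.2 (Subtype.ext (hinj ?_))
    rw [show T (u : U) = ((TT j u : inv ρ (H j)) : U) from rfl, h2]
    simp
  have hdet : ∀ j, LinearMap.det (TT j) =
      ∏ μ ∈ Λ, μ ^ (finrank R (inv (repE ρ hT μ) (H j))) := by
    intro j
    rw [Module.End.det_eq_prod_roots_charpoly_of_splits (IsAlgClosed.splits _),
      Finset.prod_multiset_count_of_subset _ Λ (by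
        intro μ hμ
        exact Finset.mem_biUnion.2 ⟨j, Finset.mem_univ _, hμ⟩)]
    refine Finset.prod_congr rfl fun μ _ => ?_
    rw [← finrank_gen, LinearMap.finrank_maxGenEigenspace_eq, Polynomial.count_roots]
  calc ∏ j, (LinearMap.det (TT j)) ^ (n j)
      = ∏ j, ∏ μ ∈ Λ, μ ^ (n j * (finrank R (inv (repE ρ hT μ) (H j)) : ℤ)) := by
        refine Finset.prod_congr rfl fun j _ => ?_
        rw [hdet, ← Finset.prod_zpow]
        refine Finset.prod_congr rfl fun μ _ => ?_
        rw [← zpow_natCast, ← zpow_mul, mul_comm]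
    _ = ∏ μ ∈ Λ, ∏ j, μ ^ (n j * (finrank R (inv (repE ρ hT μ) (H j)) : ℤ)) := Finset.prod_comm
    _ = ∏ μ ∈ Λ, μ ^ (∑ j, n j * (finrank R (inv (repE ρ hT μ) (H j)) : ℤ)) := by
        refine Finset.prod_congr rfl fun μ hμ => ?_
        exact zprod (h0 μ hμ) _ _
    _ = 1 := by
        refine Finset.prod_eq_one fun μ _ => ?_
        rw [dim_rel (repE ρ hT μ) H n h, zpow_zero]

end

end Pool.Agent.Q5.RG
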