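import Pool.Agent.H26.Lib.R_pool_sql_team_seeded_3997aac3.Q5.RG.Law

/-! Families of number fields: the descent of the regulators and the values. -/

set_option autoImplicit false
set_option linter.unusedSectionVars false

namespace Pool.Agent.Q5.RG

open Module NumberField Pool.Agent.W353.NF Pool.Agent.W401.Cheb Pool.Agent.Q5.BR
open Pool.Agent.Q5.SO (Hyper)
open scoped Classical

/-- the relation between the subfields of a Galois extension -/
theorem hyper_relation' (L : Type) [Field L] [NumberField L] (F : Type) [Field F] [NumberField F]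
    [Algebra F L] [IsGalois F L] :
    ∃ (ι : Type) (_ : Fintype ι) (Y : ι → Ext F) (_ : ∀ j, Algebra (Y j).F L) (n : ι → ℤ),
      (∀ j, IsScalarTower F (Y j).F L) ∧ (∀ j, Hyper (L ≃ₐ[(Y j).F] L)) ∧
      ∀ σ : GK F, ∑ j, n j * (fixn F (Y j).F σ : ℤ) = 1 := by
  have hfd : FiniteDimensional F L := by
    have : IsScalarTower ℚ F L := inferInstance
    exact FiniteDimensional.right ℚ F L
  let i : L →ₐ[F] AlgebraicClosure F := IsAlgClosed.lift
  let N : IntermediateField F (AlgebraicClosure F) := i.fieldRange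
  let e : L ≃ₐ[F] N := AlgEquiv.ofInjectiveField i
  have hfdN : FiniteDimensional F N := LinearEquiv.finiteDimensional e.toLinearEquiv
  have hnor : Normal F N := Normal.of_algEquiv e
  obtain ⟨ι, hι, B, n, hB, hrel⟩ := SO.solomon_relation N
  have hnf : ∀ j, NumberField (IntermediateField.fixedField (B j)) := fun j =>
    NumberField.of_module_finite F _
  let Y : ι → Ext F := fun j => @Ext.mk F _ _ (IntermediateField.fixedField (B j)) _ (hnf j) _
  let a : ∀ j, Algebra (Y j).F L := fun j =>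
    ((e.symm : N →+* L).comp (algebraMap (IntermediateField.fixedField (B j)) N)).toAlgebra
  refine ⟨ι, hι, Y, a, n, fun j => ?_, fun j => ?_, hrel⟩
  · let _ := a j
    refine IsScalarTower.of_algebraMap_eq fun x => ?_
    change algebraMap F L x = e.symm (algebraMap F N x)
    rw [e.symm.commutes]
  · refine DP.hyper_of_equiv ?_ (hB j)
    let e₁ : B j ≃* (N ≃ₐ[IntermediateField.fixedField (B j)] N) :=
      (MulEquiv.subgroupCongr (IntermediateField.fixingSubgroup_fixedField (B j)).symm).trans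
        (IntermediateField.fixingSubgroupEquiv (IntermediateField.fixedField (B j)))
    let _ := a j
    let e₂ : N ≃ₐ[IntermediateField.fixedField (B j)] L :=
      AlgEquiv.ofRingEquiv (f := (e.symm : N ≃+* L)) fun x => rfl
    exact e₁.trans (AlgEquiv.autCongr e₂)

section
variable {K : Type} [Field K] [NumberField K] {M : Datum ℚ ℝ (GK K)} {𝒱 : Vals K}

theorem Reg.congr {F F' : Type} [Field F] [Algebra K F] [Field F'] [Algebra K F'] (e : F ≃ₐ[K] F')
    {c : ℝ} (h : Reg M F c) : Reg M F' c := by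
  obtain ⟨i, hi⟩ := h
  refine ⟨i.comp (e.symm : F' →ₐ[K] F), ?_⟩
  have h1 : stabE (i.comp (e.symm : F' →ₐ[K] F)) = stabE i := by
    ext σ
    constructor
    · intro h x
      have h2 := h (e x)
      change σ (i (e.symm (e x))) = i (e.symm (e x)) at h2
      rwa [AlgEquiv.symm_apply_apply] at h2
    · intro h x
      exact h (e.symm x)
  rwa [h1]

theorem conj_of_law {F : Type} [Field F] [NumberField F] [Algebra K F] (h : LawP M 𝒱 F 1) :
    Conj M 𝒱 F := by
  refine ⟨h.1 one_ne_zero F, fun c ℓ hc hℓ => ?_⟩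
  obtain ⟨q, hq, h1⟩ := h.2 c ℓ hc hℓ
  refine ⟨q, hq, ?_⟩
  rw [zpow_one] at h1
  have h2 : (c : ℂ) ≠ 0 := by exact_mod_cast hc.ne
  rw [← h1, div_mul_cancel₀ _ h2]

theorem law_of_conj {F : Type} [Field F] [NumberField F] [Algebra K F] (h : Conj M 𝒱 F)
    (h1 : ∀ (F' : Type) [Field F'] [NumberField F'] [Algebra F F'] [Algebra K F']
      [IsScalarTower K F F'], ∃ c, Reg M F' c) : LawP M 𝒱 F 1 := by
  refine ⟨fun _ => h1, fun c ℓ hc hℓ => ?_⟩
  obtain ⟨q, hq, h2⟩ := h.2 c ℓ hc hℓ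
  refine ⟨q, hq, ?_⟩
  have h3 : (c : ℂ) ≠ 0 := by exact_mod_cast hc.ne
  rw [zpow_one, h2, mul_div_cancel_right₀ _ h3]

/-- **The degrees.** -/
theorem conj_sparse (hM : GoodM M) {D : Set ℕ}
    (hD : ∀ d ∈ D, ∀ n : ℕ, 0 < n → d * n ∈ D) (hD' : ∀ g : ℕ, (∀ d ∈ D, g ∣ d) → g = 1)
    (h : ∀ (F : Type) [Field F] [NumberField F] [Algebra K F], finrank K F ∈ D → Conj M 𝒱 F)
    (F : Type) [Field F] [NumberField F] [Algebra K F] : Conj M 𝒱 F := by
  refine conj_of_law (VL.gen_sparse_law (K := K) (lawP_isLaw hM) hD hD' ?_ F)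
  intro F' _ _ _ hF'
  refine law_of_conj (h F' hF') fun F'' _ _ _ _ _ => ?_
  refine (h F'' ?_).1
  rw [← finrank_mul_finrank K F' F'']
  have : FiniteDimensional F' F'' := by
    have : IsScalarTower ℚ F' F'' := inferInstance
    exact FiniteDimensional.right ℚ F' F''
  exact hD _ hF' _ finrank_pos

theorem conj_degree (hM : GoodM M) {N : ℕ}
    (h : ∀ (F : Type) [Field F] [NumberField F] [Algebra K F], N ∣ finrank K F → Conj M 𝒱 F)
    (F : Type) [Field F] [NumberField F] [Algebra K F] (hN : N ≠ 0) :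
    (∃ c, Reg M F c) ∧ ∀ (c : ℝ) (ℓ : ℂ), Reg M F c → 𝒱.Val F ℓ →
      ∃ q : ℚ, q ≠ 0 ∧ (ℓ / c) ^ (N / N.gcd (finrank K F)) = q := by
  have h2 := VL.gen_power_law' (K := K) (M := N) (lawP_isLaw (𝒱 := 𝒱) hM) (by
    intro F' _ _ _ hF'
    refine law_of_conj (h F' hF') fun F'' _ _ _ _ _ => ?_
    refine (h F'' ?_).1
    rw [← finrank_mul_finrank K F' F'']
    exact hF'.mul_right _) F
  refine ⟨h2.1 ?_ F, fun c ℓ hc hℓ => ?_⟩
  · have h3 : 0 < N / N.gcd (finrank K F) :=
      Nat.div_pos (Nat.gcd_le_left _ (Nat.pos_of_ne_zero hN))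
        (Nat.gcd_pos_of_pos_left _ (Nat.pos_of_ne_zero hN))
    exact_mod_cast h3.ne'
  · obtain ⟨q, hq, h3⟩ := h2.2 c ℓ hc hℓ
    exact ⟨q, hq, by rw [← h3, zpow_natCast]⟩

/-- **Wide families.** -/
theorem conj_wide (hM : GoodM M) {𝓕 : Set (IntermediateField K (AlgebraicClosure K))}
    (hF : HR.Wide 𝓕) (h : ∀ F ∈ 𝓕, ∀ [NumberField F], Conj M 𝒱 F) :
    ∃ m : ℕ, 0 < m ∧ (∃ c, Reg M K c) ∧ ∀ (c : ℝ) (ℓ : ℂ), Reg M K c → 𝒱.Val K ℓ →
      ∃ q : ℚ, q ≠ 0 ∧ (ℓ / c) ^ m = q := by
  obtain ⟨m, hm, hlaw⟩ := VL.wide_law hF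
  have h2 := hlaw _ (lawP_isLaw (𝒱 := 𝒱) hM) 1 (by
    intro F hFF hnf
    refine law_of_conj (h F hFF) fun F' _ _ _ _ _ => ?_
    have hfd' : FiniteDimensional F F' := by
      have : IsScalarTower ℚ F F' := inferInstance
      exact FiniteDimensional.right ℚ F F'
    let i : F' →ₐ[F] AlgebraicClosure K := IsAlgClosed.lift
    let i' : F' →ₐ[K] AlgebraicClosure K := i.restrictScalars K
    have hle : F ≤ i'.fieldRange := by
      intro x hx
      refine ⟨algebraMap F F' ⟨x, hx⟩, ?_⟩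
      exact i.commutes ⟨x, hx⟩
    let e : F' ≃ₐ[K] i'.fieldRange := AlgEquiv.ofInjectiveField i'
    have hfd2 : FiniteDimensional K i'.fieldRange :=
      LinearEquiv.finiteDimensional e.toLinearEquiv
    have hnf' : NumberField i'.fieldRange := NumberField.of_module_finite K _
    obtain ⟨c, hc⟩ := (h _ (hF.2.1 F hFF i'.fieldRange hfd2 hle)).1
    exact ⟨c, Reg.congr e.symm hc⟩)
  rw [mul_one] at h2
  refine ⟨m, hm, h2.1 (by exact_mod_cast hm.ne') K, fun c ℓ hc hℓ => ?_⟩
  obtain ⟨q, hq, h3⟩ := h2.2 c ℓ hc hℓ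
  exact ⟨q, hq, by rw [← h3, zpow_natCast]⟩

end

section
variable {K : Type} [Field K] [NumberField K] {M : Datum ℚ ℝ (GK K)} {𝒱 : Vals K}

/-- **The descent from the hyperelementary subgroups.** -/
theorem conj_hyper (hM : GoodM M) (L : Type) [Field L] [NumberField L] [Algebra K L] [IsGalois K L]
    (h : ∀ (F : Type) [Field F] [NumberField F] [Algebra K F] [Algebra F L] [IsScalarTower K F L],
      Hyper (L ≃ₐ[F] L) → Conj M 𝒱 F)
    (F : Type) [Field F] [NumberField F] [Algebra K F] [Algebra F L] [IsScalarTower K F L] :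
    Conj M 𝒱 F := by
  have hgal : IsGalois F L := IsGalois.tower_top_of_isGalois K F L
  -- the field itself
  have hL : Hyper (L ≃ₐ[L] L) := by
    have hs : Subsingleton (L ≃ₐ[L] L) := ⟨fun a b => AlgEquiv.ext fun x => by
      have h1 := a.commutes x
      have h2 := b.commutes x
      exact h1.trans h2.symm⟩
    refine ⟨2, Nat.prime_two, ⊥, inferInstance, inferInstance, ?_, fun g => ⟨0, ?_⟩⟩
    · rw [Subgroup.card_bot]
      exact Nat.coprime_one_right 2
    · rw [Subsingleton.elim (g ^ 2 ^ 0) 1]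
      exact Subgroup.one_mem _
  obtain ⟨⟨c₀, hc₀⟩, -⟩ := h L hL
  let i : L →ₐ[K] AlgebraicClosure K := IsAlgClosed.lift
  let N : IntermediateField K (AlgebraicClosure K) := i.fieldRange
  let e : L ≃ₐ[K] N := AlgEquiv.ofInjectiveField i
  have hfdL : FiniteDimensional K L := inferInstance
  have hfdN : FiniteDimensional K N := LinearEquiv.finiteDimensional e.toLinearEquiv
  have hnor : Normal K N := Normal.of_algEquiv e
  have hN : Reg M N c₀ := hc₀.congr e
  have hsub : ∀ (F' : Type) [Field F'] [NumberField F'] [Algebra K F'] [Algebra F' L]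
      [IsScalarTower K F' L] (j : F' →ₐ[K] AlgebraicClosure K), j.fieldRange ≤ N := by
    intro F' _ _ _ _ _ j
    let _ : Algebra F' (AlgebraicClosure K) := j.toRingHom.toAlgebra
    have hst : IsScalarTower K F' (AlgebraicClosure K) :=
      IsScalarTower.of_algebraMap_eq fun x => (j.commutes x).symm
    have hfd' : FiniteDimensional F' L := by
      have : IsScalarTower ℚ F' L := inferInstance
      exact FiniteDimensional.right ℚ F' L
    let f : L →ₐ[F'] AlgebraicClosure K := IsAlgClosed.lift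
    let f' : N →ₐ[K] AlgebraicClosure K := (f.restrictScalars K).comp (e.symm : N →ₐ[K] L)
    have h1 : f'.fieldRange = N := AlgHom.fieldRange_of_normal f'
    rintro _ ⟨x, rfl⟩
    refine h1.le ⟨e (algebraMap F' L x), ?_⟩
    change f (e.symm (e (algebraMap F' L x))) = j x
    rw [AlgEquiv.symm_apply_apply]
    exact f.commutes x
  obtain ⟨ι, hι, Y, a, n, hst, hY, hrel⟩ := hyper_relation' L F
  let _ : ∀ j, Algebra K (Y j).F := fun j =>
    ((algebraMap F (Y j).F).comp (algebraMap K F)).toAlgebra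
  have hst1 : ∀ j, IsScalarTower K F (Y j).F := fun j =>
    IsScalarTower.of_algebraMap_eq fun x => rfl
  have hst2 : ∀ j, @IsScalarTower K (Y j).F L _ (a j).toSMul _ := fun j => by
    let _ := a j
    have := hst j
    refine IsScalarTower.of_algebraMap_eq fun x => ?_
    rw [IsScalarTower.algebraMap_apply K F (Y j).F, ← IsScalarTower.algebraMap_apply F (Y j).F L,
      ← IsScalarTower.algebraMap_apply K F L]
  refine ⟨?_, fun c ℓ hc hℓ => ?_⟩
  · obtain ⟨c, hc⟩ := reg_sub hM hN (F := F) IsAlgClosed.lift (hsub F _)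
    exact ⟨c, _, hc⟩
  · obtain ⟨q, hq, h1⟩ := law_step (𝒱 := 𝒱) hM F hrel (t := 1) (hsub F) (fun j i => by
      let _ := a j
      have := hst2 j
      exact hsub (Y j).F i) hN (fun j c ℓ hc hℓ => by
      let _ := a j
      have := hst2 j
      obtain ⟨q, hq, h2⟩ := (h (Y j).F (hY j)).2 c ℓ hc hℓ
      refine ⟨q, hq, ?_⟩
      have h3 : (c : ℂ) ≠ 0 := by exact_mod_cast hc.ne
      rw [zpow_one, h2, mul_div_cancel_right₀ _ h3]) c ℓ hc hℓ
    refine ⟨q, hq, ?_⟩
    rw [one_mul, zpow_one] at h1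
    have h2 : (c : ℂ) ≠ 0 := by exact_mod_cast hc.ne
    rw [← h1, div_mul_cancel₀ _ h2]

theorem sup_mem {𝓕 : Set (IntermediateField K (AlgebraicClosure K))}
    (hsup : ∀ F ∈ 𝓕, ∀ F' ∈ 𝓕, F ⊔ F' ∈ 𝓕) {ι : Type} [Finite ι] [Nonempty ι]
    (F : ι → IntermediateField K (AlgebraicClosure K)) (h : ∀ j, F j ∈ 𝓕) : (⨆ j, F j) ∈ 𝓕 := by
  have := Fintype.ofFinite ι
  have key : ∀ s : Finset ι, s.Nonempty → (⨆ j ∈ s, F j) ∈ 𝓕 := by
    intro s hs
    induction hs using Finset.Nonempty.cons_induction with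
    | singleton a => simpa using h a
    | cons a s ha hs ih =>
      rw [Finset.cons_eq_insert, Finset.iSup_insert]
      exact hsup _ (h a) _ ih
  have h1 := key Finset.univ Finset.univ_nonempty
  simpa using h1

/-- **The families closed under composita.** -/
theorem conj_exact (hM : GoodM M) {𝓕 : Set (IntermediateField K (AlgebraicClosure K))}
    (hF : SO.Exact 𝓕) (h : ∀ F ∈ 𝓕, ∀ [NumberField F], Conj M 𝒱 F) : Conj M 𝒱 K := by
  obtain ⟨ι, hι, F, n, hFj, hrel⟩ := SO.exact_relation hF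
  have hfd : ∀ j, FiniteDimensional K (F j) := fun j => hF.1 _ (hFj j)
  have hnf : ∀ j, NumberField (F j) := fun j => NumberField.of_module_finite K _
  have hne : Nonempty ι := by
    by_contra hcon
    rw [not_nonempty_iff] at hcon
    have h1 := hrel 1
    rw [Finset.univ_eq_empty, Finset.sum_empty] at h1
    exact zero_ne_one h1
  let Y : ι → Ext K := fun j => @Ext.mk K _ _ (F j) _ (hnf j) _
  let J : Type := (j : ι) × (F j →ₐ[K] AlgebraicClosure K)
  have hJ : Finite J := inferInstance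
  have hJne : Nonempty J := by
    obtain ⟨j⟩ := hne
    exact ⟨⟨j, (F j).val⟩⟩
  let N : IntermediateField K (AlgebraicClosure K) := ⨆ x : J, x.2.fieldRange
  have hN𝓕 : N ∈ 𝓕 := sup_mem hF.2.2.1 (fun x : J => x.2.fieldRange) fun x =>
    hF.2.1 (F x.1) (hFj x.1) _ ⟨AlgEquiv.ofInjectiveField x.2⟩
  have hfdN : FiniteDimensional K N := hF.1 _ hN𝓕
  have hNeq : N = ⨆ j, IntermediateField.normalClosure K (F j) (AlgebraicClosure K) := by
    apply le_antisymm
    · exact iSup_le fun x => (AlgHom.fieldRange_le_normalClosure x.2).trans (le_iSup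
        (fun j => IntermediateField.normalClosure K (F j) (AlgebraicClosure K)) x.1)
    · refine iSup_le fun j => ?_
      unfold IntermediateField.normalClosure
      exact iSup_le fun f => le_iSup (fun x : J => x.2.fieldRange) ⟨j, f⟩
  have hnor : Normal K N := by
    rw [hNeq]
    have : ∀ j, Normal K (IntermediateField.normalClosure K (F j) (AlgebraicClosure K)) :=
      fun j => inferInstance
    exact IntermediateField.normal_iSup (F := K) (K := AlgebraicClosure K)
      (t := fun j => IntermediateField.normalClosure K (F j) (AlgebraicClosure K))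
  have hnfN : NumberField N := NumberField.of_module_finite K N
  obtain ⟨⟨c₀, hc₀⟩, -⟩ := h N hN𝓕
  have hK : ∀ i : K →ₐ[K] AlgebraicClosure K, i.fieldRange ≤ N := by
    rintro i _ ⟨x, rfl⟩
    have : i x = algebraMap K _ x := i.commutes x
    change i x ∈ N
    rw [this]
    exact N.algebraMap_mem x
  refine ⟨?_, fun c ℓ hc hℓ => ?_⟩
  · obtain ⟨c, hc⟩ := reg_sub hM hc₀ (F := K) IsAlgClosed.lift (hK _)
    exact ⟨c, _, hc⟩
  · obtain ⟨q, hq, h1⟩ := law_step (𝒱 := 𝒱) (Y := Y) hM K hrel (t := 1) hK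
      (fun j i => le_iSup (fun x : J => x.2.fieldRange) ⟨j, i⟩) hc₀ (fun j c ℓ hc hℓ => by
      obtain ⟨q, hq, h2⟩ := (h (F j) (hFj j)).2 c ℓ hc hℓ
      refine ⟨q, hq, ?_⟩
      have h3 : (c : ℂ) ≠ 0 := by exact_mod_cast hc.ne
      rw [zpow_one, h2, mul_div_cancel_right₀ _ h3]) c ℓ hc hℓ
    refine ⟨q, hq, ?_⟩
    rw [one_mul, zpow_one] at h1
    have h2 : (c : ℂ) ≠ 0 := by exact_mod_cast hc.ne
    rw [← h1, div_mul_cancel₀ _ h2]

end

end Pool.Agent.Q5.RG
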