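import Pool.Agent.H26.Lib.R_pool_sql_team_seeded_3997aac3.Q5.RG.LV

/-! The subfields of a Galois extension: relations between regulators and values. -/

set_option autoImplicit false
set_option linter.unusedSectionVars false

namespace Pool.Agent.Q5.RG

open Module NumberField Pool.Agent.W353.NF Pool.Agent.W401.Cheb Pool.Agent.Q5.BR
open scoped Classical

section
variable {K : Type} [Field K] [NumberField K] {M : Datum ℚ ℝ (GK K)} {𝒱 : Vals K}

/-- a Galois extension inside the algebraic closure -/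
theorem top_field (L : Type) [Field L] [NumberField L] [Algebra K L] [IsGalois K L] {c₀ : ℝ}
    (h : Reg M L c₀) : ∃ N : IntermediateField K (AlgebraicClosure K), FiniteDimensional K N ∧
      Normal K N ∧ Reg M N c₀ ∧ ∀ (F' : Type) [Field F'] [NumberField F'] [Algebra K F']
        [Algebra F' L] [IsScalarTower K F' L] (j : F' →ₐ[K] AlgebraicClosure K),
        j.fieldRange ≤ N := by
  let i : L →ₐ[K] AlgebraicClosure K := IsAlgClosed.lift
  let N : IntermediateField K (AlgebraicClosure K) := i.fieldRange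
  let e : L ≃ₐ[K] N := AlgEquiv.ofInjectiveField i
  have hfdL : FiniteDimensional K L := inferInstance
  have hfdN : FiniteDimensional K N := LinearEquiv.finiteDimensional e.toLinearEquiv
  have hnor : Normal K N := Normal.of_algEquiv e
  refine ⟨N, hfdN, hnor, h.congr e, ?_⟩
  intro F' _ _ _ _ _ j
  let _ : Algebra F' (AlgebraicClosure K) := j.toRingHom.toAlgebra
  have hst : IsScalarTower K F' (AlgebraicClosure K) :=
    IsScalarTower.of_algebraMap_eq fun x => (j.commutes x).symm
  have hfd' : FiniteDimensional F' L := by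
    have : IsScalarTower ℚ F' L := inferInstance
    exact FiniteDimensional.right ℚ F' L
  let f : L →ₐ[F'] AlgebraicClosure K := IsAlgClosed.lift
  let f' : N →ₐ[K] AlgebraicClosure K := (f.restrictScalars K).comp (e.symm : N →ₐ[K] L)
  have h1 : f'.fieldRange = N := AlgHom.fieldRange_of_normal f'
  rintro _ ⟨x, rfl⟩
  refine h1.le ⟨e (algebraMap F' L x), ?_⟩
  change f (e.symm (e (algebraMap F' L x))) = j x
  rw [AlgEquiv.symm_apply_apply]
  exact f.commutes x

/-- the number of the embeddings fixed by an automorphism -/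
noncomputable def fixe (F : Type) [Field F] [Algebra K F] (σ : Gal(AlgebraicClosure K/K)) : ℕ :=
  Nat.card {i : F →ₐ[K] AlgebraicClosure K // ∀ x, σ (i x) = i x}

theorem fixe_eq (F : Type) [Field F] [NumberField F] [Algebra K F] (σ : GK K) :
    fixe F σ = fixn K F σ := by
  unfold fixe fixn
  refine Nat.card_congr (Equiv.subtypeEquivRight fun i => ?_)
  exact ⟨fun h => AlgHom.ext h, fun h x => DFunLike.congr_fun h x⟩

/-- **The relation between the subfields of a Galois extension.** -/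
theorem sub_rel (hM : GoodM M) (L : Type) [Field L] [NumberField L] [Algebra K L] [IsGalois K L]
    (hL : ∃ c, Reg M L c) {ι : Type} [Fintype ι] (Z : ι → Type) [∀ j, Field (Z j)]
    [∀ j, NumberField (Z j)] [∀ j, Algebra K (Z j)] [∀ j, Algebra (Z j) L]
    [∀ j, IsScalarTower K (Z j) L] (n : ι → ℤ)
    (h : ∀ σ : Gal(AlgebraicClosure K/K), ∑ j, n j * (fixe (Z j) σ : ℤ) = 0) :
    (∀ (c : ι → ℝ), (∀ j, Reg M (Z j) (c j)) → ∃ q : ℚ, q ≠ 0 ∧ ∏ j, (c j) ^ (n j) = q) ∧
    ∀ (c : ι → ℝ) (ℓ : ι → ℂ), (∀ j, Reg M (Z j) (c j)) → (∀ j, 𝒱.Val (Z j) (ℓ j)) →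
      ∃ q : ℚ, q ≠ 0 ∧ ∏ j, (ℓ j / c j) ^ (n j) = q := by
  obtain ⟨c₀, hc₀⟩ := hL
  obtain ⟨N, hfd, hnor, hN, hsub⟩ := top_field L hc₀
  let Z' : ι → Ext K := fun j => Ext.mk (Z j)
  have hZ : ∀ j, ∀ i : (Z' j).F →ₐ[K] AlgebraicClosure K, i.fieldRange ≤ N := fun j i =>
    hsub (Z j) i
  have hrel : Rel Z' n := by
    intro σ
    rw [← h σ]
    exact Finset.sum_congr rfl fun j _ => by rw [fixe_eq]
  exact ⟨fun c hc => reg_relK hM hN hZ hrel hc, fun c ℓ hc hℓ => quot_rel hM hN hZ hrel hc hℓ⟩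

/-- the regulator over the subfields -/
theorem sub_reg (hM : GoodM M) (L : Type) [Field L] [NumberField L] [Algebra K L] [IsGalois K L]
    (hL : ∃ c, Reg M L c) (F : Type) [Field F] [NumberField F] [Algebra K F] [Algebra F L]
    [IsScalarTower K F L] : ∃ c, Reg M F c := by
  obtain ⟨c₀, hc₀⟩ := hL
  obtain ⟨N, hfd, hnor, hN, hsub⟩ := top_field L hc₀
  obtain ⟨c, hc⟩ := reg_sub hM hN (F := F) IsAlgClosed.lift (hsub F _)
  exact ⟨c, _, hc⟩

end

end Pool.Agent.Q5.RG
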