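import Pool.Agent.H26.Lib.R_pool_sql_team_seeded_3997aac3.Q5.RG.Law2
import Pool.Agent.H26.Lib.R_pool_sql_team_seeded_3997aac3.Q5.RG.Top

/-! The subfields of a Galois extension, and exact families, with the continuation. -/

set_option autoImplicit false
set_option linter.unusedSectionVars false

namespace Pool.Agent.Q5.RG

open Module NumberField IsDedekindDomain Filter Topology Polynomial Pool.Agent.W353.NF
  Pool.Agent.W401.Cheb Pool.Agent.Q5.BR Pool.Agent.Q5.VL
open Pool.Agent.W353.EF (IsFrobenius LFun cone)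
open Pool.Agent.Q5.SO (Hyper)
open scoped Classical

section
variable {K : Type} [Field K] [NumberField K] {n : ℕ} {X : Set (MvPolynomial (Fin n) (𝓞 K))}
  {d i N : ℕ} {m : ℤ} {M : Datum ℚ ℝ (GK K)} {Ω : Set ℂ}

/-- **A relation over `K`.** -/
theorem powL_rel (hi : i ≤ 2 * d) (hΩ : IsDom Ω (m : ℂ)) (hM : GoodM M)
    (hsys : ∀ (F : Type) [Field F] [NumberField F] [Algebra K F], ∃ B, Sys X d i N m F B)
    (F : Type) [Field F] [NumberField F] [Algebra K F] {ι : Type}
    [Fintype ι] {Y : ι → Ext K} {a : ι → ℤ}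
    (hrel : ∀ σ : GK K, ∑ j, a j * (fixn K (Y j).F σ : ℤ) = fixn K F σ) {t : ℤ}
    {N' : IntermediateField K (AlgebraicClosure K)} [FiniteDimensional K N'] [Normal K N']
    (hF : ∀ i : F →ₐ[K] AlgebraicClosure K, i.fieldRange ≤ N')
    (hY : ∀ j, ∀ i : (Y j).F →ₐ[K] AlgebraicClosure K, i.fieldRange ≤ N') {c₀ : ℝ}
    (hN : Reg M N' c₀)
    (h : ∀ j, ∀ B : HeightOneSpectrum (𝓞 (Y j).F) → ℚ[X], Sys X d i N m (Y j).F B →
      PowL m M Ω (Y j).F B t) (B₁ : HeightOneSpectrum (𝓞 F) → ℚ[X]) (hB₁ : Sys X d i N m F B₁) :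
    PowL m M Ω F B₁ t := by
  have hcj : ∀ j, ∃ c, Reg M (Y j).F c := fun j => by
    obtain ⟨c, hc⟩ := reg_sub hM hN (F := (Y j).F) IsAlgClosed.lift (hY j _)
    exact ⟨c, _, hc⟩
  choose c' hc' using hcj
  choose B hB using fun j => hsys (Y j).F
  choose f hf hf' hf'' hq using fun j => h j (B j) (hB j)
  choose b hf' using hf'
  choose q hq0 hq using fun j => hq j (c' j) (hc' j)
  obtain ⟨B₀, hB₀⟩ := hsys K
  let Z : Option ι → Ext K := fun o => match o with
    | none => Ext.mk F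
    | some j => Y j
  let n' : Option ι → ℤ := fun o => o.elim (-1) a
  let B' : ∀ o, HeightOneSpectrum (𝓞 (Z o).F) → ℚ[X] := fun o => match o with
    | none => B₁
    | some j => B j
  have hB' : ∀ o, Sys X d i N m (Z o).F (B' o) := by
    rintro (_ | j)
    · exact hB₁
    · exact hB j
  have hZ : ∀ o, ∀ i : (Z o).F →ₐ[K] AlgebraicClosure K, i.fieldRange ≤ N' := by
    rintro (_ | j)
    · exact hF
    · exact hY j
  have hrel' : Rel Z n' := by
    intro σ
    rw [Fintype.sum_option]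
    change (-1) * (fixn K F σ : ℤ) + ∑ j, a j * (fixn K (Y j).F σ : ℤ) = 0
    rw [hrel σ]
    ring
  obtain ⟨S, c, hS⟩ := sys_pow hrel' hi hB₀.1 fun o => (hB' o).1
  obtain ⟨c₂, u₂, -, hu₂, hu₂', hev₂⟩ := tame hB₁.1
  have hRF := RF_analytic n' 0 S (ev_mp_ne hB₀.2) (fun o w => ev_mp_ne (hB' o).2 w)
  obtain ⟨q₀, hq₀, hRFq⟩ := RF_rat' (m := m) n' 0 hB₀.2 (fun o => (hB' o).2) S
  have hR : MeromorphicAt (RF n' 0 (mp B₀) (fun o => mp (B' o)) S) (m : ℂ) :=
    hRF.1.meromorphicAt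
  have hR0 : meromorphicOrderAt (RF n' 0 (mp B₀) (fun o => mp (B' o)) S) (m : ℂ) =
      ((0 : ℤ) : WithTop ℤ) := by
    rw [hRF.1.meromorphicOrderAt_eq, hRF.1.analyticOrderAt_eq_zero.2 hRF.2]
    rfl
  have hfin := reg_fin hN
  have h2 : ∑ j, a j * (rkV M (Y j).F : ℤ) = rkV M F := by
    have h1 := rank_in M.ρV (X := Z) (n := n') hrel' N' hZ
    rw [Fintype.sum_option] at h1
    change (-1) * (rk M.ρV F : ℤ) + ∑ j, a j * (rk M.ρV (Y j).F : ℤ) = 0 at h1
    change ∑ j, a j * (rk M.ρV (Y j).F : ℤ) = (rk M.ρV F : ℤ)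
    linarith
  have h3 : ∑ j, a j * (t * (rkV M (Y j).F : ℤ)) = t * (rkV M F : ℤ) := by
    rw [← h2, Finset.mul_sum]
    exact Finset.sum_congr rfl fun j _ => by ring
  refine ⟨fun s => (RF n' 0 (mp B₀) (fun o => mp (B' o)) S s) ^ t * ∏ j, (f j s) ^ (a j),
    fun s hs => ?_, ⟨max (max c c₂) (∑ j, |b j|), fun s hs => ?_⟩, ?_, fun c₁ hc₁ => ?_⟩
  · refine MeromorphicAt.fun_mul ?_ (MeromorphicAt.fun_prod fun j _ => ?_)
    · exact MeromorphicAt.fun_zpow (RF_meromorphic n' 0 _ _ S s) t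
    · exact MeromorphicAt.fun_zpow (hf j s hs) (a j)
  · have hsj : ∀ j, b j < s.re := by
      intro j
      refine ((le_abs_self _).trans ?_).trans_lt ((le_max_right _ _).trans_lt hs)
      exact Finset.single_le_sum (f := fun j => |b j|) (fun _ _ => abs_nonneg _)
        (Finset.mem_univ j)
    have hs' : max c c₂ < s.re := (le_max_left _ _).trans_lt hs
    have hne : LFun (mp B₁) s ≠ 0 := by
      rw [LFun_exp hu₂ hu₂' (hev₂ s ((le_max_right _ _).trans_lt hs'))]
      exact Complex.exp_ne_zero _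
    have h5 := hS s ((le_max_left _ _).trans_lt hs')
    rw [zpow_zero, Fintype.prod_option] at h5
    change 1 = RF n' 0 (mp B₀) (fun o => mp (B' o)) S s * ((LFun (mp B₁) s) ^ (-1 : ℤ) *
      ∏ j, (LFun (mp (B j)) s) ^ (a j)) at h5
    have h6 : LFun (mp B₁) s = RF n' 0 (mp B₀) (fun o => mp (B' o)) S s *
        ∏ j, (LFun (mp (B j)) s) ^ (a j) := by
      rw [zpow_neg_one] at h5
      calc LFun (mp B₁) s = LFun (mp B₁) s * 1 := (mul_one _).symm
        _ = LFun (mp B₁) s * (RF n' 0 (mp B₀) (fun o => mp (B' o)) S s * ((LFun (mp B₁) s)⁻¹ *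
          ∏ j, (LFun (mp (B j)) s) ^ (a j))) := by rw [← h5]
        _ = (LFun (mp B₁) s * (LFun (mp B₁) s)⁻¹) * (RF n' 0 (mp B₀) (fun o => mp (B' o)) S s *
          ∏ j, (LFun (mp (B j)) s) ^ (a j)) := by ring
        _ = _ := by rw [mul_inv_cancel₀ hne, one_mul]
    change (RF n' 0 (mp B₀) (fun o => mp (B' o)) S s) ^ t * (∏ j, (f j s) ^ (a j)) = _
    rw [h6, mul_zpow]
    congr 1
    rw [← Finset.prod_zpow]
    refine Finset.prod_congr rfl fun j _ => ?_
    rw [hf' j s (hsj j), ← zpow_mul, ← zpow_mul, mul_comm]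
  · rw [fun_meromorphicOrderAt_mul (hR.fun_zpow t)
      (MeromorphicAt.fun_prod fun j _ => (hf j _ hΩ.2.1).fun_zpow (a j)), order_zpow hR hR0,
      mul_zero]
    have h4 : meromorphicOrderAt (fun s => ∏ j, (f j s) ^ (a j)) (m : ℂ) =
        ∑ j, meromorphicOrderAt (fun s => (f j s) ^ (a j)) (m : ℂ) := by
      rw [← meromorphicOrderAt_prod fun j _ => (hf j _ hΩ.2.1).fun_zpow (a j)]
      congr 1
      ext s
      rw [Finset.prod_apply]
    rw [h4, Finset.sum_congr rfl fun j _ => order_zpow (hf j _ hΩ.2.1) (hf'' j) (a j),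
      ← WithTop.coe_sum, h3]
    change ((0 + _ : ℤ) : WithTop ℤ) = _
    rw [zero_add]
  · obtain ⟨q₁, hq₁, h4⟩ := reg_relK hM hN hZ hrel' (c := fun o => o.elim c₁ c') (by
      rintro (_ | j)
      · exact hc₁
      · exact hc' j)
    rw [Fintype.prod_option] at h4
    change c₁ ^ (-1 : ℤ) * ∏ j, (c' j) ^ (a j) = (q₁ : ℝ) at h4
    have h5 : ∏ j, ((c' j : ℝ) : ℂ) ^ (a j) = q₁ * (c₁ : ℂ) := by
      have h6 : ∏ j, (c' j) ^ (a j) = (q₁ : ℝ) * c₁ := by
        rw [← h4, zpow_neg_one, mul_comm c₁⁻¹, mul_assoc, inv_mul_cancel₀ hc₁.ne, mul_one]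
      have h7 := congrArg (fun x : ℝ => (x : ℂ)) h6
      push_cast at h7
      exact h7
    refine ⟨q₀ ^ t * ((∏ j, (q j) ^ (a j)) * q₁ ^ t), mul_ne_zero (zpow_ne_zero _ hq₀)
      (mul_ne_zero (Finset.prod_ne_zero_iff.2 fun j _ => zpow_ne_zero _ (hq0 j))
        (zpow_ne_zero _ hq₁)), ?_⟩
    rw [MeromorphicAt.meromorphicTrailingCoeffAt_fun_mul (hR.fun_zpow t)
      (MeromorphicAt.fun_prod fun j _ => (hf j _ hΩ.2.1).fun_zpow (a j)),
      hR.meromorphicTrailingCoeffAt_fun_zpow,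
      AnalyticAt.meromorphicTrailingCoeffAt_of_ne_zero hRF.1 hRF.2, hRFq,
      meromorphicTrailingCoeffAt_fun_prod (fun j _ => (hf j _ hΩ.2.1).fun_zpow _),
      Finset.prod_congr rfl fun j _ =>
        (hf j _ hΩ.2.1).meromorphicTrailingCoeffAt_fun_zpow (n := a j)]
    have h8 : ∏ j, (meromorphicTrailingCoeffAt (f j) (m : ℂ)) ^ (a j) =
        (∏ j, ((q j : ℚ) : ℂ) ^ (a j)) * (∏ j, ((c' j : ℝ) : ℂ) ^ (a j)) ^ t := by
      rw [← Finset.prod_zpow, ← Finset.prod_mul_distrib]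
      refine Finset.prod_congr rfl fun j _ => ?_
      rw [hq j, mul_zpow, ← zpow_mul, ← zpow_mul, mul_comm t]
    rw [h8, h5, mul_zpow]
    push_cast
    ring

/-- the dimensions in a relation between the subfields of a Galois extension -/
theorem sub_rank (hM : GoodM M) (L : Type) [Field L] [NumberField L] [Algebra K L] [IsGalois K L]
    {c₀ : ℝ} (hL : Reg M L c₀) {ι : Type} [Fintype ι] (Z : ι → Type) [∀ j, Field (Z j)]
    [∀ j, NumberField (Z j)] [∀ j, Algebra K (Z j)] [∀ j, Algebra (Z j) L]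
    [∀ j, IsScalarTower K (Z j) L] (n : ι → ℤ)
    (h : ∀ σ : Gal(AlgebraicClosure K/K), ∑ j, n j * (fixe (Z j) σ : ℤ) = 0) :
    ∑ j, n j * (rkV M (Z j) : ℤ) = 0 := by
  obtain ⟨N', hfd, hnor, hN, hsub⟩ := top_field L hL
  have hfin := reg_fin hN
  exact rank_in M.ρV (X := fun j => Ext.mk (Z j)) (n := n) (fun σ => by
    rw [← h σ]
    exact Finset.sum_congr rfl fun j _ => by rw [fixe_eq]) N' fun j i => hsub (Z j) i

/-- the regulators in a relation between the subfields of a Galois extension -/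
theorem sub_rel_reg (hM : GoodM M) (L : Type) [Field L] [NumberField L] [Algebra K L]
    [IsGalois K L] (hL : ∃ c, Reg M L c) {ι : Type} [Fintype ι] (Z : ι → Type) [∀ j, Field (Z j)]
    [∀ j, NumberField (Z j)] [∀ j, Algebra K (Z j)] [∀ j, Algebra (Z j) L]
    [∀ j, IsScalarTower K (Z j) L] (n : ι → ℤ)
    (h : ∀ σ : Gal(AlgebraicClosure K/K), ∑ j, n j * (fixe (Z j) σ : ℤ) = 0)
    (c : ι → ℝ) (hc : ∀ j, Reg M (Z j) (c j)) : ∃ q : ℚ, q ≠ 0 ∧ ∏ j, (c j) ^ (n j) = q := by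
  obtain ⟨c₀, hc₀⟩ := hL
  obtain ⟨N', hfd, hnor, hN, hsub⟩ := top_field L hc₀
  exact reg_relK hM hN (Z := fun j => Ext.mk (Z j)) (fun j i => hsub (Z j) i) (fun σ => by
    rw [← h σ]
    exact Finset.sum_congr rfl fun j _ => by rw [fixe_eq]) hc

/-- **The relations between the subfields of a Galois extension.** -/
theorem conjQ_rel (hi : i ≤ 2 * d) (hΩ : IsDom Ω (m : ℂ)) (hM : GoodM M)
    (hsys : ∀ (F : Type) [Field F] [NumberField F] [Algebra K F], ∃ B, Sys X d i N m F B)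
    (L : Type) [Field L] [NumberField L] [Algebra K L] [IsGalois K L]
    (hL : ∃ c, Reg M L c) (F : Type) [Field F] [NumberField F] [Algebra K F] [Algebra F L]
    [IsScalarTower K F L] {ι : Type} [Fintype ι] (Z : ι → Type) [∀ j, Field (Z j)]
    [∀ j, NumberField (Z j)] [∀ j, Algebra K (Z j)] [∀ j, Algebra (Z j) L]
    [∀ j, IsScalarTower K (Z j) L] (n : ι → ℤ)
    (h : ∀ σ : Gal(AlgebraicClosure K/K), ∑ j, n j * (fixe (Z j) σ : ℤ) = fixe F σ)
    (hZ : ∀ j, ConjQ X d i N m M Ω (Z j)) : ConjQ X d i N m M Ω F := by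
  refine ⟨sub_reg hM L hL F, ?_⟩
  obtain ⟨c₀, hc₀⟩ := hL
  obtain ⟨N', hfd, hnor, hN, hsub⟩ := top_field L hc₀
  refine powL_rel hi hΩ hM hsys F (Y := fun j => Ext.mk (Z j)) (a := n) ?_
    (fun i => hsub F i) (fun j i => hsub (Z j) i) hN (fun j => (hZ j).2)
  intro σ
  have h1 := h σ
  rw [fixe_eq] at h1
  rw [← h1]
  exact Finset.sum_congr rfl fun j _ => by rw [fixe_eq]

/-- **The descent from the hyperelementary subgroups.** -/
theorem conjQ_hyper (hi : i ≤ 2 * d) (hΩ : IsDom Ω (m : ℂ)) (hM : GoodM M)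
    (hsys : ∀ (F : Type) [Field F] [NumberField F] [Algebra K F], ∃ B, Sys X d i N m F B)
    (L : Type) [Field L] [NumberField L] [Algebra K L] [IsGalois K L]
    (h : ∀ (F : Type) [Field F] [NumberField F] [Algebra K F] [Algebra F L] [IsScalarTower K F L],
      Hyper (L ≃ₐ[F] L) → ConjQ X d i N m M Ω F)
    (F : Type) [Field F] [NumberField F] [Algebra K F] [Algebra F L] [IsScalarTower K F L] :
    ConjQ X d i N m M Ω F := by
  have hgal : IsGalois F L := IsGalois.tower_top_of_isGalois K F L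
  -- the field itself
  have hL : Hyper (L ≃ₐ[L] L) := by
    have hs : Subsingleton (L ≃ₐ[L] L) := ⟨fun a b => AlgEquiv.ext fun x => by
      have h1 := a.commutes x
      have h2 := b.commutes x
      exact h1.trans h2.symm⟩
    refine ⟨2, Nat.prime_two, ⊥, inferInstance, inferInstance, ?_, fun g => ⟨0, ?_⟩⟩
    · rw [Subgroup.card_bot]
      exact Nat.coprime_one_right 2
    · rw [Subsingleton.elim (g ^ 2 ^ 0) 1]
      exact Subgroup.one_mem _
  obtain ⟨⟨c₀, hc₀⟩, -⟩ := h L hL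
  obtain ⟨N', hfd, hnor, hN, hsub⟩ := top_field L hc₀
  obtain ⟨ι, hι, Y, a, n, hst, hY, hrel⟩ := hyper_relation' L F
  let _ : ∀ j, Algebra K (Y j).F := fun j =>
    ((algebraMap F (Y j).F).comp (algebraMap K F)).toAlgebra
  have hst1 : ∀ j, IsScalarTower K F (Y j).F := fun j =>
    IsScalarTower.of_algebraMap_eq fun x => rfl
  have hst2 : ∀ j, @IsScalarTower K (Y j).F L _ (a j).toSMul _ := fun j => by
    let _ := a j
    have := hst j
    refine IsScalarTower.of_algebraMap_eq fun x => ?_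
    rw [IsScalarTower.algebraMap_apply K F (Y j).F, ← IsScalarTower.algebraMap_apply F (Y j).F L,
      ← IsScalarTower.algebraMap_apply K F L]
  refine ⟨sub_reg hM L ⟨c₀, hc₀⟩ F, fun B hB => ?_⟩
  have h1 := powL_step hi hΩ hM hsys F (Y := Y) hrel (t := 1) (fun i => hsub F i) (fun j i => by
    let _ := a j
    have := hst2 j
    exact hsub (Y j).F i) hN (fun j => by
    let _ := a j
    have := hst2 j
    exact (h (Y j).F (hY j)).2) B hB
  rwa [one_mul] at h1

/-- **Exact families.** -/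
theorem conjQ_exact (hi : i ≤ 2 * d) (hΩ : IsDom Ω (m : ℂ)) (hM : GoodM M)
    (hsys : ∀ (F : Type) [Field F] [NumberField F] [Algebra K F], ∃ B, Sys X d i N m F B)
    {𝓕 : Set (IntermediateField K (AlgebraicClosure K))}
    (hF : SO.Exact 𝓕) (h : ∀ F ∈ 𝓕, ∀ [NumberField F], ConjQ X d i N m M Ω F) :
    ConjQ X d i N m M Ω K := by
  obtain ⟨ι, hι, F, n, hFj, hrel⟩ := SO.exact_relation hF
  have hfd : ∀ j, FiniteDimensional K (F j) := fun j => hF.1 _ (hFj j)
  have hnf : ∀ j, NumberField (F j) := fun j => NumberField.of_module_finite K _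
  have hne : Nonempty ι := by
    by_contra hcon
    rw [not_nonempty_iff] at hcon
    have h1 := hrel 1
    rw [Finset.univ_eq_empty, Finset.sum_empty] at h1
    exact zero_ne_one h1
  let Y : ι → Ext K := fun j => @Ext.mk K _ _ (F j) _ (hnf j) _
  let J : Type := (j : ι) × (F j →ₐ[K] AlgebraicClosure K)
  have hJ : Finite J := inferInstance
  have hJne : Nonempty J := by
    obtain ⟨j⟩ := hne
    exact ⟨⟨j, (F j).val⟩⟩
  let N' : IntermediateField K (AlgebraicClosure K) := ⨆ x : J, x.2.fieldRange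
  have hN𝓕 : N' ∈ 𝓕 := sup_mem hF.2.2.1 (fun x : J => x.2.fieldRange) fun x =>
    hF.2.1 (F x.1) (hFj x.1) _ ⟨AlgEquiv.ofInjectiveField x.2⟩
  have hfdN : FiniteDimensional K N' := hF.1 _ hN𝓕
  have hNeq : N' = ⨆ j, IntermediateField.normalClosure K (F j) (AlgebraicClosure K) := by
    apply le_antisymm
    · exact iSup_le fun x => (AlgHom.fieldRange_le_normalClosure x.2).trans (le_iSup
        (fun j => IntermediateField.normalClosure K (F j) (AlgebraicClosure K)) x.1)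
    · refine iSup_le fun j => ?_
      unfold IntermediateField.normalClosure
      exact iSup_le fun f => le_iSup (fun x : J => x.2.fieldRange) ⟨j, f⟩
  have hnor : Normal K N' := by
    rw [hNeq]
    have : ∀ j, Normal K (IntermediateField.normalClosure K (F j) (AlgebraicClosure K)) :=
      fun j => inferInstance
    exact IntermediateField.normal_iSup (F := K) (K := AlgebraicClosure K)
      (t := fun j => IntermediateField.normalClosure K (F j) (AlgebraicClosure K))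
  have hnfN : NumberField N' := NumberField.of_module_finite K N'
  obtain ⟨⟨c₀, hc₀⟩, -⟩ := h N' hN𝓕
  have hK : ∀ i : K →ₐ[K] AlgebraicClosure K, i.fieldRange ≤ N' := by
    rintro i _ ⟨x, rfl⟩
    have : i x = algebraMap K _ x := i.commutes x
    change i x ∈ N'
    rw [this]
    exact N'.algebraMap_mem x
  refine ⟨?_, fun B hB => ?_⟩
  · obtain ⟨c, hc⟩ := reg_sub hM hc₀ (F := K) IsAlgClosed.lift (hK _)
    exact ⟨c, _, hc⟩
  · have h1 := powL_step hi hΩ hM hsys K (Y := Y) hrel (t := 1) hK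
      (fun j i => le_iSup (fun x : J => x.2.fieldRange) ⟨j, i⟩) hc₀
      (fun j => (h (F j) (hFj j)).2) B hB
    rwa [one_mul] at h1

end

end Pool.Agent.Q5.RG
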