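import Pool.Agent.H26.Lib.R_pool_sql_team_seeded_3997aac3.Q5.RG.Det
import Pool.Agent.H26.Lib.R_pool_sql_team_seeded_3997aac3.Q5.RG.Mat

/-! The determinants of the matrices of an equivariant map on the invariants of the subgroups in a
relation, over any field of characteristic 0. -/

set_option autoImplicit false
set_option linter.unusedSectionVars false

namespace Pool.Agent.Q5.RG

open Module
open Pool.Agent.Q5.SO (fq)
open scoped Classical

section
variable {k G κ κ' : Type} [Field k] [CharZero k] [Group G] [Fintype G] [Fintype κ] [Fintype κ']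

/-- the columns of `Q` are a basis of the invariants of `H` -/
def IsInv (B : G →* Matrix κ κ k) (H : Subgroup G) (Q : Matrix κ κ' k) : Prop :=
  Function.Injective Q.mulVec ∧
    ∀ x : κ → k, (∀ h ∈ H, (B h).mulVec x = x) ↔ ∃ y, Q.mulVec y = x

/-- extension of scalars -/
noncomputable def ext {S : Type} [Field S] [Algebra k S] (B : G →* Matrix κ κ k) : G →* Matrix κ κ S :=
  (RingHom.toMonoidHom (RingHom.mapMatrix (m := κ) (algebraMap k S))).comp B

theorem ext_apply {S : Type} [Field S] [Algebra k S] (B : G →* Matrix κ κ k) (g : G) :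
    ext (S := S) B g = (B g).map (algebraMap k S) := rfl

theorem exists_left {Q : Matrix κ κ' k} (h : Function.Injective Q.mulVec) :
    ∃ L : Matrix κ' κ k, L * Q = 1 := by
  obtain ⟨f, hf⟩ := LinearMap.exists_leftInverse_of_injective Q.mulVecLin
    (LinearMap.ker_eq_bot.2 h)
  refine ⟨LinearMap.toMatrix' f, ?_⟩
  have h1 := congrArg LinearMap.toMatrix' hf
  have h2 : LinearMap.toMatrix' Q.mulVecLin = Q := LinearMap.toMatrix'_toLin' Q
  rw [LinearMap.toMatrix'_comp, h2, LinearMap.toMatrix'_id] at h1
  exact h1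

theorem IsInv.ext {B : G →* Matrix κ κ k} {H : Subgroup G} {Q : Matrix κ κ' k} (hQ : IsInv B H Q)
    (S : Type) [Field S] [Algebra k S] :
    IsInv (RG.ext (S := S) B) H (Q.map (algebraMap k S)) := by
  obtain ⟨h1, h2⟩ := hQ
  have hfix : ∀ h ∈ H, B h * Q = Q := by
    intro h hh
    ext l m
    have h3 := (h2 (Q.mulVec (Pi.single m 1))).2 ⟨_, rfl⟩ h hh
    rw [Matrix.mulVec_mulVec] at h3
    have h4 := congrFun h3 l
    rwa [Matrix.mulVec_single_one, Matrix.mulVec_single_one] at h4
  refine ⟨?_, fun x => ⟨fun hx => ?_, ?_⟩⟩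
  · obtain ⟨L, hL⟩ := exists_left h1
    have h3 : L.map (algebraMap k S) * Q.map (algebraMap k S) = 1 := by
      rw [← Matrix.map_mul, hL]
      simp
    intro y y' hy
    have h4 := congrArg (L.map (algebraMap k S)).mulVec hy
    rwa [Matrix.mulVec_mulVec, Matrix.mulVec_mulVec, h3, Matrix.one_mulVec,
      Matrix.one_mulVec] at h4
  · let e : Matrix κ κ k := ∑ h : H, B h
    have he : ∀ m, ∃ y, Q.mulVec y = e.col m := by
      intro m
      refine (h2 _).1 fun h hh => ?_
      have h3 : B h * e = e := by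
        change B h * ∑ h : H, B h = _
        rw [Finset.mul_sum]
        change ∑ i : H, B h * B i = ∑ i : H, B i
        rw [← Equiv.sum_comp (Equiv.mulLeft (⟨h, hh⟩ : H)) (fun i : H => B i)]
        refine Finset.sum_congr rfl fun i _ => ?_
        rw [← map_mul]
        rfl
      ext l
      exact congrFun (congrFun h3 l) m
    choose Y hY using he
    have h3 : e = Q * (Matrix.of fun a m => Y m a) := by
      ext l m
      have h4 := congrFun (hY m) l
      rw [Matrix.mul_apply]
      exact h4.symm
    have h4 : (e.map (algebraMap k S)).mulVec x = (Nat.card H : S) • x := by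
      have h5 : e.map (algebraMap k S) = ∑ h : H, (B h).map (algebraMap k S) := by
        have h6 := map_sum ((algebraMap k S).mapMatrix (m := κ)) (fun h : H => B h) Finset.univ
        exact h6
      rw [h5, Matrix.sum_mulVec, Finset.sum_congr rfl fun h _ => hx h.1 h.2, Finset.sum_const,
        Finset.card_univ, Nat.card_eq_fintype_card, Nat.cast_smul_eq_nsmul]
    have hS : CharZero S := charZero_of_injective_algebraMap (algebraMap k S).injective
    have hc : (Nat.card H : S) ≠ 0 := by exact_mod_cast Nat.card_pos.ne'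
    refine ⟨(Nat.card H : S)⁻¹ • ((Matrix.of fun a m => Y m a).map (algebraMap k S)).mulVec x, ?_⟩
    rw [Matrix.mulVec_smul, Matrix.mulVec_mulVec, ← Matrix.map_mul, ← h3, h4, smul_smul,
      inv_mul_cancel₀ hc, one_smul]
  · rintro ⟨y, rfl⟩ h hh
    rw [Matrix.mulVec_mulVec, ext_apply, ← Matrix.map_mul, hfix h hh]

/-- the representation on the columns -/
noncomputable def repM (B : G →* Matrix κ κ k) : Representation k G (κ → k) where
  toFun g := (B g).mulVecLin
  map_one' := by rw [map_one, Matrix.mulVecLin_one]; rfl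
  map_mul' g h := by rw [map_mul, Matrix.mulVecLin_mul]; rfl

theorem IsInv.det {B : G →* Matrix κ κ k} {H : Subgroup G} {Q : Matrix κ κ' k} (hQ : IsInv B H Q)
    {T : Matrix κ κ k} (hT : ∀ g x, T.mulVecLin (repM B g x) = repM B g (T.mulVecLin x))
    {X : Matrix κ' κ' k} (hX : T * Q = Q * X) :
    LinearMap.det (T.mulVecLin.restrict (maps_inv (repM B) H hT)) = X.det := by
  obtain ⟨h1, h2⟩ := hQ
  let f : (κ' → k) →ₗ[k] inv (repM B) H :=
    Q.mulVecLin.codRestrict _ fun y => (h2 _).2 ⟨y, rfl⟩
  have hf : Function.Bijective f := by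
    constructor
    · intro y y' hy
      exact h1 (congrArg Subtype.val hy)
    · rintro ⟨x, hx⟩
      obtain ⟨y, hy⟩ := (h2 x).1 hx
      exact ⟨y, Subtype.ext hy⟩
  let e := LinearEquiv.ofBijective f hf
  have h3 : T.mulVecLin.restrict (maps_inv (repM B) H hT) =
      (e : (κ' → k) →ₗ[k] inv (repM B) H) ∘ₗ X.mulVecLin ∘ₗ
        (e.symm : inv (repM B) H →ₗ[k] (κ' → k)) := by
    apply LinearMap.ext
    intro u
    obtain ⟨y, rfl⟩ := e.surjective u
    apply Subtype.ext
    change T.mulVec (Q.mulVec y) = Q.mulVec (X.mulVec (e.symm (e y)))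
    rw [LinearEquiv.symm_apply_apply, Matrix.mulVec_mulVec, Matrix.mulVec_mulVec, hX]
  rw [h3]
  have h4 := LinearMap.det_conj X.mulVecLin e
  rw [h4]
  exact LinearMap.det_toLin' X

end

section
variable {k R G κ : Type} [Field k] [CharZero k] [Field R] [Algebra k R] [Group G] [Fintype G]
  [Fintype κ]

/-- **The determinants, matrices.** -/
theorem det_matrix (B : G →* Matrix κ κ k) (T : Matrix κ κ R) (hT0 : T.det ≠ 0)
    (hT : ∀ g, T * (B g).map (algebraMap k R) = (B g).map (algebraMap k R) * T)
    {ι : Type} [Fintype ι] (H : ι → Subgroup G) (n : ι → ℤ) (h : ∀ g, ∑ j, n j * fq (H j) g = 0)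
    (κ' : ι → Type) [∀ j, Fintype (κ' j)] (Q : ∀ j, Matrix κ (κ' j) k)
    (hQ : ∀ j, IsInv B (H j) (Q j)) (X : ∀ j, Matrix (κ' j) (κ' j) R)
    (hX : ∀ j, T * (Q j).map (algebraMap k R) = (Q j).map (algebraMap k R) * X j) :
    ∏ j, (X j).det ^ (n j) = 1 := by
  have hR : CharZero R := charZero_of_injective_algebraMap (algebraMap k R).injective
  let S := AlgebraicClosure R
  let _ : Algebra k S := ((algebraMap R S).comp (algebraMap k R)).toAlgebra
  have hkS : ∀ x : k, algebraMap k S x = algebraMap R S (algebraMap k R x) := fun x => rfl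
  have hmap : ∀ {a b : Type} (M : Matrix a b k), M.map (algebraMap k S) =
      (M.map (algebraMap k R)).map (algebraMap R S) := by
    intro a b M
    rw [Matrix.map_map]
    rfl
  let T' : Matrix κ κ S := T.map (algebraMap R S)
  have hT' : ∀ g x, T'.mulVecLin (repM (RG.ext (S := S) B) g x) =
      repM (RG.ext (S := S) B) g (T'.mulVecLin x) := by
    intro g x
    change T'.mulVec (((B g).map (algebraMap k S)).mulVec x) =
      ((B g).map (algebraMap k S)).mulVec (T'.mulVec x)
    rw [Matrix.mulVec_mulVec, Matrix.mulVec_mulVec, hmap, ← Matrix.map_mul, ← Matrix.map_mul, hT g]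
  have h1 : LinearMap.det T'.mulVecLin ≠ 0 := by
    have h2 : LinearMap.det T'.mulVecLin = T'.det := LinearMap.det_toLin' T'
    rw [h2]
    have h3 := RingHom.map_det (algebraMap R S) T
    rw [RingHom.mapMatrix_apply] at h3
    change (T.map (algebraMap R S)).det ≠ 0
    rw [← h3]
    intro h0
    exact hT0 ((algebraMap R S).injective (by rw [h0, map_zero]))
  have h2 := det_rel (repM (RG.ext (S := S) B)) hT' h1 H n h
  apply (algebraMap R S).injective
  rw [map_one, map_prod, ← h2]
  refine Finset.prod_congr rfl fun j _ => ?_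
  rw [map_zpow₀]
  congr 1
  rw [IsInv.det ((hQ j).ext S) hT' (X := (X j).map (algebraMap R S))]
  · have h3 := RingHom.map_det (algebraMap R S) (X j)
    rw [RingHom.mapMatrix_apply] at h3
    exact h3
  · rw [hmap, ← Matrix.map_mul, ← Matrix.map_mul, hX]

end

end Pool.Agent.Q5.RG
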