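import Pool.Agent.H26.Lib.R_pool_sql_team_seeded_3997aac3.Q5.RG.Gal

/-! The laws for the regulators and the values of L-functions over number fields. -/

set_option autoImplicit false
set_option linter.unusedSectionVars false

namespace Pool.Agent.Q5.RG

open Module NumberField Pool.Agent.W353.NF Pool.Agent.W401.Cheb Pool.Agent.Q5.BR
open Pool.Agent.Q5.SO (Hyper)
open scoped Classical

/-- values attached to number fields, compatible with relations up to rational numbers -/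
structure Vals (K : Type) [Field K] [NumberField K] where
  Val : ∀ (F : Type) [Field F] [NumberField F] [Algebra K F], ℂ → Prop
  ex : ∀ (F : Type) [Field F] [NumberField F] [Algebra K F], ∃ ℓ, Val F ℓ
  ne : ∀ (F : Type) [Field F] [NumberField F] [Algebra K F] (ℓ : ℂ), Val F ℓ → ℓ ≠ 0
  rel : ∀ (ι : Type) [Fintype ι] (Z : ι → Ext K) (n : ι → ℤ), Rel Z n → ∀ ℓ : ι → ℂ,
    (∀ j, Val (Z j).F (ℓ j)) → ∃ q : ℚ, q ≠ 0 ∧ ∏ j, (ℓ j) ^ (n j) = (q : ℂ)

section
variable {K : Type} [Field K] [NumberField K] (M : Datum ℚ ℝ (GK K)) (𝒱 : Vals K)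

/-- the regulator is an isomorphism over `F`, and its determinant is the value -/
def Conj (F : Type) [Field F] [NumberField F] [Algebra K F] : Prop :=
  (∃ c, Reg M F c) ∧ ∀ (c : ℝ) (ℓ : ℂ), Reg M F c → 𝒱.Val F ℓ → ∃ q : ℚ, q ≠ 0 ∧ ℓ = q * c

/-- the law -/
def LawP (F : Type) [Field F] [NumberField F] [Algebra K F] (t : ℤ) : Prop :=
  (t ≠ 0 → ∀ (F' : Type) [Field F'] [NumberField F'] [Algebra F F'] [Algebra K F']
    [IsScalarTower K F F'], ∃ c, Reg M F' c) ∧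
  ∀ (c : ℝ) (ℓ : ℂ), Reg M F c → 𝒱.Val F ℓ → ∃ q : ℚ, q ≠ 0 ∧ (ℓ / c) ^ t = q

theorem exists_N {ι : Type} [Finite ι] (Z : ι → Ext K) :
    ∃ N : IntermediateField K (AlgebraicClosure K), FiniteDimensional K N ∧ Normal K N ∧
      ∀ j, ∀ i : (Z j).F →ₐ[K] AlgebraicClosure K, i.fieldRange ≤ N := by
  have hfd1 : ∀ j, FiniteDimensional K (Z j).F := fun j => inferInstance
  refine ⟨⨆ j, IntermediateField.normalClosure K (Z j).F (AlgebraicClosure K), ?_, ?_, ?_⟩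
  · have : ∀ j, FiniteDimensional K (IntermediateField.normalClosure K (Z j).F (AlgebraicClosure K)) :=
      fun j => inferInstance
    exact IntermediateField.finiteDimensional_iSup_of_finite
  · have : ∀ j, Normal K (IntermediateField.normalClosure K (Z j).F (AlgebraicClosure K)) :=
      fun j => inferInstance
    exact IntermediateField.normal_iSup (F := K) (K := AlgebraicClosure K)
      (t := fun j => IntermediateField.normalClosure K (Z j).F (AlgebraicClosure K))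
  · exact fun j i => (AlgHom.fieldRange_le_normalClosure i).trans (le_iSup
      (fun j => IntermediateField.normalClosure K (Z j).F (AlgebraicClosure K)) j)

variable {M 𝒱}

theorem IsReg.ne {k R Γ : Type} [Field k] [Field R] [Algebra k R] [Group Γ] {M : Datum k R Γ}
    {Δ : Subgroup Γ} {c : R} (h : IsReg M Δ c) : c ≠ 0 := h.1

theorem Reg.ne {F : Type} [Field F] [Algebra K F] {c : ℝ} (h : Reg M F c) : c ≠ 0 := by
  obtain ⟨i, hi⟩ := h
  exact hi.ne

/-- the relation, with all terms -/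
theorem quot_rel (hM : GoodM M) {N : IntermediateField K (AlgebraicClosure K)}
    [FiniteDimensional K N] [Normal K N] {c₀ : ℝ} (hN : Reg M N c₀) {ι : Type} [Fintype ι]
    {Z : ι → Ext K} {n : ι → ℤ}
    (hZ : ∀ j, ∀ i : (Z j).F →ₐ[K] AlgebraicClosure K, i.fieldRange ≤ N)
    (h : Rel Z n) {c : ι → ℝ} (hc : ∀ j, Reg M (Z j).F (c j)) {ℓ : ι → ℂ}
    (hℓ : ∀ j, 𝒱.Val (Z j).F (ℓ j)) : ∃ q : ℚ, q ≠ 0 ∧ ∏ j, (ℓ j / c j) ^ (n j) = (q : ℂ) := by
  obtain ⟨q₁, hq₁, h1⟩ := reg_relK hM hN hZ h hc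
  obtain ⟨q₂, hq₂, h2⟩ := 𝒱.rel ι Z n h ℓ hℓ
  refine ⟨q₂ / q₁, div_ne_zero hq₂ hq₁, ?_⟩
  have h3 : ∏ j, ((c j : ℝ) : ℂ) ^ (n j) = (q₁ : ℂ) := by
    have h4 := congrArg (fun x : ℝ => (x : ℂ)) h1
    push_cast at h4
    exact h4
  push_cast
  rw [← h2, ← h3, ← Finset.prod_div_distrib]
  exact Finset.prod_congr rfl fun j _ => div_zpow _ _ _

/-- the step -/
theorem law_step (hM : GoodM M) (F : Type) [Field F] [NumberField F] [Algebra K F] {ι : Type}
    [Fintype ι] {Y : ι → Ext F} [∀ j, Algebra K (Y j).F] [∀ j, IsScalarTower K F (Y j).F] {n : ι → ℤ}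
    {m : ℤ} (hrel : ∀ σ : GK F, ∑ j, n j * (fixn F (Y j).F σ : ℤ) = m) {t : ℤ}
    {N : IntermediateField K (AlgebraicClosure K)} [FiniteDimensional K N] [Normal K N]
    (hF : ∀ i : F →ₐ[K] AlgebraicClosure K, i.fieldRange ≤ N)
    (hY : ∀ j, ∀ i : (Y j).F →ₐ[K] AlgebraicClosure K, i.fieldRange ≤ N) {c₀ : ℝ}
    (hN : Reg M N c₀)
    (h : ∀ j, ∀ (c : ℝ) (ℓ : ℂ), Reg M (Y j).F c → 𝒱.Val (Y j).F ℓ →
      ∃ q : ℚ, q ≠ 0 ∧ (ℓ / c) ^ t = q) (c : ℝ) (ℓ : ℂ) (hc : Reg M F c) (hℓ : 𝒱.Val F ℓ) :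
    ∃ q : ℚ, q ≠ 0 ∧ (ℓ / c) ^ (m * t) = q := by
  have hcj : ∀ j, ∃ c, Reg M (Y j).F c := fun j => by
    obtain ⟨c, hc⟩ := reg_sub hM hN (F := (Y j).F) IsAlgClosed.lift (hY j _)
    exact ⟨c, _, hc⟩
  choose c' hc' using hcj
  choose ℓ' hℓ' using fun j => 𝒱.ex (Y j).F
  let Z : Option ι → Ext K := fun o => match o with
    | none => Ext.mk F
    | some j => Ext.mk (Y j).F
  let n' : Option ι → ℤ := fun o => o.elim (-m) n
  have hZ : ∀ o, ∀ i : (Z o).F →ₐ[K] AlgebraicClosure K, i.fieldRange ≤ N := by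
    rintro (_ | j)
    · exact hF
    · exact hY j
  have hrel' : Rel Z n' := by
    intro σ
    rw [Fintype.sum_option]
    change (-m) * (fixn K F σ : ℤ) + ∑ j, n j * (fixn K (Y j).F σ : ℤ) = 0
    rw [VL.rel_up hrel σ]
    ring
  obtain ⟨q, hq, h1⟩ := quot_rel (𝒱 := 𝒱) hM hN hZ hrel' (c := fun o => o.elim c c')
    (ℓ := fun o => o.elim ℓ ℓ') (by
      rintro (_ | j)
      · exact hc
      · exact hc' j) (by
      rintro (_ | j)
      · exact hℓ
      · exact hℓ' j)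
  choose q' hq' h' using fun j => h j (c' j) (ℓ' j) (hc' j) (hℓ' j)
  rw [Fintype.prod_option] at h1
  change (ℓ / c) ^ (-m) * ∏ j, (ℓ' j / c' j) ^ (n j) = (q : ℂ) at h1
  have hne : ℓ / (c : ℂ) ≠ 0 := div_ne_zero (𝒱.ne F ℓ hℓ) (by exact_mod_cast hc.ne)
  have h2 : (ℓ / c) ^ m = (q : ℂ)⁻¹ * ∏ j, (ℓ' j / c' j) ^ (n j) := by
    have hP : ∏ j, (ℓ' j / (c' j : ℂ)) ^ (n j) ≠ 0 := Finset.prod_ne_zero_iff.2 fun j _ =>
      zpow_ne_zero _ (div_ne_zero (𝒱.ne _ _ (hℓ' j)) (by exact_mod_cast (hc' j).ne))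
    rw [← h1, zpow_neg, mul_inv, inv_inv, mul_assoc, inv_mul_cancel₀ hP, mul_one]
  refine ⟨(q⁻¹) ^ t * ∏ j, (q' j) ^ (n j), mul_ne_zero (zpow_ne_zero _ (inv_ne_zero hq))
    (Finset.prod_ne_zero_iff.2 fun j _ => zpow_ne_zero _ (hq' j)), ?_⟩
  rw [zpow_mul, h2, mul_zpow]
  push_cast
  congr 1
  rw [← Finset.prod_zpow]
  refine Finset.prod_congr rfl fun j _ => ?_
  rw [← zpow_mul, mul_comm (n j) t, zpow_mul, h']

theorem lawP_isLaw (hM : GoodM M) : VL.IsLaw (K := K) (fun F _ _ _ t => LawP M 𝒱 F t) where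
  zero := fun F _ _ _ => ⟨fun h => absurd rfl h, fun c ℓ _ _ => ⟨1, one_ne_zero, by simp⟩⟩
  add := by
    intro F _ _ _ t u ht hu
    refine ⟨fun htu => ?_, fun c ℓ hc hℓ => ?_⟩
    · by_cases h0 : t = 0
      · refine hu.1 fun h1 => htu ?_
        rw [h0, h1, add_zero]
      · exact ht.1 h0
    · obtain ⟨q, hq, h1⟩ := ht.2 c ℓ hc hℓ
      obtain ⟨q', hq', h2⟩ := hu.2 c ℓ hc hℓ
      have hne : ℓ / (c : ℂ) ≠ 0 := div_ne_zero (𝒱.ne F ℓ hℓ) (by exact_mod_cast hc.ne)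
      refine ⟨q * q', mul_ne_zero hq hq', ?_⟩
      rw [zpow_add₀ hne, h1, h2]
      push_cast
      rfl
  neg := by
    intro F _ _ _ t ht
    refine ⟨fun h => ht.1 fun h0 => h (by rw [h0, neg_zero]), fun c ℓ hc hℓ => ?_⟩
    obtain ⟨q, hq, h1⟩ := ht.2 c ℓ hc hℓ
    refine ⟨q⁻¹, inv_ne_zero hq, ?_⟩
    rw [zpow_neg, h1]
    push_cast
    rfl
  step := by
    intro F _ _ _ ι _ Y _ _ n m hrel t h
    have key : m * t ≠ 0 → ∀ (F' : Type) [Field F'] [NumberField F'] [Algebra F F'] [Algebra K F']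
        [IsScalarTower K F F'], ∃ N : IntermediateField K (AlgebraicClosure K),
        FiniteDimensional K N ∧ Normal K N ∧ (∀ i : F' →ₐ[K] AlgebraicClosure K, i.fieldRange ≤ N) ∧
        (∀ j, ∀ i : (Y j).F →ₐ[K] AlgebraicClosure K, i.fieldRange ≤ N) ∧ ∃ c, Reg M N c := by
      intro hmt F' _ _ _ _ _
      let Z : Option ι → Ext K := fun o => match o with
        | none => Ext.mk F'
        | some j => Ext.mk (Y j).F
      obtain ⟨N, hfd, hnor, hZ⟩ := exists_N Z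
      refine ⟨N, hfd, hnor, hZ none, fun j => hZ (some j), ?_⟩
      have hne : Nonempty ι := by
        by_contra hcon
        rw [not_nonempty_iff] at hcon
        have h1 := hrel 1
        rw [Finset.univ_eq_empty, Finset.sum_empty] at h1
        exact hmt (by rw [← h1, zero_mul])
      obtain ⟨j⟩ := hne
      have hnf : NumberField N := NumberField.of_module_finite K N
      let i : (Y j).F →ₐ[K] AlgebraicClosure K := IsAlgClosed.lift
      let i' : (Y j).F →ₐ[K] N := i.codRestrict N.toSubalgebra fun x => hZ (some j) i ⟨x, rfl⟩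
      let _ : Algebra (Y j).F N := i'.toRingHom.toAlgebra
      have : IsScalarTower K (Y j).F N := IsScalarTower.of_algebraMap_eq fun x =>
        (i'.commutes x).symm
      exact (h j).1 (right_ne_zero_of_mul hmt) N
    refine ⟨fun hmt F' _ _ _ _ _ => ?_, fun c ℓ hc hℓ => ?_⟩
    · obtain ⟨N, hfd, hnor, hF', -, c₀, hN⟩ := key hmt F'
      obtain ⟨c, hc⟩ := reg_sub hM hN (F := F') IsAlgClosed.lift (hF' _)
      exact ⟨c, _, hc⟩
    · by_cases hmt : m * t = 0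
      · exact ⟨1, one_ne_zero, by rw [hmt, zpow_zero]; simp⟩
      · obtain ⟨N, hfd, hnor, hF', hY, c₀, hN⟩ := key hmt F
        exact law_step hM F hrel hF' hY hN (fun j => (h j).2) c ℓ hc hℓ

end

end Pool.Agent.Q5.RG
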