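import Pool.Agent.H26.Lib.R_pool_sql_team_seeded_3997aac3.Q5.RG.Reg

/-! The invariants of the subgroups of finite index of a group. -/

set_option autoImplicit false
set_option linter.unusedSectionVars false

namespace Pool.Agent.Q5.RG

open Module
open Pool.Agent.Q5.SO (fq)
open scoped Classical

section
variable {k Γ V : Type} [Field k] [Group Γ] [AddCommGroup V] [Module k V]
  (ρ : Representation k Γ V) (N : Subgroup Γ) [N.Normal]

theorem inv_mono {N Δ : Subgroup Γ} (h : N ≤ Δ) : inv ρ Δ ≤ inv ρ N := fun _ hu g hg => hu g (h hg)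

theorem stab_inv (g : Γ) (u : V) (hu : u ∈ inv ρ N) : ρ g u ∈ inv ρ N := by
  intro h hh
  have h1 := hu (g⁻¹ * h * g) (by
    have := Subgroup.Normal.conj_mem inferInstance h hh g⁻¹
    simpa using this)
  have h2 : ρ g (ρ (g⁻¹ * h * g) u) = ρ h (ρ g u) := by
    rw [← Module.End.mul_apply, ← Module.End.mul_apply, ← map_mul, ← map_mul]
    congr 2
    group
  rw [← h2, h1]

/-- the action of the quotient -/
noncomputable def repQ : Representation k (Γ ⧸ N) (inv ρ N) :=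
  QuotientGroup.lift N
    { toFun := fun g => (ρ g).restrict (stab_inv ρ N g)
      map_one' := by
        ext u
        change ρ 1 u.1 = u.1
        rw [map_one]
        rfl
      map_mul' := fun g h => by
        ext u
        change ρ (g * h) u.1 = ρ g (ρ h u.1)
        rw [map_mul]
        rfl }
    (by
      intro g hg
      apply LinearMap.ext
      intro u
      exact Subtype.ext (u.2 g hg))

theorem repQ_mk (g : Γ) (u : inv ρ N) : ((repQ ρ N (g : Γ ⧸ N) u : inv ρ N) : V) = ρ g u.1 := rfl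

variable {N} {Δ : Subgroup Γ} (hle : N ≤ Δ)

/-- the invariants of a larger subgroup -/
noncomputable def invEquiv : inv (repQ ρ N) (Δ.map (QuotientGroup.mk' N)) ≃ₗ[k] inv ρ Δ where
  toFun u := ⟨u.1.1, fun g hg => congrArg Subtype.val (u.2 (QuotientGroup.mk' N g) ⟨g, hg, rfl⟩)⟩
  invFun u := ⟨⟨u.1, inv_mono ρ hle u.2⟩, by
    rintro _ ⟨g, hg, rfl⟩
    exact Subtype.ext (u.2 g hg)⟩
  map_add' := fun u v => rfl
  map_smul' := fun c u => rfl
  left_inv := fun u => rfl
  right_inv := fun u => rfl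

/-- a basis of the invariants -/
noncomputable def liftB {κ : Type} (b : Basis κ k (inv ρ Δ)) :
    Basis κ k (inv (repQ ρ N) (Δ.map (QuotientGroup.mk' N))) := b.map (invEquiv ρ hle).symm

theorem liftB_val {κ : Type} (b : Basis κ k (inv ρ Δ)) (m : κ) :
    ((liftB ρ hle b m : inv (repQ ρ N) (Δ.map (QuotientGroup.mk' N))) : inv ρ N) =
      ⟨(b m : V), inv_mono ρ hle (b m).2⟩ := rfl

end

section
variable {Γ : Type} [Group Γ] {N : Subgroup Γ} [N.Normal] {Δ : Subgroup Γ}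

/-- the number of the fixed points on the cosets -/
noncomputable def fxc (Δ : Subgroup Γ) (g : Γ) : ℕ := Nat.card {x : Γ ⧸ Δ // g • x = x}

theorem fq_map (hle : N ≤ Δ) (g : Γ) :
    fq (Δ.map (QuotientGroup.mk' N)) (g : Γ ⧸ N) = (fxc Δ g : ℤ) := by
  unfold fq fxc
  congr 1
  let f : Γ ⧸ Δ → (Γ ⧸ N) ⧸ (Δ.map (QuotientGroup.mk' N)) :=
    Quotient.lift (fun a : Γ => (((a : Γ ⧸ N) : (Γ ⧸ N) ⧸ (Δ.map (QuotientGroup.mk' N))))) (by
      intro a b hab
      have h1 : a⁻¹ * b ∈ Δ := QuotientGroup.leftRel_apply.1 hab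
      rw [QuotientGroup.eq]
      exact ⟨a⁻¹ * b, h1, rfl⟩)
  have hf : ∀ a : Γ, f (a : Γ ⧸ Δ) = ((a : Γ ⧸ N) : (Γ ⧸ N) ⧸ (Δ.map (QuotientGroup.mk' N))) :=
    fun a => rfl
  have hinj : Function.Injective f := by
    intro x y h
    obtain ⟨a, rfl⟩ := QuotientGroup.mk_surjective x
    obtain ⟨b, rfl⟩ := QuotientGroup.mk_surjective y
    rw [hf, hf, QuotientGroup.eq] at h
    obtain ⟨d, hd, h1⟩ := h
    rw [QuotientGroup.eq]
    have h2 : ((d : Γ) : Γ ⧸ N) = ((a⁻¹ * b : Γ) : Γ ⧸ N) := h1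
    rw [QuotientGroup.eq] at h2
    have h3 := Δ.mul_mem hd (hle h2)
    simpa using h3
  have hsurj : Function.Surjective f := by
    intro x
    obtain ⟨y, rfl⟩ := QuotientGroup.mk_surjective x
    obtain ⟨a, rfl⟩ := QuotientGroup.mk_surjective y
    exact ⟨a, rfl⟩
  have hsm : ∀ x, f (g • x) = (g : Γ ⧸ N) • f x := by
    intro x
    obtain ⟨a, rfl⟩ := QuotientGroup.mk_surjective x
    rfl
  refine Nat.card_congr (Equiv.subtypeEquiv (Equiv.ofBijective f ⟨hinj, hsurj⟩).symm ?_)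
  intro x
  obtain ⟨y, rfl⟩ := hsurj x
  have h1 : (Equiv.ofBijective f ⟨hinj, hsurj⟩).symm (f y) = y :=
    (Equiv.ofBijective f ⟨hinj, hsurj⟩).symm_apply_apply y
  rw [h1, ← hsm]
  exact hinj.eq_iff

end

end Pool.Agent.Q5.RG
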