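import Pool.Agent.H26.Lib.R_pool_sql_team_seeded_3997aac3.Q5.RG.Inv

/-! **The regulators in a relation.** -/

set_option autoImplicit false
set_option linter.unusedSectionVars false

namespace Pool.Agent.Q5.RG

open Module
open Pool.Agent.Q5.SO (fq)
open scoped Classical

section
variable {k G κ κ' V : Type} [Field k] [CharZero k] [Group G] [Fintype G] [Fintype κ] [Fintype κ']
  [AddCommGroup V] [Module k V]

/-- the matrices of a representation -/
noncomputable def matR (ρ : Representation k G V) (v : Basis κ k V) : G →* Matrix κ κ k where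
  toFun g := LinearMap.toMatrix v v (ρ g)
  map_one' := by rw [map_one]; exact LinearMap.toMatrix_one v
  map_mul' g h := by rw [map_mul]; exact LinearMap.toMatrix_mul v _ _

theorem matR_apply (ρ : Representation k G V) (v : Basis κ k V) (g : G) (m : κ) :
    ρ g (v m) = ∑ l, matR ρ v g l m • v l := by
  conv_lhs => rw [← v.sum_repr (ρ g (v m))]
  refine Finset.sum_congr rfl fun l _ => ?_
  congr 1
  exact (LinearMap.toMatrix_apply v v (ρ g) l m).symm

theorem matR_mulVec (ρ : Representation k G V) (v : Basis κ k V) (g : G) (x : V) :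
    (matR ρ v g).mulVec (v.repr x) = v.repr (ρ g x) := LinearMap.toMatrix_mulVec_repr v v (ρ g) x

/-- the coordinates -/
noncomputable def cor (v : Basis κ k V) {W : Submodule k V} (a : Basis κ' k W) : Matrix κ κ' k :=
  Matrix.of fun l m => v.repr (a m : V) l

theorem cor_mulVec (v : Basis κ k V) {W : Submodule k V} (a : Basis κ' k W) (y : κ' → k) :
    (cor v a).mulVec y = v.repr ((∑ m, y m • a m : W) : V) := by
  ext l
  rw [Submodule.coe_sum, map_sum, Finset.sum_apply']
  unfold cor Matrix.mulVec dotProduct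
  refine Finset.sum_congr rfl fun m _ => ?_
  rw [Submodule.coe_smul, map_smul, Finsupp.smul_apply, smul_eq_mul, mul_comm]
  rfl

theorem isInv_cor (ρ : Representation k G V) (v : Basis κ k V) (H : Subgroup G)
    (a : Basis κ' k (inv ρ H)) : IsInv (matR ρ v) H (cor v a) := by
  constructor
  · intro y y' hy
    rw [cor_mulVec, cor_mulVec] at hy
    have h1 : (∑ m, y m • a m : inv ρ H) = ∑ m, y' m • a m := by
      apply Subtype.ext
      exact v.repr.injective (DFunLike.coe_injective hy)
    have h2 := congrArg (fun u => a.equivFun u) h1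
    have h3 : ∀ y : κ' → k, a.equivFun (∑ m, y m • a m) = y := by
      intro y
      rw [← Basis.equivFun_symm_apply, LinearEquiv.apply_symm_apply]
    change a.equivFun _ = a.equivFun _ at h2
    rwa [h3, h3] at h2
  · intro x
    set u : V := v.equivFun.symm x with hu
    have hx : (v.repr u : κ → k) = x := by
      have := v.equivFun.apply_symm_apply x
      exact this
    constructor
    · intro h
      have hinv : u ∈ inv ρ H := by
        intro g hg
        have h1 := h g hg
        rw [← hx, matR_mulVec] at h1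
        exact v.repr.injective (DFunLike.coe_injective h1)
      refine ⟨a.equivFun ⟨u, hinv⟩, ?_⟩
      rw [cor_mulVec]
      have h2 : (∑ m, a.equivFun ⟨u, hinv⟩ m • a m : inv ρ H) = ⟨u, hinv⟩ :=
        a.sum_equivFun _
      rw [h2, hx]
    · rintro ⟨y, hy⟩ g hg
      rw [← hy, cor_mulVec, matR_mulVec]
      congr 2
      exact (∑ m, y m • a m : inv ρ H).2 g hg

end

section
variable {k R G κ V W U : Type} [Field k] [CharZero k] [Field R] [Algebra k R] [Group G] [Fintype G]
  [Fintype κ] [AddCommGroup V] [Module k V] [AddCommGroup W] [Module k W] [AddCommGroup U]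
  [Module R U]

theorem li_eq {η : W → U} {w : κ → W} (hw : LinearIndependent R fun l => η (w l)) {x y : κ → R}
    (h : ∑ l, x l • η (w l) = ∑ l, y l • η (w l)) : x = y := by
  have h1 := (Fintype.linearIndependent_iff.1 hw) (fun l => x l - y l) (by
    rw [Finset.sum_congr rfl fun l _ => sub_smul (x l) (y l) _, Finset.sum_sub_distrib, h, sub_self])
  ext l
  exact sub_eq_zero.1 (h1 l)

/-- **The regulators in a relation.** -/
theorem reg_rel (ρV : Representation k G V) (ρW : Representation k G W) (ρU : Representation R G U)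
    (θ : V →ₛₗ[algebraMap k R] U) (η : W →ₛₗ[algebraMap k R] U)
    (hθ : ∀ g v, θ (ρV g v) = ρU g (θ v)) (hη : ∀ g w, η (ρW g w) = ρU g (η w))
    (v : Basis κ k V) (w : Basis κ k W) (D : Matrix κ κ R) (hD : D.det ≠ 0)
    (hvw : ∀ m, θ (v m) = ∑ l, D l m • η (w l)) (hw : LinearIndependent R fun l => η (w l))
    {ι : Type} [Fintype ι] (H : ι → Subgroup G) (n : ι → ℤ) (h : ∀ g, ∑ j, n j * fq (H j) g = 0)
    (κ' : ι → Type) [∀ j, Fintype (κ' j)] (a : ∀ j, Basis (κ' j) k (inv ρV (H j)))
    (b : ∀ j, Basis (κ' j) k (inv ρW (H j))) (C : ∀ j, Matrix (κ' j) (κ' j) R)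
    (hC : ∀ j m, θ (a j m : V) = ∑ l, C j l m • η (b j l : W)) :
    ∃ q : k, q ≠ 0 ∧ ∏ j, (C j).det ^ (n j) = algebraMap k R q := by
  set A := matR ρV v with hA
  set B := matR ρW w with hB
  -- the matrix `D` is equivariant
  have hDA : ∀ g, D * (A g).map (algebraMap k R) = (B g).map (algebraMap k R) * D := by
    intro g
    ext l m
    have h1 : θ (ρV g (v m)) = ∑ l, (D * (A g).map (algebraMap k R)) l m • η (w l) := by
      rw [matR_apply ρV v g m, map_sum]
      rw [Finset.sum_congr rfl fun i _ => by rw [LinearMap.map_smulₛₗ, hvw i, Finset.smul_sum]]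
      rw [Finset.sum_comm]
      refine Finset.sum_congr rfl fun l _ => ?_
      rw [Matrix.mul_apply, Finset.sum_smul]
      refine Finset.sum_congr rfl fun i _ => ?_
      rw [smul_smul, mul_comm, Matrix.map_apply]
    have h2 : ρU g (θ (v m)) = ∑ l, ((B g).map (algebraMap k R) * D) l m • η (w l) := by
      rw [hvw m, map_sum]
      rw [Finset.sum_congr rfl fun i _ => by
        rw [map_smul, ← hη, matR_apply ρW w g i, map_sum, Finset.smul_sum]]
      rw [Finset.sum_comm]
      refine Finset.sum_congr rfl fun l _ => ?_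
      rw [Matrix.mul_apply, Finset.sum_smul]
      refine Finset.sum_congr rfl fun i _ => ?_
      rw [LinearMap.map_smulₛₗ, smul_smul, mul_comm, Matrix.map_apply]
    rw [hθ, h2] at h1
    exact congrFun (li_eq (x := fun l => (D * (A g).map (algebraMap k R)) l m)
      (y := fun l => ((B g).map (algebraMap k R) * D) l m) hw h1.symm) l
  obtain ⟨Φ, hΦ, hΦA⟩ := exists_rat A B D hD hDA
  have hΦu : IsUnit Φ.det := isUnit_iff_ne_zero.2 hΦ
  have hΦ1 : Φ⁻¹ * Φ = 1 := Matrix.nonsing_inv_mul _ hΦu
  have hΦ2 : Φ * Φ⁻¹ = 1 := Matrix.mul_nonsing_inv _ hΦu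
  have hΦB : ∀ g, Φ⁻¹ * B g = A g * Φ⁻¹ := by
    intro g
    calc Φ⁻¹ * B g = Φ⁻¹ * (B g * Φ) * Φ⁻¹ := by
          rw [mul_assoc, mul_assoc, hΦ2, mul_one]
      _ = A g * Φ⁻¹ := by rw [← hΦA g, ← mul_assoc, hΦ1, one_mul]
  have hP := fun j => isInv_cor ρV v (H j) (a j)
  have hQ := fun j => isInv_cor ρW w (H j) (b j)
  set P := fun j => cor v (a j) with hPdef
  set Q := fun j => cor w (b j) with hQdef
  -- the rational matrices
  have hF : ∀ j, ∃ F : Matrix (κ' j) (κ' j) k, Φ * P j = Q j * F := by
    intro j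
    have h1 : ∀ m, ∃ y, (Q j).mulVec y = (Φ * P j).col m := by
      intro m
      refine ((hQ j).2 _).1 fun g hg => ?_
      have h2 := ((hP j).2 ((P j).col m)).2 ⟨Pi.single m 1, Matrix.mulVec_single_one _ _⟩ g hg
      have h3 : (Φ * P j).col m = Φ.mulVec ((P j).col m) := by
        rw [← Matrix.mulVec_single_one, ← Matrix.mulVec_single_one, Matrix.mulVec_mulVec]
      change (B g).mulVec _ = _
      rw [h3, Matrix.mulVec_mulVec, ← hΦA g, ← Matrix.mulVec_mulVec]
      congr 1
    choose Y hY using h1
    refine ⟨Matrix.of fun l m => Y m l, ?_⟩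
    ext l m
    rw [Matrix.mul_apply]
    exact (congrFun (hY m) l).symm
  have hF' : ∀ j, ∃ F : Matrix (κ' j) (κ' j) k, Φ⁻¹ * Q j = P j * F := by
    intro j
    have h1 : ∀ m, ∃ y, (P j).mulVec y = (Φ⁻¹ * Q j).col m := by
      intro m
      refine ((hP j).2 _).1 fun g hg => ?_
      have h2 := ((hQ j).2 ((Q j).col m)).2 ⟨Pi.single m 1, Matrix.mulVec_single_one _ _⟩ g hg
      have h3 : (Φ⁻¹ * Q j).col m = Φ⁻¹.mulVec ((Q j).col m) := by
        rw [← Matrix.mulVec_single_one, ← Matrix.mulVec_single_one, Matrix.mulVec_mulVec]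
      change (A g).mulVec _ = _
      rw [h3, Matrix.mulVec_mulVec, ← hΦB g, ← Matrix.mulVec_mulVec]
      congr 1
    choose Y hY using h1
    refine ⟨Matrix.of fun l m => Y m l, ?_⟩
    ext l m
    rw [Matrix.mul_apply]
    exact (congrFun (hY m) l).symm
  choose F hF using hF
  choose F' hF' using hF'
  have hFF : ∀ j, F' j * F j = 1 := by
    intro j
    obtain ⟨L, hL⟩ := exists_left (hP j).1
    have h1 : P j * (F' j * F j) = P j := by
      rw [← Matrix.mul_assoc, ← hF' j, Matrix.mul_assoc, ← hF j, ← Matrix.mul_assoc, hΦ1,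
        Matrix.one_mul]
    calc F' j * F j = (L * P j) * (F' j * F j) := by rw [hL, Matrix.one_mul]
      _ = L * (P j * (F' j * F j)) := by rw [Matrix.mul_assoc]
      _ = 1 := by rw [h1, hL]
  have hdet' : ∀ j, (F' j).det ≠ 0 := by
    intro j h0
    have h1 := congrArg Matrix.det (hFF j)
    rw [Matrix.det_mul, h0, zero_mul, Matrix.det_one] at h1
    exact zero_ne_one h1
  -- the coordinates of the equation `hC`
  have hDP : ∀ j, D * (P j).map (algebraMap k R) = (Q j).map (algebraMap k R) * C j := by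
    intro j
    ext l m
    have h1 : θ (a j m : V) = ∑ l, (D * (P j).map (algebraMap k R)) l m • η (w l) := by
      rw [← v.sum_repr (a j m : V), map_sum]
      rw [Finset.sum_congr rfl fun i _ => by rw [LinearMap.map_smulₛₗ, hvw i, Finset.smul_sum]]
      rw [Finset.sum_comm]
      refine Finset.sum_congr rfl fun l _ => ?_
      rw [Matrix.mul_apply, Finset.sum_smul]
      refine Finset.sum_congr rfl fun i _ => ?_
      rw [smul_smul, mul_comm, Matrix.map_apply]
      rfl
    have h2 : θ (a j m : V) = ∑ l, ((Q j).map (algebraMap k R) * C j) l m • η (w l) := by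
      rw [hC j m]
      rw [Finset.sum_congr rfl fun i _ => by
        rw [← w.sum_repr (b j i : W), map_sum, Finset.smul_sum]]
      rw [Finset.sum_comm]
      refine Finset.sum_congr rfl fun l _ => ?_
      rw [Matrix.mul_apply, Finset.sum_smul]
      refine Finset.sum_congr rfl fun i _ => ?_
      rw [LinearMap.map_smulₛₗ, smul_smul, mul_comm, Matrix.map_apply]
      rfl
    rw [h1] at h2
    exact congrFun (li_eq (x := fun l => (D * (P j).map (algebraMap k R)) l m)
      (y := fun l => ((Q j).map (algebraMap k R) * C j) l m) hw h2) l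
  -- the automorphism
  let T : Matrix κ κ R := D * (Φ⁻¹).map (algebraMap k R)
  have hT : ∀ g, T * (B g).map (algebraMap k R) = (B g).map (algebraMap k R) * T := by
    intro g
    change D * (Φ⁻¹).map (algebraMap k R) * (B g).map (algebraMap k R) = (B g).map (algebraMap k R) * (D * (Φ⁻¹).map (algebraMap k R))
    rw [mul_assoc, ← Matrix.map_mul, hΦB g, Matrix.map_mul, ← mul_assoc, hDA g, mul_assoc]
  have hT0 : T.det ≠ 0 := by
    change (D * (Φ⁻¹).map (algebraMap k R)).det ≠ 0
    rw [Matrix.det_mul]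
    refine mul_ne_zero hD ?_
    have h1 := RingHom.map_det (algebraMap k R) Φ⁻¹
    rw [RingHom.mapMatrix_apply] at h1
    rw [← h1]
    intro h0
    have h2 : Φ⁻¹.det = 0 := (algebraMap k R).injective (by rw [h0, map_zero])
    have h3 := congrArg Matrix.det hΦ1
    rw [Matrix.det_mul, h2, zero_mul, Matrix.det_one] at h3
    exact zero_ne_one h3
  have hkey := det_matrix B T hT0 hT H n h κ' Q hQ (fun j => C j * (F' j).map (algebraMap k R)) (by
    intro j
    change D * (Φ⁻¹).map (algebraMap k R) * (Q j).map (algebraMap k R) = (Q j).map (algebraMap k R) * (C j * (F' j).map (algebraMap k R))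
    rw [Matrix.mul_assoc, ← Matrix.map_mul, hF' j, Matrix.map_mul, ← Matrix.mul_assoc, hDP j,
      Matrix.mul_assoc])
  refine ⟨∏ j, ((F' j).det ^ (n j))⁻¹, Finset.prod_ne_zero_iff.2 fun j _ =>
    inv_ne_zero (zpow_ne_zero _ (hdet' j)), ?_⟩
  have h1 : ∀ j, (C j * (F' j).map (algebraMap k R)).det ^ (n j) = (C j).det ^ (n j) * algebraMap k R ((F' j).det ^ (n j)) := by
    intro j
    rw [Matrix.det_mul, mul_zpow, map_zpow₀]
    congr 2
    have h2 := RingHom.map_det (algebraMap k R) (F' j)
    rw [RingHom.mapMatrix_apply] at h2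
    exact h2.symm
  rw [Finset.prod_congr rfl fun j _ => h1 j, Finset.prod_mul_distrib] at hkey
  rw [map_prod, Finset.prod_congr rfl fun j _ => map_inv₀ (algebraMap k R) _, Finset.prod_inv_distrib]
  exact eq_inv_of_mul_eq_one_left hkey

end

end Pool.Agent.Q5.RG
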